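import Pool.Agent.MP_48b1c3_nt.H99.Defs
import Pool.Agent.MP_48b1c3_nt.H69.CM

/-! Consequences of the theorem of Hermite. -/

namespace Pool.Agent.MP_48b1c3_nt.H99

open Finset NumberField H54 H91 Filter UniqueFactorizationMonoid
open scoped Classical ComplexOrder Topology

theorem herm (D : ℕ) : ∃ S : Finset {F : IntermediateField ℚ (AlgebraicClosure ℚ) //
    FiniteDimensional ℚ F}, ∀ (K : Type) [Field K] [NumberField K], (discr K).natAbs ≤ D →
      ∃ F ∈ S, Nonempty (K ≃+* F.1) := by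
  refine ⟨(finite_of_discr_bdd (AlgebraicClosure ℚ) D).toFinset, fun K _ _ hK => ?_⟩
  let τ : K →ₐ[ℚ] AlgebraicClosure ℚ := IsAlgClosed.lift
  have e : K ≃ₐ[ℚ] τ.fieldRange := AlgEquiv.ofInjectiveField τ
  have f : FiniteDimensional ℚ τ.fieldRange := e.toLinearEquiv.finiteDimensional
  refine ⟨⟨_, f⟩, (Set.Finite.mem_toFinset _).2 ?_, ⟨e.toRingEquiv⟩⟩
  have : NumberField τ.fieldRange := NumberField.mk
  change |discr τ.fieldRange| ≤ D
  rw [← discr_eq_discr_of_algEquiv K e, Int.abs_eq_natAbs]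
  exact_mod_cast hK

theorem cls_bdd (D : ℕ) : ∃ h : ℕ, ∀ (K : Type) [Field K] [NumberField K],
    (discr K).natAbs ≤ D → classNumber K ≤ h := by
  obtain ⟨S, hS⟩ := herm D
  refine ⟨S.sup fun F => Nat.card (ClassGroup (𝓞 F.1)), fun K _ _ hK => ?_⟩
  obtain ⟨F, h1, ⟨e⟩⟩ := hS K hK
  refine le_trans (le_of_eq ?_) (le_sup (f := fun F : {F : IntermediateField ℚ
    (AlgebraicClosure ℚ) // FiniteDimensional ℚ F} => Nat.card (ClassGroup (𝓞 F.1))) h1)
  rw [classNumber, ← Nat.card_eq_fintype_card]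
  exact Nat.card_congr (ClassGroup.mulEquiv (RingOfIntegers.mapRingEquiv e)).toEquiv

theorem cm_unit (Γ : Subgroup (AlgebraicClosure ℚ)ˣ) (hΓ : Γ.FG) (D₁ : ℕ) : ∃ D : ℕ,
    ∀ (K : Type) [Field K] [NumberField K], IsCMField K →
      (discr (maximalRealSubfield K)).natAbs ≤ D₁ → D ≤ (discr K).natAbs → ∀ u : 𝓞 K,
      (∀ k : ℕ, 0 < k → (u : K) ^ k ∉ maximalRealSubfield K) →
      ∀ (τ : K →+* AlgebraicClosure ℚ) (m : ℕ), 0 < m → ∀ γ ∈ Γ,
        (γ : AlgebraicClosure ℚ) ≠ τ u ^ m := by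
  obtain ⟨T, hT⟩ := hΓ
  obtain ⟨S, hS⟩ := herm D₁
  have b := fun F : {F : IntermediateField ℚ (AlgebraicClosure ℚ) // FiniteDimensional ℚ F} =>
    have := F.2
    Module.finBasis ℚ F.1
  obtain ⟨N, hf, hN, hm⟩ := H69.exists_normal (T.image Units.val ∪
    S.biUnion fun F => univ.image fun i => (b F i : AlgebraicClosure ℚ))
  have : NumberField N := NumberField.mk
  refine ⟨(discr N).natAbs + 1, fun K _ _ hK h1 h2 u hu τ m m0 γ hγ e => ?_⟩
  have g1 : τ ((u : K) ^ m) ∈ N := by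
    rw [map_pow, ← e]
    rw [← hT] at hγ
    clear e
    induction hγ using Subgroup.closure_induction with
    | mem x hx => exact hm _ (mem_union_left _ (mem_image_of_mem _ hx))
    | one => exact one_mem _
    | mul x y _ _ hx hy => rw [Units.val_mul]; exact mul_mem hx hy
    | inv x _ hx => rw [Units.val_inv_eq_inv_val]; exact inv_mem hx
  obtain ⟨F, f1, ⟨j⟩⟩ := hS _ h1
  have g2 : ∀ x : maximalRealSubfield K, τ x ∈ N := fun x => by
    refine H69.conj_mem N hN ((algebraMap F.1 (AlgebraicClosure ℚ)).comp j.toRingHom)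
      (τ.comp (maximalRealSubfield K).subtype) x ?_
    change ((j x : F.1) : AlgebraicClosure ℚ) ∈ N
    rw [← (b F).sum_repr (j x), AddSubmonoidClass.coe_finsetSum]
    exact sum_mem fun i _ => N.smul_mem (hm _ (mem_union_right _
      (mem_biUnion.2 ⟨F, f1, mem_image_of_mem _ (mem_univ i)⟩)))
  have g3 : ∀ x : K, τ x ∈ N := fun x => by
    let A : Subalgebra (maximalRealSubfield K) K :=
      { N.toSubfield.toSubring.toSubsemiring.comap τ with algebraMap_mem' := g2 }
    have := Subalgebra.isSimpleOrder_of_finrank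
      (Algebra.IsQuadraticExtension.finrank_eq_two (maximalRealSubfield K) K)
    rcases eq_bot_or_eq_top A with a | a
    · obtain ⟨y, hy⟩ := Algebra.mem_bot.1 (a.le (show (u : K) ^ m ∈ A from g1))
      exact (hu m m0 (hy ▸ y.2)).elim
    · exact a.ge Algebra.mem_top
  let _ : Algebra K N := (τ.codRestrict N.toSubfield g3).toAlgebra
  have := Nat.le_of_dvd (Int.natAbs_pos.2 (discr_ne_zero N))
    (Int.natAbs_dvd_natAbs.2 (discr_dvd_discr K N))
  omega

end Pool.Agent.MP_48b1c3_nt.H99
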