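import Pool.Agent.MP_48b1c3_nt.H99.Defs

/-! Comparison of Dirichlet series. -/

namespace Pool.Agent.MP_48b1c3_nt.H99

open Finset NumberField H54 H91 Filter UniqueFactorizationMonoid
open scoped Classical ComplexOrder Topology

theorem le_mono {a b V W : ArithmeticFunction ℂ} {A B : ℂ → ℂ} (ha : siegel_P a V A)
    (hb : siegel_P b W B) (h0 : ∀ m, 0 ≤ V m) (h1 : ∀ m, V m ≤ W m) (n : ℕ) : a n ≤ b n := by
  induction n using Nat.strong_induction_on with
  | _ n ih =>
    rcases Nat.lt_or_ge n 2 with h | h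
    · interval_cases n
      · simp
      · rw [ha.one, hb.one]
    have hn : n ≠ 0 := by omega
    have hl : 0 < Real.log n := Real.log_pos (by exact_mod_cast h)
    have e : ∀ {f U : ArithmeticFunction ℂ} {G : ℂ → ℂ}, siegel_P f U G →
        f n = (((Real.log n)⁻¹ : ℝ) : ℂ) * (U * f) n := fun {f U G} hf => by
      have : (Real.log n : ℂ) ≠ 0 := by exact_mod_cast hl.ne'
      rw [← hf.der, ArithmeticFunction.pmul_apply]
      simp only [siegel_lg, toArithmeticFunction, ArithmeticFunction.coe_mk, hn, if_false]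
      rw [Complex.ofReal_inv, inv_mul_cancel_left₀ this]
    rw [e ha, e hb]
    refine mul_le_mul_of_nonneg_left ?_ (Complex.zero_le_real.2 (inv_nonneg.2 hl.le))
    rw [ArithmeticFunction.mul_apply, ArithmeticFunction.mul_apply]
    refine sum_le_sum fun p hp => ?_
    obtain ⟨h3, _⟩ := Nat.mem_divisorsAntidiagonal.1 hp
    have h4 : p.1 ≠ 0 := Nat.left_ne_zero_of_mem_divisorsAntidiagonal hp
    have h5 : p.2 ≠ 0 := Nat.right_ne_zero_of_mem_divisorsAntidiagonal hp
    rcases eq_or_ne p.1 1 with h6 | h6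
    · rw [h6, ha.wone, hb.wone, zero_mul, zero_mul]
    · refine mul_le_mul (h1 _) (ih _ ?_) (ha.nonneg h0 _) ((h0 _).trans (h1 _))
      rw [← h3]
      exact lt_mul_of_one_lt_left (Nat.pos_of_ne_zero h5) (by omega)

theorem P_mono {a b V W : ArithmeticFunction ℂ} {A B : ℂ → ℂ} (ha : siegel_P a V A)
    (hb : siegel_P b W B) (h0 : ∀ m, 0 ≤ V m) (h1 : ∀ m, V m ≤ W m) {σ : ℝ} (hσ : 1 < σ) :
    ‖A σ‖ ≤ ‖B σ‖ := by
  have a0 := ha.nonneg h0
  have s1 : 1 < (σ : ℂ).re := by simpa using hσ
  have t0 : ∀ n, 0 ≤ LSeries.term a σ n := fun n => LSeries.term_nonneg (a0 n) σ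
  have t1 : ∀ n, LSeries.term a σ n ≤ LSeries.term b σ n := fun n => by
    rcases eq_or_ne n 0 with rfl | hn
    · simp
    rw [LSeries.term_of_ne_zero hn, LSeries.term_of_ne_zero hn, div_eq_mul_inv, div_eq_mul_inv]
    refine mul_le_mul_of_nonneg_right (le_mono ha hb h0 h1 n) ?_
    rw [← Complex.ofReal_natCast, ← Complex.ofReal_cpow n.cast_nonneg, ← Complex.ofReal_inv]
    exact Complex.zero_le_real.2 (by positivity)
  have u0 : 0 ≤ A σ := ha.val σ s1 ▸ tsum_nonneg t0
  have u1 : A σ ≤ B σ := ha.val σ s1 ▸ hb.val σ s1 ▸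
    Summable.tsum_le_tsum t1 (ha.sum σ s1) (hb.sum σ s1)
  have u2 := (Complex.le_def.1 u1).1.trans (Complex.re_le_norm _)
  rwa [Complex.eq_coe_norm_of_nonneg u0, Complex.ofReal_re] at u2

theorem one_mono {Q : ℕ} (hQ : 0 < Q) : ∃ (g W : ArithmeticFunction ℂ) (G : ℂ → ℂ),
    siegel_P g W G ∧ (∀ m, W m = if m.Coprime Q then 0 else
      ((ArithmeticFunction.vonMangoldt m : ℝ) : ℂ)) ∧ ∀ σ : ℝ, 1 < σ → ‖G σ‖ ≤ tau Q := by
  let f : ℕ → ℂ := (Nat.factoredNumbers Q.primeFactors).indicator 1
  have f0 : f 0 = 0 := Set.indicator_of_notMem (fun h => h.1 rfl) _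
  have f1 : f 1 = 1 := Set.indicator_of_mem (Nat.mem_factoredNumbers'.2 fun p p1 p2 =>
    absurd (Nat.dvd_one.1 p2) p1.ne_one) _
  have fm : ∀ a b, a ≠ 0 → b ≠ 0 → f (a * b) = f a * f b := fun a b a0 b0 => by
    by_cases h : a * b ∈ Nat.factoredNumbers Q.primeFactors
    · simp only [f, Set.indicator_of_mem h,
        Set.indicator_of_mem (Nat.mem_factoredNumbers_of_dvd h (dvd_mul_right a b)),
        Set.indicator_of_mem (Nat.mem_factoredNumbers_of_dvd h (dvd_mul_left b a))]
      simp
    · by_cases h' : a ∈ Nat.factoredNumbers Q.primeFactors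
      · simp only [f, Set.indicator_of_notMem h,
          Set.indicator_of_notMem fun g => h (Nat.mul_mem_factoredNumbers h' g), mul_zero]
      · simp only [f, Set.indicator_of_notMem h, Set.indicator_of_notMem h', zero_mul]
  have fb : ∀ n, ‖f n‖ ≤ 1 := fun n => by
    by_cases h : n ∈ Nat.factoredNumbers Q.primeFactors
    · simp [f, Set.indicator_of_mem h]
    · simp [f, Set.indicator_of_notMem h]
  refine ⟨⟨f, f0⟩, ⟨fun m => f m * (ArithmeticFunction.vonMangoldt m : ℝ), by simp⟩, LSeries f,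
    ⟨?_, f1, by simp, fun s hs => LSeriesSummable_of_bounded_of_one_lt_re (fun n _ => fb n) hs,
      fun _ _ => rfl⟩, fun m => ?_, fun σ hσ => ?_⟩
  · ext n
    rcases eq_or_ne n 0 with rfl | hn
    · simp
    show siegel_lg n * f n = ∑ p ∈ n.divisorsAntidiagonal,
      f p.1 * (ArithmeticFunction.vonMangoldt p.1 : ℂ) * f p.2
    rw [sum_congr rfl (g := fun p => f n * (ArithmeticFunction.vonMangoldt p.1 : ℂ)) fun p hp => by
        rw [← (Nat.mem_divisorsAntidiagonal.1 hp).1,
          fm _ _ (Nat.left_ne_zero_of_mem_divisorsAntidiagonal hp)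
            (Nat.right_ne_zero_of_mem_divisorsAntidiagonal hp)]
        ring, ← mul_sum,
      Nat.sum_divisorsAntidiagonal fun a _ => (ArithmeticFunction.vonMangoldt a : ℂ),
      ← Complex.ofReal_sum, ArithmeticFunction.vonMangoldt_sum]
    simp only [siegel_lg, toArithmeticFunction, ArithmeticFunction.coe_mk, hn, if_false]
    ring
  · simp only [ArithmeticFunction.coe_mk]
    by_cases h : IsPrimePow m
    · obtain ⟨p, j, p1, j0, rfl⟩ := (isPrimePow_nat_iff m).1 h
      simp only [Nat.coprime_pow_left_iff j0, p1.coprime_iff_not_dvd]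
      by_cases g : p ∣ Q
      · rw [if_neg (not_not.2 g), show f (p ^ j) = 1 from Set.indicator_of_mem
          (Nat.mem_factoredNumbers'.2 fun r r1 r2 => Nat.mem_primeFactors.2 ⟨r1,
            (Nat.prime_dvd_prime_iff_eq r1 p1).1 (r1.dvd_of_dvd_pow r2) ▸ g, hQ.ne'⟩) _, one_mul]
      · rw [if_pos g, show f (p ^ j) = 0 from Set.indicator_of_notMem (fun e => g
          (Nat.dvd_of_mem_primeFactors
            (Nat.mem_factoredNumbers'.1 e p p1 (dvd_pow_self p j0.ne')))) _, zero_mul]
    · rw [ArithmeticFunction.vonMangoldt_eq_zero_iff.2 h]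
      simp
  · have s1 : 1 < (σ : ℂ).re := by simpa using hσ
    have s0 := Complex.ne_zero_of_one_lt_re s1
    have hb : ∀ p : ℕ, p.Prime → ‖riemannZetaSummandHom s0 p‖ ≤ 1 / 2 := fun p hp =>
      Complex.norm_prime_cpow_le_one_half ⟨p, hp⟩ s1
    have H := (EulerProduct.summable_and_hasSum_factoredNumbers_prod_filter_prime_geometric
      (f := (riemannZetaSummandHom s0).toMonoidHom)
      (fun {p} hp => (hb p hp).trans_lt one_half_lt_one) Q.primeFactors).2
    have e : LSeries f σ = ∑' m : Nat.factoredNumbers Q.primeFactors,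
        riemannZetaSummandHom s0 m := by
      rw [tsum_subtype (Nat.factoredNumbers Q.primeFactors) fun m => riemannZetaSummandHom s0 m]
      refine tsum_congr fun n => ?_
      by_cases h : n ∈ Nat.factoredNumbers Q.primeFactors
      · rw [Set.indicator_of_mem h, LSeries.term_of_ne_zero h.1,
          show f n = 1 from Set.indicator_of_mem h _, one_div, ← Complex.cpow_neg]
        rfl
      · rw [Set.indicator_of_notMem h, LSeries.term_def,
          show f n = 0 from Set.indicator_of_notMem h _, zero_div, ite_self]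
    rw [e, show (∑' m : Nat.factoredNumbers Q.primeFactors, riemannZetaSummandHom s0 m) = _ from
      H.tsum_eq, filter_true_of_mem fun p hp => Nat.prime_of_mem_primeFactors hp, norm_prod, tau,
      Nat.card_divisors hQ.ne', Nat.cast_prod]
    refine prod_le_prod (fun _ _ => norm_nonneg _) fun p hp => ?_
    have p1 := Nat.prime_of_mem_primeFactors hp
    have p2 : (1 : ℝ) ≤ Q.factorization p := by
      exact_mod_cast p1.factorization_pos_of_dvd hQ.ne' (Nat.dvd_of_mem_primeFactors hp)
    have p3 := norm_sub_norm_le (1 : ℂ) (riemannZetaSummandHom s0 p)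
    have p4 := hb p p1
    rw [norm_one] at p3
    rw [norm_inv]
    refine (inv_anti₀ (b := 1 / 2) (by norm_num) (by
      show 1 / 2 ≤ ‖1 - riemannZetaSummandHom s0 p‖
      linarith)).trans ?_
    push_cast
    linarith

theorem P_fact {Q : ℕ} (hQ : 0 < Q) (k : ℕ) : ∃ (g W : ArithmeticFunction ℂ) (G : ℂ → ℂ),
    siegel_P g W G ∧ (∀ m, W m = if m.Coprime Q then 0 else
      ((k * ArithmeticFunction.vonMangoldt m : ℝ) : ℂ)) ∧
    ∀ σ : ℝ, 1 < σ → ‖G σ‖ ≤ tau Q ^ k := by
  obtain ⟨g, W, G, h1, h2, h3⟩ := one_mono hQ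
  induction k with
  | zero =>
    refine ⟨1, 0, 1, ⟨?_, by simp, rfl, fun s _ => ?_, fun s _ => ?_⟩, by simp, by simp⟩
    · ext n
      rcases eq_or_ne n 1 with rfl | hn
      · rw [ArithmeticFunction.pmul_apply]
        simp [siegel_lg, toArithmeticFunction]
      · simp [ArithmeticFunction.one_apply_ne hn]
    · show LSeriesSummable (fun n => (1 : ArithmeticFunction ℂ) n) s
      rw [ArithmeticFunction.one_eq_delta]
      exact (hasSum_single 1 fun n hn => by simp [LSeries.term_delta, hn]).summable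
    · show LSeries (fun n => (1 : ArithmeticFunction ℂ) n) s = _
      rw [ArithmeticFunction.one_eq_delta, LSeries_delta]
  | succ k ih =>
    obtain ⟨g', W', G', i1, i2, i3⟩ := ih
    refine ⟨_, _, _, i1.mul h1, fun m => ?_, fun σ hσ => ?_⟩
    · rw [ArithmeticFunction.add_apply, h2, i2]
      split_ifs
      · rw [add_zero]
      · push_cast
        ring
    · rw [norm_mul, pow_succ]
      exact mul_le_mul (i3 σ hσ) (h3 σ hσ) (norm_nonneg _) ((norm_nonneg _).trans (i3 σ hσ))

end Pool.Agent.MP_48b1c3_nt.H99
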