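import Pool.Agent.MP_48b1c3_nt.H99.Lam
import Pool.Agent.MP_48b1c3_nt.H99.Mono

/-! An upper bound for the value at one. -/

namespace Pool.Agent.MP_48b1c3_nt.H99

open Finset NumberField H54 H91 Filter UniqueFactorizationMonoid
open scoped Classical ComplexOrder Topology

variable {F : Type} [Field F] [NumberField F] {K : Type} [Field K] [NumberField K] [Algebra F K]
  [Algebra.IsQuadraticExtension F K]

theorem kap_res_lim (E : Type) [Field E] [NumberField E] :
    kap (fun _ : Ideal (𝓞 E) => (1 : ℂ)) = dedekindZeta_residue E := by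
  refine tendsto_nhds_unique (cont_kap_lim pf_one)
    ((tendsto_sub_one_mul_dedekindZeta_nhdsGT E).congr fun σ => ?_)
  congr 1
  refine LSeries_congr (fun {m} hm => ?_) _
  rw [push_apply _ hm, sum_const, nsmul_eq_mul, mul_one, Nat.cast_inj]
  exact Nat.subtype_card _ fun I => mem_idN E

theorem cop_lim {Q : ℕ} {I : Ideal (𝓞 F)} (h : (Ideal.absNorm I).Coprime Q) : Cop Q I := by
  obtain ⟨a, b, e⟩ := (Nat.isCoprime_iff_coprime.2 h).map (Int.castRingHom (𝓞 F))
  rw [Cop, Ideal.eq_top_iff_one, ← e]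
  refine Ideal.add_mem _ (Ideal.mem_sup_left (Ideal.mul_mem_left _ _ ?_))
    (Ideal.mem_sup_right (Ideal.mul_mem_left _ _ ?_))
  · simpa using Ideal.absNorm_mem I
  · simp

theorem one_lim (E : Type) [Field E] [NumberField E] (m : ℕ) :
    pushL (fun _ : Ideal (𝓞 E) => (1 : ℂ)) m = (lamK E m : ℝ) := by
  rcases eq_or_ne m 0 with rfl | hm
  · simp [lamK]
  · rw [pushL, push_apply _ hm, lamK, if_neg hm]
    simp

theorem ineq_lim {δ : 𝓞 F} (h : Sq K δ) {q Q : ℕ} {χ : Ideal (𝓞 F) → ℂ} (hχ : HC q χ) (hr : Rl χ)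
    (hQ : 0 < Q) (h2 : 2 * (nm δ).natAbs ∣ Q) (he : ∀ I, I ≠ ⊥ → Cop Q I → χ I = jac δ I)
    {σ : ℝ} (hσ : 1 < σ) :
    ‖LSeries (push fun _ : Ideal (𝓞 F) => (1 : ℂ)) σ * LSeries (push χ) σ‖ ≤
      tau Q ^ (2 * dg F) * ‖LSeries (push fun _ : Ideal (𝓞 K) => (1 : ℂ)) σ‖ := by
  obtain ⟨g, W, G, hg, hW, hG⟩ := P_fact hQ (2 * dg F)
  have p1 := push_P (F := fun _ : Ideal (𝓞 F) => (1 : ℂ)) rfl (by simp) (by simp)
  have p2 := push_P (F := fun _ : Ideal (𝓞 K) => (1 : ℂ)) rfl (by simp) (by simp)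
  have p3 := push_P hχ.one hχ.mul hχ.le
  have hb : ∀ {m : ℕ}, m ≠ 0 → ∀ I ∈ idN F m, I ≠ ⊥ := fun hm I hI h0 =>
    hm (by rw [← (mem_idN F).1 hI, h0, Ideal.absNorm_bot])
  have hV : ∀ m : ℕ, m ≠ 0 → (pushL (fun _ : Ideal (𝓞 F) => (1 : ℂ)) + pushL χ) m =
      ((∑ I ∈ idN F m, lam I * (1 + (χ I).re) : ℝ) : ℂ) := fun m hm => by
    rw [ArithmeticFunction.add_apply, pushL, pushL, push_apply _ hm, push_apply _ hm,
      ← sum_add_distrib, Complex.ofReal_sum]
    refine sum_congr rfl fun I hI => ?_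
    have : ((χ I).re : ℂ) = χ I := Complex.ext (by simp) (by simp [hr I (hb hm I hI)])
    push_cast
    rw [this]; ring
  have hre : ∀ I, |(χ I).re| ≤ 1 := fun I => (Complex.abs_re_le_norm _).trans (hχ.le I)
  refine (P_mono (p1.mul p3) (hg.mul p2) (fun m => ?_) (fun m => ?_) hσ).trans ?_
  · rcases eq_or_ne m 0 with rfl | hm
    · simp
    · rw [hV m hm]
      exact Complex.zero_le_real.2 (sum_nonneg fun I _ =>
        mul_nonneg (lam_nonneg I) (by linarith [(abs_le.1 (hre I)).1]))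
  · rcases eq_or_ne m 0 with rfl | hm
    · simp
    rw [hV m hm, ArithmeticFunction.add_apply, hW, one_lim]
    split_ifs with hc
    · rw [zero_add, Complex.real_le_real]
      refine le_trans (le_of_eq (sum_congr rfl fun I hI => ?_))
        (lam_le h hm (hc.coprime_dvd_right h2))
      rw [he I (hb hm I hI) (cop_lim (by rw [(mem_idN F).1 hI]; exact hc))]
      simp
    · rw [← Complex.ofReal_add, Complex.real_le_real]
      have h3 := lamK_le (K := F) m
      have h4 : 0 ≤ lamK K m := by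
        rw [lamK, if_neg hm]; exact sum_nonneg fun I _ => lam_nonneg I
      have h5 : ∑ I ∈ idN F m, lam I * (1 + (χ I).re) ≤ 2 * lamK F m := by
        rw [lamK, if_neg hm, mul_sum]
        exact sum_le_sum fun I _ => by
          nlinarith [lam_nonneg I, (abs_le.1 (hre I)).2]
      push_cast
      linarith
  · rw [norm_mul]
    exact mul_le_mul_of_nonneg_right (hG σ hσ) (norm_nonneg _)

theorem L_le {δ : 𝓞 F} (h : Sq K δ) {q Q : ℕ} {χ : Ideal (𝓞 F) → ℂ} (hχ : HC q χ) (hr : Rl χ)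
    (hQ : 0 < Q) (h2 : 2 * (nm δ).natAbs ∣ Q) (he : ∀ I, I ≠ ⊥ → Cop Q I → χ I = jac δ I) :
    kap χ = 0 ∧ dedekindZeta_residue F * ‖Ent χ 1‖ ≤
      tau Q ^ (2 * dg F) * dedekindZeta_residue K := by
  have ha := cont_kap_lim (pf_one (K := F))
  have hb := cont_kap_lim hχ.toPF
  have hc := cont_kap_lim (pf_one (K := K))
  rw [kap_res_lim] at ha hc
  have f0 := dedekindZeta_residue_pos F
  have k0 := dedekindZeta_residue_pos K
  have hz : Tendsto (fun σ : ℝ => (σ : ℂ) - 1) (𝓝[>] 1) (𝓝 0) := by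
    have : Continuous fun σ : ℝ => (σ : ℂ) - 1 := by fun_prop
    simpa using (this.tendsto 1).mono_left (nhdsWithin_le_nhds (s := Set.Ioi 1))
  have hk : kap χ = 0 := by
    have h1 := le_of_tendsto_of_tendsto (ha.mul hb).norm
      ((hz.mul hc).norm.const_mul (tau Q ^ (2 * dg F))) (by
        filter_upwards [self_mem_nhdsWithin] with σ hσ
        have := mul_le_mul_of_nonneg_left (ineq_lim h hχ hr hQ h2 he hσ)
          (mul_nonneg (norm_nonneg ((σ : ℂ) - 1)) (norm_nonneg ((σ : ℂ) - 1)))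
        simp only [norm_mul] at this ⊢
        linarith)
    rw [zero_mul, norm_zero, mul_zero, norm_le_zero_iff, mul_eq_zero] at h1
    exact h1.resolve_left (by exact_mod_cast f0.ne')
  refine ⟨hk, ?_⟩
  have hE : Tendsto (fun σ : ℝ => Ent χ σ) (𝓝[>] 1) (𝓝 (Ent χ 1)) := by
    have h1 := (Ent_spec hχ.toPF).1.continuous
    have : Continuous fun σ : ℝ => Ent χ σ := by fun_prop
    simpa using (this.tendsto 1).mono_left (nhdsWithin_le_nhds (s := Set.Ioi 1))
  have h1 := le_of_tendsto_of_tendsto (ha.mul hE).norm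
    (hc.norm.const_mul (tau Q ^ (2 * dg F))) (by
      filter_upwards [self_mem_nhdsWithin] with σ hσ
      have h3 := mul_le_mul_of_nonneg_left (ineq_lim h hχ hr hQ h2 he hσ)
        (norm_nonneg ((σ : ℂ) - 1))
      rw [(Ent_spec hχ.toPF).2 σ (by simpa using hσ), hk, zero_div, zero_add] at h3
      simp only [norm_mul] at h3 ⊢
      linarith)
  rwa [norm_mul, Complex.norm_real, Complex.norm_real, Real.norm_of_nonneg f0.le,
    Real.norm_of_nonneg k0.le] at h1

end Pool.Agent.MP_48b1c3_nt.H99
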