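import Pool.Agent.MP_48b1c3_nt.H99.Defs

/-! A small generator and the residue of a CM field. -/

namespace Pool.Agent.MP_48b1c3_nt.RP24

open NumberField NumberField.InfinitePlace NumberField.Units NumberField.mixedEmbedding
open scoped NNReal ENNReal IntermediateField

theorem torsionOrder_le (F K : Type) [Field F] [NumberField F] [Field K] [NumberField K]
    [Algebra F K] : torsionOrder F ≤ torsionOrder K := by
  let f : (𝓞 F)ˣ →* (𝓞 K)ˣ := Units.map (algebraMap (𝓞 F) (𝓞 K)).toMonoidHom
  have hf : Function.Injective f :=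
    Units.map_injective (FaithfulSMul.algebraMap_injective (𝓞 F) (𝓞 K))
  refine Nat.card_le_card_of_injective
    (fun x : torsion F => (⟨f x, MonoidHom.isOfFinOrder f x.2⟩ : torsion K)) ?_
  intro x y h
  exact Subtype.ext (hf (congrArg Subtype.val h))

variable (K : Type) [Field K] [NumberField K] [IsCMField K]

theorem finrank_eq : Module.finrank ℚ K = 2 * Module.finrank ℚ (maximalRealSubfield K) := by
  rw [← Module.finrank_mul_finrank ℚ (maximalRealSubfield K) K,
    Algebra.IsQuadraticExtension.finrank_eq_two (maximalRealSubfield K) K, mul_comm]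

theorem res_ratio : dedekindZeta_residue K * Real.sqrt |(discr K : ℝ)| ≤
    (2 * Real.pi) ^ Module.finrank ℚ (maximalRealSubfield K) * classNumber K *
      Real.sqrt |(discr (maximalRealSubfield K) : ℝ)| *
        dedekindZeta_residue (maximalRealSubfield K) := by
  have e1 : nrComplexPlaces K = Module.finrank ℚ (maximalRealSubfield K) := by
    have := IsTotallyComplex.finrank K
    have := finrank_eq K
    omega
  have e2 : nrRealPlaces (maximalRealSubfield K) = Module.finrank ℚ (maximalRealSubfield K) :=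
    (IsTotallyReal.finrank _).symm
  have e3 : rank K ≤ Module.finrank ℚ (maximalRealSubfield K) := by
    rw [rank, card_eq_nrRealPlaces_add_nrComplexPlaces, IsTotallyComplex.nrRealPlaces_eq_zero, e1]
    omega
  have hR : regulator K ≤ 2 ^ Module.finrank ℚ (maximalRealSubfield K) *
      regulator (maximalRealSubfield K) := by
    have h := IsCMField.regulator_div_regulator_eq_two_pow_mul_indexRealUnits_inv K
    rw [div_eq_iff (regulator_pos _).ne'] at h
    rw [h]
    have h1 : ((IsCMField.indexRealUnits K : ℝ))⁻¹ ≤ 1 := by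
      rcases IsCMField.indexRealUnits_eq_one_or_two K with e | e <;> rw [e] <;> norm_num
    have h2 : (2 : ℝ) ^ rank K ≤ 2 ^ Module.finrank ℚ (maximalRealSubfield K) :=
      pow_le_pow_right₀ one_le_two e3
    have h3 := regulator_pos (maximalRealSubfield K)
    gcongr
    exact (mul_le_of_le_one_right (by positivity) h1).trans h2
  have hw : (torsionOrder (maximalRealSubfield K) : ℝ) ≤ torsionOrder K := by
    exact_mod_cast torsionOrder_le _ K
  have hw0 : (0 : ℝ) < torsionOrder (maximalRealSubfield K) := by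
    exact_mod_cast torsionOrder_pos _
  have hh : (1 : ℝ) ≤ classNumber (maximalRealSubfield K) := by
    exact_mod_cast classNumber_pos _
  have d1 : 0 < Real.sqrt |(discr K : ℝ)| :=
    Real.sqrt_pos_of_pos (abs_pos.2 (Int.cast_ne_zero.2 (discr_ne_zero K)))
  have d2 : 0 < Real.sqrt |(discr (maximalRealSubfield K) : ℝ)| :=
    Real.sqrt_pos_of_pos (abs_pos.2 (Int.cast_ne_zero.2 (discr_ne_zero _)))
  have h3 := regulator_pos (maximalRealSubfield K)
  have h4 := regulator_pos K
  rw [dedekindZeta_residue_def, dedekindZeta_residue_def, IsTotallyComplex.nrRealPlaces_eq_zero K,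
    IsTotallyReal.nrComplexPlaces_eq_zero (maximalRealSubfield K), e1, e2]
  generalize Module.finrank ℚ (maximalRealSubfield K) = n at *
  have hw1 : (0 : ℝ) < torsionOrder K := hw0.trans_le hw
  have hpi := Real.pi_pos
  calc _ = (2 * Real.pi) ^ n * classNumber K * (regulator K / torsionOrder K) := by
        field_simp
    _ ≤ (2 * Real.pi) ^ n * classNumber K * (2 ^ n * regulator (maximalRealSubfield K) *
        classNumber (maximalRealSubfield K) / torsionOrder (maximalRealSubfield K)) := by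
        gcongr
        exact hR.trans (le_mul_of_one_le_right (by positivity) hh)
    _ = _ := by
        field_simp

omit [IsCMField K] in
theorem mink_lt : minkowskiBound K 1 <
    ((NNReal.sqrt ‖discr K‖₊ * 2 ^ Module.finrank ℚ K + 1 : ℝ≥0) : ℝ≥0∞) := by
  refine lt_of_le_of_lt ?_ (ENNReal.coe_lt_coe.2 (lt_add_one _))
  rw [minkowskiBound, volume_fundamentalDomain_fractionalIdealLatticeBasis, Units.val_one,
    FractionalIdeal.absNorm_one, Rat.cast_one, ENNReal.ofReal_one, one_mul, mixedEmbedding.finrank,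
    volume_fundamentalDomain_latticeBasis, ENNReal.coe_mul, ENNReal.coe_pow, ENNReal.coe_ofNat]
  gcongr
  exact mul_le_of_le_one_left' (pow_le_one₀ (by positivity) (by simp))

/-- a purely imaginary integer of `K` with small conjugates -/
theorem exists_imag : ∃ w : 𝓞 K, w ≠ 0 ∧ IsCMField.complexConj K (w : K) = -(w : K) ∧
    ∀ φ : K →+* ℂ, ‖φ (w : K)‖ ≤ 2 ^ (Module.finrank ℚ K + 3) * Real.sqrt |(discr K : ℝ)| := by
  obtain ⟨w₀⟩ : Nonempty (InfinitePlace K) := inferInstance
  have hB : minkowskiBound K 1 < convexBodyLT'Factor K *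
      ((NNReal.sqrt ‖discr K‖₊ * 2 ^ Module.finrank ℚ K + 1 : ℝ≥0) : ℝ≥0∞) := by
    refine (mink_lt K).trans_le (le_mul_of_one_le_left' ?_)
    exact_mod_cast one_le_convexBodyLT'Factor K
  obtain ⟨a, ha, hb⟩ := exists_primitive_element_lt_of_isComplex K
    (IsTotallyComplex.isComplex w₀) hB
  have hd : (1 : ℝ) ≤ Real.sqrt |(discr K : ℝ)| := by
    rw [Real.one_le_sqrt]
    exact_mod_cast Int.one_le_abs (discr_ne_zero K)
  have hb' : ∀ φ : K →+* ℂ, ‖φ (a : K)‖ ≤
      2 ^ (Module.finrank ℚ K + 2) * Real.sqrt |(discr K : ℝ)| := by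
    intro φ
    have h := (hb (InfinitePlace.mk φ)).le
    rw [InfinitePlace.apply] at h
    refine h.trans ?_
    have e : ((NNReal.sqrt ‖discr K‖₊ * 2 ^ Module.finrank ℚ K + 1 : ℝ≥0) : ℝ) =
        Real.sqrt |(discr K : ℝ)| * 2 ^ Module.finrank ℚ K + 1 := by
      simp [Real.coe_sqrt, Int.norm_eq_abs]
    rw [e]
    have h2 : (1 : ℝ) ≤ 2 ^ Module.finrank ℚ K := one_le_pow₀ one_le_two
    have h3 : 1 ≤ Real.sqrt |(discr K : ℝ)| * 2 ^ Module.finrank ℚ K := one_le_mul_of_one_le_of_one_le hd h2
    rw [pow_add, mul_comm _ (Real.sqrt |(discr K : ℝ)|), ← mul_assoc]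
    generalize Real.sqrt |(discr K : ℝ)| * 2 ^ Module.finrank ℚ K = t at h3
    rw [Real.sqrt_le_iff]
    constructor
    · positivity
    · nlinarith
  refine ⟨a - IsCMField.ringOfIntegersComplexConj K a, ?_, ?_, ?_⟩
  · intro h
    have h1 : IsCMField.complexConj K (a : K) = a := by
      rw [← IsCMField.coe_ringOfIntegersComplexConj, ← sub_eq_zero.1 h]
    apply IsCMField.complexConj_ne_one K
    ext x
    have hx : x ∈ ℚ⟮(a : K)⟯ := ha ▸ IntermediateField.mem_top
    have : ℚ⟮(a : K)⟯ ≤ (maximalRealSubfield K).toIntermediateField (fun q => by simp) := by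
      rw [IntermediateField.adjoin_simple_le_iff]
      exact (IsCMField.complexConj_eq_self_iff K _).1 h1
    exact (IsCMField.complexConj_eq_self_iff K _).2 (this hx)
  · simp [IsCMField.complexConj_apply_apply]
  · intro φ
    have e : φ ((a - IsCMField.ringOfIntegersComplexConj K a : 𝓞 K) : K) =
        φ (a : K) - (starRingEnd ℂ) (φ (a : K)) := by
      rw [← IsCMField.complexEmbedding_complexConj]
      simp
    rw [e]
    refine (norm_sub_le _ _).trans ?_
    rw [Complex.norm_conj, pow_succ _ (Module.finrank ℚ K + 2)]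
    have := hb' φ
    linarith

/-- a small totally negative integer of the real subfield that is a square in `K` -/
theorem prim : ∃ (w : 𝓞 K) (de : 𝓞 (maximalRealSubfield K)), w ≠ 0 ∧
    IsCMField.complexConj K (w : K) = -(w : K) ∧
    algebraMap (𝓞 (maximalRealSubfield K)) (𝓞 K) de = w ^ 2 ∧
    (∀ ψ : maximalRealSubfield K →+* ℝ, ψ (de : maximalRealSubfield K) < 0) ∧
    (∀ ψ : maximalRealSubfield K →+* ℂ, (ψ (de : maximalRealSubfield K)).re < 0) ∧
    ((Algebra.norm ℤ de).natAbs : ℝ) ≤
      (4 ^ (Module.finrank ℚ K + 3) * |(discr K : ℝ)|) ^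
        Module.finrank ℚ (maximalRealSubfield K) := by
  obtain ⟨w, h0, h1, h2⟩ := exists_imag K
  obtain ⟨de, hde⟩ := (IsCMField.ringOfIntegersComplexConj_eq_self_iff K (w ^ 2)).1 (by
    rw [RingOfIntegers.ext_iff, IsCMField.coe_ringOfIntegersComplexConj]
    simp [h1])
  have hK : algebraMap (maximalRealSubfield K) K (de : maximalRealSubfield K) = (w : K) ^ 2 := by
    have := congrArg (algebraMap (𝓞 K) K) hde
    rw [map_pow] at this
    exact this
  have hw : (w : K) ≠ 0 := by simpa using h0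
  have key : ∀ ψ : maximalRealSubfield K →+* ℂ, ∃ φ : K →+* ℂ,
      ψ (de : maximalRealSubfield K) = -((‖φ (w : K)‖ ^ 2 : ℝ) : ℂ) := by
    intro ψ
    refine ⟨ComplexEmbedding.lift K ψ, ?_⟩
    rw [← ComplexEmbedding.lift_algebraMap_apply K ψ, hK, map_pow]
    have := IsCMField.complexEmbedding_complexConj K (ComplexEmbedding.lift K ψ) (w : K)
    rw [h1, map_neg] at this
    rw [← Complex.normSq_eq_norm_sq, ← Complex.mul_conj, ← this]
    ring
  have hre : ∀ ψ : maximalRealSubfield K →+* ℂ, (ψ (de : maximalRealSubfield K)).re < 0 := by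
    intro ψ
    obtain ⟨φ, h⟩ := key ψ
    rw [h, Complex.neg_re, Complex.ofReal_re, neg_lt_zero]
    exact pow_pos (norm_pos_iff.2 ((map_ne_zero φ).2 hw)) 2
  refine ⟨w, de, h0, h1, hde, fun ψ => ?_, hre, ?_⟩
  · simpa using hre (Complex.ofRealHom.comp ψ)
  · have e : ((Algebra.norm ℤ de).natAbs : ℝ) =
        ‖algebraMap ℚ ℂ (Algebra.norm ℚ (de : maximalRealSubfield K))‖ := by
      rw [← Algebra.coe_norm_int]
      simp [Nat.cast_natAbs]
    rw [e, Algebra.norm_eq_prod_embeddings, norm_prod, ← AlgHom.card ℚ (maximalRealSubfield K) ℂ,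
      ← Finset.card_univ, ← Finset.prod_const]
    refine Finset.prod_le_prod (fun _ _ => norm_nonneg _) (fun σ _ => ?_)
    obtain ⟨φ, h⟩ := key σ.toRingHom
    have h' : σ (de : maximalRealSubfield K) = -((‖φ (w : K)‖ ^ 2 : ℝ) : ℂ) := h
    rw [h', norm_neg, Complex.norm_real, Real.norm_of_nonneg (by positivity)]
    calc _ ≤ (2 ^ (Module.finrank ℚ K + 3) * Real.sqrt |(discr K : ℝ)|) ^ 2 :=
          pow_le_pow_left₀ (norm_nonneg _) (h2 φ) 2
      _ = _ := by
          rw [mul_pow, Real.sq_sqrt (abs_nonneg _), ← pow_mul, mul_comm _ 2, pow_mul]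
          norm_num

end Pool.Agent.MP_48b1c3_nt.RP24

namespace Pool.Agent.MP_48b1c3_nt.H99

open Finset NumberField H54 H91 Filter UniqueFactorizationMonoid
open scoped Classical ComplexOrder Topology

theorem residue_congr_prim {F F' : Type} [Field F] [NumberField F] [Field F'] [NumberField F']
    (e : F ≃+* F') : dedekindZeta_residue F = dedekindZeta_residue F' := by
  have hz : dedekindZeta F = dedekindZeta F' := by
    funext s
    rw [dedekindZeta, dedekindZeta]
    congr 2
    funext n
    congr 1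
    let f := RingOfIntegers.mapRingEquiv e
    refine Nat.card_congr ((Ideal.relIsoOfBijective f f.bijective).symm.toEquiv.subtypeEquiv ?_)
    intro I
    have : Ideal.absNorm (I.map (f : 𝓞 F →+* 𝓞 F')) = Ideal.absNorm I := by
      rw [Ideal.absNorm_apply, Ideal.absNorm_apply, Submodule.cardQuot_apply,
        Submodule.cardQuot_apply]
      exact (Nat.card_congr (Ideal.quotientEquiv I _ f rfl).toEquiv).symm
    rw [← this]
    rfl
  have h1 := tendsto_sub_one_mul_dedekindZeta_nhdsGT F
  rw [hz] at h1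
  exact_mod_cast tendsto_nhds_unique h1 (tendsto_sub_one_mul_dedekindZeta_nhdsGT F')

variable (F : Type) [Field F] [NumberField F] [IsTotallyReal F]

theorem prim : ∃ C : ℕ, ∀ (K : Type) [Field K] [NumberField K] [Algebra F K]
    [Algebra.IsQuadraticExtension F K] [IsTotallyComplex K], ∃ δ : 𝓞 F, Sq K δ ∧
      (∀ σ : F →+* ℂ, (σ δ).re < 0) ∧ (nm δ).natAbs ≤ C * DD K ^ dg F := by
  refine ⟨(4 ^ (2 * dg F + 3)) ^ dg F, fun K _ _ _ _ _ => ?_⟩
  have := IsCMField.ofCMExtension F K
  let e := CMExtension.equivMaximalRealSubfield F K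
  have hn : Module.finrank ℚ (maximalRealSubfield K) = dg F :=
    (AlgEquiv.ofRingEquiv (R := ℚ) (f := e) fun _ => by simp).toLinearEquiv.finrank_eq.symm
  obtain ⟨w, de, -, h1, h2, -, h3, h4⟩ := RP24.prim K
  obtain ⟨δ, rfl⟩ := (RingOfIntegers.mapRingEquiv e).surjective de
  refine ⟨δ, ⟨w, AlgEquiv.ofRingEquiv (f := (IsCMField.complexConj K).toRingEquiv)
    (fun x => IsCMField.complexConj_apply_eq_self K (e x)), ?_, h1⟩, fun σ => ?_, ?_⟩
  · rw [← h2]
    rfl
  · have := h3 (σ.comp e.symm.toRingHom)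
    rw [RingOfIntegers.mapRingEquiv_apply] at this
    simpa using this
  · have e1 : Algebra.norm ℤ (RingOfIntegers.mapRingEquiv e δ) = nm δ :=
      Algebra.norm_eq_of_algEquiv (AlgEquiv.ofRingEquiv (R := ℤ)
        (f := RingOfIntegers.mapRingEquiv e) fun _ => by simp) δ
    rw [e1, RP24.finrank_eq, hn, mul_pow] at h4
    have e2 : |(discr K : ℝ)| = (DD K : ℝ) := by simp [DD, Nat.cast_natAbs]
    rw [e2] at h4
    exact_mod_cast h4

theorem res_le : ∃ C : ℝ, 0 < C ∧ ∀ (K : Type) [Field K] [NumberField K] [Algebra F K]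
    [Algebra.IsQuadraticExtension F K] [IsTotallyComplex K],
      dedekindZeta_residue K ≤ C * classNumber K / Real.sqrt (DD K) := by
  have d0 : 0 < Real.sqrt |(discr F : ℝ)| :=
    Real.sqrt_pos_of_pos (abs_pos.2 (Int.cast_ne_zero.2 (discr_ne_zero F)))
  have r0 := dedekindZeta_residue_pos F
  have hpi := Real.pi_pos
  refine ⟨(2 * Real.pi) ^ dg F * Real.sqrt |(discr F : ℝ)| * dedekindZeta_residue F,
    by positivity, fun K _ _ _ _ _ => ?_⟩
  have := IsCMField.ofCMExtension F K
  let e := CMExtension.equivMaximalRealSubfield F K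
  have hn : Module.finrank ℚ (maximalRealSubfield K) = dg F :=
    (AlgEquiv.ofRingEquiv (R := ℚ) (f := e) fun _ => by simp).toLinearEquiv.finrank_eq.symm
  have h := RP24.res_ratio K
  have e2 : |(discr K : ℝ)| = (DD K : ℝ) := by simp [DD, Nat.cast_natAbs]
  rw [hn, ← discr_eq_discr_of_ringEquiv F e, ← residue_congr_prim e, e2] at h
  rw [le_div_iff₀ (Real.sqrt_pos_of_pos (by exact_mod_cast DD_pos K))]
  linarith

end Pool.Agent.MP_48b1c3_nt.H99
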