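import Pool.Agent.MP_48b1c3_nt.H99.Defs

/-! The theorem of Siegel for an arbitrary set of real characters. -/

namespace Pool.Agent.MP_48b1c3_nt.H99

open Finset NumberField H54 H91 Filter UniqueFactorizationMonoid
open scoped Classical ComplexOrder Topology

variable {F : Type} [Field F] [NumberField F]

theorem move_sieg {Q M : ℕ} (hQ : 0 < Q) (hM : 0 < M) {I : Ideal (𝓞 F)} (h0 : I ≠ ⊥)
    (hI : Cop Q I) : ∃ J, J ≠ ⊥ ∧ Cop M J ∧ ∀ f : Ideal (𝓞 F) → ℂ, PF Q f → f I = f J := by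
  have pos : ∀ {I : Ideal (𝓞 F)}, I ≠ ⊥ → 0 < Ideal.absNorm I := fun h =>
    Nat.pos_of_ne_zero fun g => h (Ideal.absNorm_eq_zero_iff.1 g)
  obtain ⟨t, c, t0, hc, ht⟩ := exists_cop (pos h0) h0
  have c0 : c ≠ ⊥ := right_ne_zero_of_mul (ht ▸ mt Ideal.span_singleton_eq_bot.1 t0)
  have n0 : 0 < Q * Ideal.absNorm c := mul_pos hQ (pos c0)
  have h1 : Cop (Q * Ideal.absNorm c) I :=
    cop_iff.2 ((cop_iff.1 hI).mul_right (cop_iff.1 hc).symm)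
  obtain ⟨a, E, e1, e2, e3⟩ := exists_shift c0 (mt Ideal.span_singleton_eq_bot.1
    (Nat.cast_ne_zero.2 n0.ne')) (ht.trans (mul_comm _ _)) h1 hM
  have n1 := mul_pos n0 hM
  obtain ⟨τ, h5⟩ := norm_large a (t * (Q * Ideal.absNorm c * M : ℕ))
    (by rw [nm_mul]; exact mul_ne_zero (nm_ne t0) (norm_nat_pos n1).ne')
  rw [nm_mul, mul_right_comm, mul_pos_iff_of_pos_right (norm_nat_pos n1)] at h5
  have m0 : ((Q * Ideal.absNorm c : ℕ) : 𝓞 F) ∣ (τ : 𝓞 F) * (t * (Q * Ideal.absNorm c * M : ℕ)) :=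
    ((Nat.cast_dvd_cast (dvd_mul_right _ _)).mul_left _).mul_left _
  have m1 : (τ : 𝓞 F) * (t * (Q * Ideal.absNorm c * M : ℕ)) ∈ c * Ideal.span {(M : 𝓞 F)} :=
    Ideal.mul_mem_left _ _ (Ideal.mul_mem_mul (dec_mem ht.symm)
      (Ideal.mem_span_singleton.2 (Nat.cast_dvd_cast (dvd_mul_left _ _))))
  generalize (τ : 𝓞 F) * (t * (Q * Ideal.absNorm c * M : ℕ)) = z at h5 m0 m1
  obtain ⟨J, h6⟩ := dec_ex (b := c) (α := a + z) (c.add_mem (dec_mem (by rw [e2, mul_comm]))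
    (Ideal.mul_le_left m1))
  refine ⟨J, left_ne_zero_of_mul (h6 ▸ mt Ideal.span_singleton_eq_bot.1 (ne_of_nm h5).2),
    mul_left_cancel₀ (a := c) c0 (le_antisymm (Ideal.mul_mono_right le_top) ?_),
    fun f hf => hf.per I J c t (a + z) ht.symm h6 ?_ h5⟩
  · rw [← e3, Ideal.mul_sup, Ideal.mul_sup, ← e2, mul_comm c J, h6]
    refine sup_le ((Ideal.span_singleton_le_iff_mem _).2 ?_) le_sup_right
    rw [← add_sub_cancel_right a z]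
    exact sub_mem (Ideal.mem_sup_left (by simp)) (Ideal.mem_sup_right m1)
  · rw [show t - (a + z) = -((a - t) + z) by ring, dvd_neg]
    exact (Ideal.mem_span_singleton.1 (Ideal.mul_le_right e1)).add m0

theorem hc_ext {q q' M : ℕ} {χ χ' : Ideal (𝓞 F) → ℂ} (h : HC q χ) (h' : HC q' χ') (hM : 0 < M)
    (he : ∀ I, I ≠ ⊥ → Cop M I → χ I = χ' I) {I : Ideal (𝓞 F)} (h0 : I ≠ ⊥)
    (hI : Cop (q * q') I) : χ I = χ' I := by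
  have hQ := mul_pos h.pos h'.pos
  obtain ⟨J, j0, j1, j2⟩ := move_sieg hQ hM h0 hI
  rw [j2 χ (h.toPF.mono (dvd_mul_right _ _) hQ), j2 χ' (h'.toPF.mono (dvd_mul_left _ _) hQ),
    he J j0 j1]

theorem real_sieg {x y : ℂ} (hx : ‖x‖ ≤ 1) (hy : ‖y‖ ≤ 1) (x0 : x.im = 0) (y0 : y.im = 0)
    (h : x * y = 1) : x = y := by
  have h1 := congrArg Complex.re h
  rw [Complex.mul_re, x0, zero_mul, sub_zero, Complex.one_re] at h1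
  have h2 := abs_le.1 ((Complex.abs_re_le_norm x).trans hx)
  have h3 := abs_le.1 ((Complex.abs_re_le_norm y).trans hy)
  refine Complex.ext (sub_eq_zero.1 (pow_eq_zero_iff two_ne_zero |>.1 (le_antisymm ?_
    (sq_nonneg _)))) (x0.trans y0.symm)
  nlinarith

theorem siegel_rep (T : Set (ℕ × (Ideal (𝓞 F) → ℂ)))
    (hT : ∀ p ∈ T, HC p.1 p.2 ∧ BB F ∣ p.1 ∧ kap p.2 = 0 ∧ Rl p.2) {ε : ℝ} (hε : 0 < ε) :
    ∃ c : ℝ, 0 < c ∧ ∀ p ∈ T, ∃ p' ∈ T, p'.1 ≤ p.1 ∧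
      (∀ I, I ≠ ⊥ → Cop (p.1 * p'.1) I → p'.2 I = p.2 I) ∧ c / (p'.1 : ℝ) ^ ε ≤ ‖Ent p'.2 1‖ := by
  let C : ℕ × (Ideal (𝓞 F) → ℂ) → Set (ℕ × (Ideal (𝓞 F) → ℂ)) := fun p =>
    {p' ∈ T | ∀ I, I ≠ ⊥ → Cop (p.1 * p'.1) I → p'.2 I = p.2 I}
  let r : Set (ℕ × (Ideal (𝓞 F) → ℂ)) → ℕ × (Ideal (𝓞 F) → ℂ) := fun D =>
    Classical.epsilon fun x => x ∈ D ∧ ∀ y ∈ D, x.1 ≤ y.1
  have h1 : ∀ p ∈ T, p ∈ C p := fun p hp => ⟨hp, fun _ _ _ => rfl⟩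
  have h2 : ∀ p ∈ T, r (C p) ∈ C p ∧ ∀ y ∈ C p, (r (C p)).1 ≤ y.1 := fun p hp =>
    Classical.epsilon_spec (p := fun x => x ∈ C p ∧ ∀ y ∈ C p, x.1 ≤ y.1)
      ⟨_, Function.argminOn_mem Prod.fst _ ⟨p, h1 p hp⟩, fun y hy =>
        Function.argminOn_le Prod.fst _ hy⟩
  have h3 : ∀ p ∈ T, ∀ p' ∈ C p, p ∈ C p' := fun p hp p' h =>
    ⟨hp, fun I h0 hI => (h.2 I h0 (mul_comm p'.1 p.1 ▸ hI)).symm⟩
  have h4 : ∀ p ∈ T, ∀ p' ∈ C p, C p' ⊆ C p := fun p hp p' h x hx =>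
    ⟨hx.1, fun I h0 hI => hc_ext (hT x hx.1).1 (hT p hp).1 (mul_pos (mul_pos (hT p hp).1.pos
      (hT p' h.1).1.pos) (hT x hx.1).1.pos) (fun J j0 hJ => (hx.2 J j0 (hJ.mono
        (Nat.mul_dvd_mul_right (dvd_mul_left _ _) _))).trans
          (h.2 J j0 (hJ.mono (dvd_mul_right _ _)))) h0 (mul_comm p.1 x.1 ▸ hI)⟩
  have h5 : ∀ p ∈ T, ∀ p' ∈ C p, C p' = C p := fun p hp p' h =>
    (h4 p hp p' h).antisymm (h4 p' h.1 p (h3 p hp p' h))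
  have hS : Fam ((fun p => r (C p)) '' T) := by
    refine ⟨?_, ?_⟩
    · rintro _ ⟨p, hp, rfl⟩
      obtain ⟨a, b, c, -⟩ := hT _ (h2 p hp).1.1
      exact ⟨a, b, c⟩
    · rintro _ ⟨p, hp, rfl⟩
      refine (Set.finite_singleton (r (C p))).subset ?_
      rintro _ ⟨⟨p', hp', rfl⟩, hk⟩
      obtain ⟨a, b, -, c⟩ := hT _ (h2 p hp).1.1
      obtain ⟨a', -, -, c'⟩ := hT _ (h2 p' hp').1.1
      have e : r (C p') ∈ C (r (C p)) := ⟨(h2 p' hp').1.1, fun I h0 hI => (real_sieg (a.le I)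
        (a'.le I) (c I h0) (c' I h0) (dichotomy (a.mul' a') (b.mul_right _) hk h0 hI)).symm⟩
      exact congrArg r ((h5 p' hp' _ (h2 p' hp').1).symm.trans
        ((h5 _ (h2 p hp).1.1 _ e).trans (h5 p hp _ (h2 p hp).1)))
  obtain ⟨c, c0, hc⟩ := siegelK hS hε
  exact ⟨c, c0, fun p hp => ⟨_, (h2 p hp).1.1, (h2 p hp).2 p (h1 p hp), (h2 p hp).1.2,
    hc _ ⟨p, hp, rfl⟩ (hT _ (h2 p hp).1.1).2.2.2⟩⟩

end Pool.Agent.MP_48b1c3_nt.H99
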