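import Pool.Agent.MP_48b1c3_nt.H99.QR
import Pool.Agent.MP_48b1c3_nt.H99.Prim
import Pool.Agent.MP_48b1c3_nt.H99.Lim
import Pool.Agent.MP_48b1c3_nt.H99.Sieg
import Pool.Agent.MP_48b1c3_nt.H99.Herm

/-! CM fields of bounded class number. -/

namespace Pool.Agent.MP_48b1c3_nt.H99

open Finset NumberField H54 H91 Filter UniqueFactorizationMonoid
open scoped Classical ComplexOrder Topology

theorem num_bs {n : ℕ} (hn : 0 < n) {A q q' D t C : ℝ} (hA : 1 ≤ A) (hD : 1 ≤ D) (h1 : 1 ≤ q')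
    (h2 : q' ≤ q) (h3 : q ≤ A * D ^ n) (t0 : 0 ≤ t) (hC : 1 ≤ C)
    (h4 : t ≤ C * (q * q') ^ (1 / (32 * (n : ℝ) ^ 2))) :
    t ^ (2 * n) * q' ^ (1 / (8 * (n : ℝ))) ≤ C ^ (2 * n) * A * D ^ (1 / 4 : ℝ) := by
  have n1 : (1 : ℝ) ≤ n := by exact_mod_cast hn
  have q1 : 1 ≤ q := h1.trans h2
  have a1 : t ^ (2 * n) ≤ C ^ (2 * n) * q ^ (1 / (8 * (n : ℝ))) := by
    refine (pow_le_pow_left₀ t0 (h4.trans (mul_le_mul_of_nonneg_left (Real.rpow_le_rpow
      (by positivity) (mul_le_mul_of_nonneg_left h2 (by positivity)) (by positivity))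
      (by positivity))) _).trans (le_of_eq ?_)
    rw [mul_pow, ← sq, ← Real.rpow_natCast q 2, ← Real.rpow_mul (by positivity),
      ← Real.rpow_natCast (q ^ _), ← Real.rpow_mul (by positivity)]
    congr 2
    push_cast
    field_simp
    norm_num
  have a2 : q' ^ (1 / (8 * (n : ℝ))) ≤ q ^ (1 / (8 * (n : ℝ))) :=
    Real.rpow_le_rpow (by positivity) h2 (by positivity)
  have a3 : q ^ (1 / (8 * (n : ℝ))) * q ^ (1 / (8 * (n : ℝ))) ≤ A * D ^ (1 / 4 : ℝ) := by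
    rw [← Real.rpow_add (by positivity)]
    refine (Real.rpow_le_rpow (by positivity) h3 (by positivity)).trans ?_
    rw [Real.mul_rpow (by positivity) (by positivity), ← Real.rpow_natCast,
      ← Real.rpow_mul (by positivity),
      show (n : ℝ) * (1 / (8 * n) + 1 / (8 * n)) = 1 / 4 by field_simp; norm_num]
    refine mul_le_mul_of_nonneg_right ?_ (by positivity)
    refine (Real.rpow_le_rpow_of_exponent_le hA ?_).trans (Real.rpow_one A).le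
    have : 1 / (8 * (n : ℝ)) ≤ 1 / 8 := one_div_le_one_div_of_le (by norm_num) (by linarith)
    linarith
  calc _ ≤ C ^ (2 * n) * q ^ (1 / (8 * (n : ℝ))) * q ^ (1 / (8 * (n : ℝ))) := by gcongr
    _ ≤ _ := by
      rw [mul_assoc, mul_assoc]
      exact mul_le_mul_of_nonneg_left a3 (by positivity)

theorem bs_fix (F : Type) [Field F] [NumberField F] [IsTotallyReal F] (h : ℕ) :
    ∃ D : ℕ, ∀ (K : Type) [Field K] [NumberField K] [Algebra F K]
      [Algebra.IsQuadraticExtension F K] [IsTotallyComplex K], classNumber K ≤ h → DD K ≤ D := by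
  obtain ⟨C₁, h₁⟩ := prim F
  obtain ⟨C₂, c2, h₂⟩ := res_le F
  have hn := dg_pos F
  have n0 : (0 : ℝ) < dg F := by exact_mod_cast hn
  obtain ⟨c, c0, h₃⟩ := siegel_rep
    {p : ℕ × (Ideal (𝓞 F) → ℂ) | HC p.1 p.2 ∧ BB F ∣ p.1 ∧ kap p.2 = 0 ∧ Rl p.2} (fun _ g => g)
    (ε := 1 / (8 * (dg F : ℝ))) (by positivity)
  obtain ⟨C₃, c3, h₄⟩ := tau_le (ε := 1 / (32 * (dg F : ℝ) ^ 2)) (by positivity)
  have ρ0 := dedekindZeta_residue_pos F
  obtain ⟨A, hA⟩ : ∃ A : ℕ, A = 4 * DD F ^ 2 * C₁ * BB F + 1 := ⟨_, rfl⟩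
  have A1 : (1 : ℝ) ≤ A := by rw [hA]; exact_mod_cast Nat.le_add_left 1 _
  obtain ⟨B, hB⟩ : ∃ B : ℝ, B = C₃ ^ (2 * dg F) * A * (C₂ * h) / (dedekindZeta_residue F * c) :=
    ⟨_, rfl⟩
  refine ⟨⌈B ^ 4⌉₊, fun K _ _ _ _ _ hh => ?_⟩
  obtain ⟨δ, d1, d2, d3⟩ := h₁ K
  have δ0 : δ ≠ 0 := by
    rintro rfl
    obtain ⟨σ⟩ : Nonempty (F →+* ℂ) := inferInstance
    simpa using d2 σ
  obtain ⟨q, hq⟩ : ∃ q : ℕ, q = 4 * DD F ^ 2 * (nm δ).natAbs * BB F := ⟨_, rfl⟩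
  have q0 : 0 < q := hq ▸ mul_pos (mul_pos (mul_pos four_pos (pow_pos (DD_pos F) 2))
    (Int.natAbs_pos.2 (nm_ne δ0))) (BB_pos F)
  have q2 : 2 * (nm δ).natAbs ∣ q := ⟨2 * DD F ^ 2 * BB F, by rw [hq]; ring⟩
  obtain ⟨x1, x2⟩ := chi_hc d2 q0 (hq ▸ dvd_mul_right _ _)
  obtain ⟨⟨q', χ⟩, ⟨y1, -, -, y4⟩, y5, y6, y7⟩ := h₃ (q, chi q δ)
    ⟨x1, hq ▸ dvd_mul_left _ _, (L_le d1 x1 x2 q0 q2 fun I _ hI => if_pos hI).1, x2⟩
  have z := (L_le d1 y1 y4 (mul_pos q0 y1.pos) (q2.mul_right q') fun I h0 hI =>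
    (y6 I h0 hI).trans (if_pos (hI.mono (dvd_mul_right _ _)))).2
  have D1 : (1 : ℝ) ≤ DD K := by exact_mod_cast DD_pos K
  have q1 : (1 : ℝ) ≤ q' := by exact_mod_cast y1.pos
  have t0 : 0 ≤ tau (q * q') := Nat.cast_nonneg _
  have a1 := num_bs hn A1 D1 q1 (q := q) (by exact_mod_cast y5) (by
    have : q ≤ A * DD K ^ dg F := by
      rw [hq, hA]
      calc _ ≤ 4 * DD F ^ 2 * (C₁ * DD K ^ dg F) * BB F := by gcongr
        _ = 4 * DD F ^ 2 * C₁ * BB F * DD K ^ dg F := by ring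
        _ ≤ _ := by gcongr; exact Nat.le_succ _
    exact_mod_cast this) t0 c3 (by simpa only [Nat.cast_mul] using h₄ (q * q'))
  have a2 : dedekindZeta_residue K ≤ C₂ * h / Real.sqrt (DD K) :=
    (h₂ K).trans (by gcongr)
  have a3 := ((mul_le_mul_of_nonneg_left y7 ρ0.le).trans z).trans
    (mul_le_mul_of_nonneg_left a2 (pow_nonneg t0 _))
  have e : Real.sqrt (DD K) = (DD K : ℝ) ^ (1 / 4 : ℝ) * (DD K : ℝ) ^ (1 / 4 : ℝ) := by
    rw [← Real.rpow_add (by positivity), Real.sqrt_eq_rpow]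
    norm_num
  have e4 : ((DD K : ℝ) ^ (1 / 4 : ℝ)) ^ 4 = DD K := by
    rw [← Real.rpow_natCast, ← Real.rpow_mul (by positivity)]
    norm_num
  have u0 : 0 < (DD K : ℝ) ^ (1 / 4 : ℝ) := by positivity
  have v0 : 0 < (q' : ℝ) ^ (1 / (8 * (dg F : ℝ))) := by positivity
  rw [e] at a3
  generalize (DD K : ℝ) ^ (1 / 4 : ℝ) = u at a1 a3 e4 u0
  have a4 : u ≤ B := by
    rw [hB, le_div_iff₀ (by positivity)]
    rw [← mul_div_assoc, ← mul_div_assoc, div_le_div_iff₀ v0 (by positivity)] at a3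
    have a5 := mul_le_mul_of_nonneg_right a1 (show 0 ≤ C₂ * h by positivity)
    refine le_of_mul_le_mul_right ?_ u0
    nlinarith only [a3, a5]
  have a6 : (DD K : ℝ) ≤ B ^ 4 := e4 ▸ pow_le_pow_left₀ u0.le a4 4
  exact_mod_cast a6.trans (Nat.le_ceil _)

theorem bs (h D₁ : ℕ) : ∃ D : ℕ, ∀ (K : Type) [Field K] [NumberField K], IsCMField K →
    classNumber K ≤ h → (discr (maximalRealSubfield K)).natAbs ≤ D₁ → (discr K).natAbs ≤ D := by
  obtain ⟨S, hS⟩ := herm D₁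
  have H : ∀ F : {F : IntermediateField ℚ (AlgebraicClosure ℚ) // FiniteDimensional ℚ F},
      ∃ D : ℕ, ∀ (K : Type) [Field K] [NumberField K], IsCMField K → classNumber K ≤ h →
        Nonempty (maximalRealSubfield K ≃+* F.1) → (discr K).natAbs ≤ D := fun F => by
    have : NumberField F.1 := @NumberField.mk _ _ inferInstance F.2
    by_cases hF : IsTotallyReal F.1
    · obtain ⟨D, hD⟩ := bs_fix F.1 h
      refine ⟨D, fun K _ _ _ hh ⟨e⟩ => ?_⟩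
      let _ : Algebra F.1 K :=
        ((algebraMap (maximalRealSubfield K) K).comp e.symm.toRingHom).toAlgebra
      have : Algebra.IsQuadraticExtension F.1 K :=
        { finrank_eq_two' := (Algebra.finrank_eq_of_equiv_equiv e.symm (RingEquiv.refl K)
            (RingHom.ext fun _ => rfl)).trans
            (Algebra.IsQuadraticExtension.finrank_eq_two (maximalRealSubfield K) K) }
      exact hD K hh
    · exact ⟨0, fun K _ _ _ _ ⟨e⟩ => (hF (IsTotallyReal.ofRingEquiv e)).elim⟩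
  choose D hD using H
  refine ⟨S.sup D, fun K _ _ h1 h2 h3 => ?_⟩
  obtain ⟨F, f1, f2⟩ := hS _ h3
  exact (hD F K h1 h2 f2).trans (le_sup f1)

end Pool.Agent.MP_48b1c3_nt.H99
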