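import Pool.Agent.MP_48b1c3_nt.H99.JacA

/-! Multiplicativity and periodicity of Gauss sums. -/

namespace Pool.Agent.MP_48b1c3_nt.H99

open Finset NumberField H54 H91 Filter UniqueFactorizationMonoid
open scoped Classical ComplexOrder Topology

variable {F : Type} [Field F] [NumberField F]

theorem et_crt {x y : F} (z : 𝓞 F) (h : x = y + z) : et x = et y := by
  rw [h, et_add, et_int, mul_one]

theorem gs_crt {α W : 𝓞 F} (h1 : α ≠ 0) (h2 : W ≠ 0) (h : IsCoprime α W) :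
    gs 1 (α * W) = gs W α * gs α W := by
  have a0 : (α : F) ≠ 0 := by exact_mod_cast h1
  have w0 : (W : F) ≠ 0 := by exact_mod_cast h2
  have nb : ∀ {b : 𝓞 F}, b ≠ 0 → Ideal.span {b} ≠ ⊥ := fun g => by simpa using g
  have := (Ideal.span {α}).finiteQuotientOfFreeOfNeBot (nb h1)
  have := (Ideal.span {W}).finiteQuotientOfFreeOfNeBot (nb h2)
  let _ := Fintype.ofFinite (𝓞 F ⧸ Ideal.span {α})
  let _ := Fintype.ofFinite (𝓞 F ⧸ Ideal.span {W})
  have hf : ∀ x : 𝓞 F, ∀ l ∈ Ideal.span {α * W},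
      et (((1 : 𝓞 F) : F) * ((x + l : 𝓞 F) : F) ^ 2 / ((α * W : 𝓞 F) : F)) =
        et (((1 : 𝓞 F) : F) * (x : F) ^ 2 / ((α * W : 𝓞 F) : F)) := fun x l hl => by
    obtain ⟨c, rfl⟩ := Ideal.mem_span_singleton'.1 hl
    refine et_crt (2 * x * c + c ^ 2 * (α * W)) ?_
    simp only [map_add, map_mul, map_pow, map_one, map_ofNat]
    field_simp
    ring
  rw [gs, gs, gs, cls_ja (nb (mul_ne_zero h1 h2))
      (f := fun x : 𝓞 F => et (((1 : 𝓞 F) : F) * (x : F) ^ 2 / ((α * W : 𝓞 F) : F))) hf,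
    cls_param (fun x _ l hl => hf x l hl) le_top univ
      (fun u : (𝓞 F ⧸ Ideal.span {α}) × (𝓞 F ⧸ Ideal.span {W}) => W * u.1.out + α * u.2.out)
      (fun _ _ => trivial) (fun u _ v _ g => ?_) fun x _ => ?_,
    finsum_eq_sum_of_fintype, finsum_eq_sum_of_fintype, sum_mul_sum, Fintype.sum_prod_type]
  · refine sum_congr rfl fun u _ => sum_congr rfl fun v _ => ?_
    rw [← et_add]
    refine et_crt (2 * u.out * v.out) ?_
    simp only [map_add, map_mul, map_one, map_ofNat]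
    field_simp
    ring
  · obtain ⟨c, hc⟩ := Ideal.mem_span_singleton'.1
      (show W * u.1.out + α * u.2.out - (W * v.1.out + α * v.2.out) ∈ Ideal.span {α * W} from g)
    refine Prod.ext (inj_ja (Ideal.mem_span_singleton.2 (h.dvd_of_dvd_mul_left
      ⟨c * W - (u.2.out - v.2.out), ?_⟩))) (inj_ja (Ideal.mem_span_singleton.2
        (h.symm.dvd_of_dvd_mul_left ⟨c * α - (u.1.out - v.1.out), ?_⟩)))
    · linear_combination -hc
    · linear_combination -hc
  · obtain ⟨a, b, e⟩ := h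
    obtain ⟨c, hc⟩ := Ideal.mem_span_singleton'.1 (out_ja (Ideal.span {α}) (x * b))
    obtain ⟨d, hd⟩ := Ideal.mem_span_singleton'.1 (out_ja (Ideal.span {W}) (x * a))
    refine ⟨(Ideal.Quotient.mk _ (x * b), Ideal.Quotient.mk _ (x * a)), mem_univ _, ?_⟩
    refine Ideal.mem_span_singleton'.2 ⟨c + d, ?_⟩
    linear_combination W * hc + α * hd + x * e

theorem gs_per {α α' W : 𝓞 F} (h2 : W ≠ 0) (h : W ∣ α - α') : gs α W = gs α' W := by
  have w0 : (W : F) ≠ 0 := by exact_mod_cast h2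
  obtain ⟨c, hc⟩ := h
  obtain rfl : α = α' + W * c := by linear_combination hc
  refine finsum_congr fun u => et_crt (c * u.out ^ 2) ?_
  simp only [map_add, map_mul, map_pow]
  field_simp

omit [NumberField F] in
theorem re_crt [IsTotallyReal F] (σ : F →+* ℂ) (x : F) : ((σ x).re : ℂ) = σ x :=
  Complex.conj_eq_iff_re.1 (RingHom.congr_fun (IsTotallyReal.complexEmbedding_isReal σ) x)

theorem ph_neg [IsTotallyReal F] {c δ : F} (hc : c ≠ 0) (hδ : ∀ σ : F →+* ℂ, (σ δ).re < 0) :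
    ph (c * δ) * ph c = 1 := by
  rw [ph, ph, ← prod_mul_distrib]
  refine prod_eq_one fun σ _ => ?_
  have h1 : (σ (c * δ)).re = (σ c).re * (σ δ).re := by
    rw [map_mul, ← re_crt σ c, Complex.re_ofReal_mul, Complex.ofReal_re]
  have h2 : (σ c).re ≠ 0 := fun g => hc (σ.injective (by rw [← re_crt σ c, g, map_zero]; rfl))
  have h3 : ec (1 / 8) * ec (-1 / 8) = 1 := by
    rw [← ec_add, ← ec_int 0]
    norm_num
  rw [h1, e8, e8]
  rcases h2.lt_or_gt with g | g
  · rw [if_pos (mul_pos_of_neg_of_neg g (hδ σ)), if_neg g.not_gt, h3]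
  · rw [if_neg (mul_neg_of_pos_of_neg g (hδ σ)).not_gt, if_pos g, mul_comm, h3]

theorem e8_crt (t : ℝ) : e8 t ^ 2 * (|t| : ℝ) = ec (1 / 4) * t := by
  rw [e8]
  split_ifs with h
  · rw [abs_of_pos h, sq, ← ec_add]
    norm_num
  · have h1 : ec (1 / 2) = -1 := by
      rw [ec, ← Complex.exp_pi_mul_I]
      congr 1
      push_cast
      ring
    rw [abs_of_nonpos (not_lt.1 h), sq, ← ec_add,
      show (1 / 4 : ℝ) = -1 / 8 + -1 / 8 + 1 / 2 by norm_num, ec_add _ (1 / 2), h1]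
    push_cast
    ring

theorem nm_crt [IsTotallyReal F] (α : 𝓞 F) : ∏ σ : F →+* ℂ, (σ α).re = nm α := by
  have h1 := Algebra.norm_eq_prod_embeddings ℚ ℂ (α : F)
  rw [← Algebra.coe_norm_int] at h1
  apply Complex.ofReal_injective
  rw [Complex.ofReal_prod]
  simp only [re_crt]
  rw [Fintype.prod_equiv (RingHom.equivRatAlgHom F ℂ) (fun σ : F →+* ℂ => σ α) (fun σ => σ α)
    fun _ => rfl, ← h1]
  simp [nm]

theorem ph_sq [IsTotallyReal F] {α α' : 𝓞 F} (h : 0 < nm α * nm α') :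
    ph (α : F) ^ 2 = ph (α' : F) ^ 2 := by
  have key : ∀ β : 𝓞 F, ph (β : F) ^ 2 * (|(nm β : ℝ)| : ℝ) =
      (∏ _σ : F →+* ℂ, ec (1 / 4)) * (nm β : ℝ) := fun β => by
    rw [ph, ← nm_crt, abs_prod, Complex.ofReal_prod, Complex.ofReal_prod, ← prod_pow,
      ← prod_mul_distrib, ← prod_mul_distrib]
    exact prod_congr rfl fun σ _ => e8_crt _
  have k1 := key α
  have k2 := key α'
  have h' : (0 : ℝ) < nm α * nm α' := by exact_mod_cast h
  rcases mul_pos_iff.1 h' with ⟨g1, g2⟩ | ⟨g1, g2⟩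
  · rw [abs_of_pos g1] at k1
    rw [abs_of_pos g2] at k2
    rw [mul_right_cancel₀ (by exact_mod_cast g1.ne') k1,
      mul_right_cancel₀ (by exact_mod_cast g2.ne') k2]
  · rw [abs_of_neg g1, Complex.ofReal_neg, mul_neg, ← neg_mul] at k1
    rw [abs_of_neg g2, Complex.ofReal_neg, mul_neg, ← neg_mul] at k2
    exact neg_injective ((mul_right_cancel₀ (by exact_mod_cast g1.ne) k1).trans
      (mul_right_cancel₀ (by exact_mod_cast g2.ne) k2).symm)

end Pool.Agent.MP_48b1c3_nt.H99
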