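import Pool.Agent.MP_48b1c3_nt.Mg.H91_Suff

/-! Definitions for quadratic reciprocity in totally real fields and the class numbers of CM
fields. -/

namespace Pool.Agent.MP_48b1c3_nt.H99

open Finset NumberField H54 H91 Filter UniqueFactorizationMonoid
open scoped Classical

/-- sum of `f` over the classes of `G` modulo `N` -/
noncomputable def cls {V : Type} [AddCommGroup V] (G N : AddSubgroup V) (f : V → ℂ) : ℂ :=
  ∑ᶠ c ∈ (G.map (QuotientAddGroup.mk' N) : Set (V ⧸ N)), f c.out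

/-- the eighth roots of unity attached to a sign -/
noncomputable def e8 (t : ℝ) : ℂ := if 0 < t then ec (1 / 8) else ec (-1 / 8)

variable {F : Type} [Field F] [NumberField F]

/-- `exp (2 π i Tr x)` -/
noncomputable def et (x : F) : ℂ := ec ((Algebra.trace ℚ F x : ℚ) : ℝ)

/-- Hecke's Gauss sums -/
noncomputable def gs (a b : 𝓞 F) : ℂ :=
  ∑ᶠ u : 𝓞 F ⧸ Ideal.span {b}, et ((a : F) * ((u.out : 𝓞 F) : F) ^ 2 / (b : F))

/-- the phase given by the signature -/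
noncomputable def ph (c : F) : ℂ := ∏ σ : F →+* ℂ, e8 (σ c).re

/-- the Legendre symbol -/
noncomputable def leg (δ : 𝓞 F) (P : Ideal (𝓞 F)) : ℤ :=
  if δ ∈ P then 0 else if IsSquare (Ideal.Quotient.mk P δ) then 1 else -1

/-- the Jacobi symbol -/
noncomputable def jac (δ : 𝓞 F) (I : Ideal (𝓞 F)) : ℤ :=
  ((normalizedFactors I).map (leg δ)).prod

/-- the quadratic character modulo `q` -/
noncomputable def chi (q : ℕ) (δ : 𝓞 F) (I : Ideal (𝓞 F)) : ℂ :=
  if Cop q I then (jac δ I : ℂ) else 0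

/-- `K = F (w)` with `w ^ 2 = δ` -/
def Sq (K : Type) [Field K] [NumberField K] [Algebra F K] (δ : 𝓞 F) : Prop :=
  ∃ (w : 𝓞 K) (τ : K ≃ₐ[F] K), w ^ 2 = algebraMap (𝓞 F) (𝓞 K) δ ∧ τ w = -w

theorem ec_eq_one {t : ℝ} (h : ec t = 1) : ∃ k : ℤ, t = k := by
  obtain ⟨k, hk⟩ := Complex.exp_eq_one_iff.1 h
  refine ⟨k, ?_⟩
  rw [mul_comm] at hk
  exact_mod_cast mul_right_cancel₀ Complex.two_pi_I_ne_zero hk

theorem norm_ec (t : ℝ) : ‖ec t‖ = 1 := by
  rw [ec, show 2 * (Real.pi : ℂ) * Complex.I * t = ((2 * Real.pi * t : ℝ) : ℂ) * Complex.I by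
    push_cast; ring, Complex.norm_exp_ofReal_mul_I]

theorem et_add (x y : F) : et (x + y) = et x * et y := by
  rw [et, et, et, map_add, Rat.cast_add, ec_add]

theorem et_int (x : 𝓞 F) : et (x : F) = 1 := by
  rw [et, show (x : F) = algebraMap (𝓞 F) F x from rfl, ← Algebra.coe_trace_int, Rat.cast_intCast,
    ec_int]

theorem jac_top (δ : 𝓞 F) : jac δ ⊤ = 1 := by
  rw [jac, ← Ideal.one_eq_top, normalizedFactors_one]
  rfl

theorem jac_mul (δ : 𝓞 F) {I J : Ideal (𝓞 F)} (hI : I ≠ ⊥) (hJ : J ≠ ⊥) :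
    jac δ (I * J) = jac δ I * jac δ J := by
  rw [jac, normalizedFactors_mul hI hJ, Multiset.map_add, Multiset.prod_add, jac, jac]

theorem jac_prime (δ : 𝓞 F) {P : Ideal (𝓞 F)} (hP : Prime P) : jac δ P = leg δ P := by
  rw [jac, normalizedFactors_irreducible hP.irreducible, normalize_eq]
  simp

theorem jac_pow (δ : 𝓞 F) {I : Ideal (𝓞 F)} (hI : I ≠ ⊥) (k : ℕ) :
    jac δ (I ^ k) = jac δ I ^ k := by
  induction k with
  | zero => rw [pow_zero, pow_zero, Ideal.one_eq_top, jac_top]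
  | succ k ih => rw [pow_succ, jac_mul δ (pow_ne_zero k hI) hI, ih, pow_succ]

theorem jac_sq (δ : 𝓞 F) {I : Ideal (𝓞 F)} (hI : I ≠ ⊥) (h : I ⊔ Ideal.span {δ} = ⊤) :
    jac δ I = 1 ∨ jac δ I = -1 := by
  rw [jac]
  refine Multiset.prod_induction (fun x : ℤ => x = 1 ∨ x = -1) _
    (by rintro _ _ (rfl | rfl) (rfl | rfl) <;> simp) (Or.inl rfl) fun x hx => ?_
  obtain ⟨P, h1, rfl⟩ := Multiset.mem_map.1 hx
  obtain ⟨h2, h3⟩ := (Ideal.mem_normalizedFactors_iff hI).1 h1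
  rw [leg, if_neg fun g => h2.ne_top (top_le_iff.1 (h ▸ sup_le h3
    ((Ideal.span_singleton_le_iff_mem _).2 g)))]
  split_ifs
  exacts [Or.inl rfl, Or.inr rfl]

end Pool.Agent.MP_48b1c3_nt.H99
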