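import Pool.Agent.MP_48b1c3_nt.H99.Defs

/-! Diagonal form of a trace form and the dual lattice. -/

namespace Pool.Agent.MP_48b1c3_nt.H99

open Finset NumberField H54 H91 Filter UniqueFactorizationMonoid
open scoped Classical ComplexOrder Topology

variable {F : Type} [Field F] [NumberField F]

theorem syl_diag {ι κ : Type} [Fintype ι] [Fintype κ] (M : ι → κ → ℝ) (w : κ → ℝ) (a : ι → ℝ)
    (h : ∀ i j, ∑ k, M i k * M j k * w k = if i = j then a i else 0) :
    #{i | 0 < a i} ≤ #{k | 0 < w k} := by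
  let L : ({i // 0 < a i} → ℝ) →ₗ[ℝ] ({k // 0 < w k} → ℝ) :=
    Matrix.toLin' (Matrix.of fun k i => M i.1 k.1)
  have hL : Function.Injective L := by
    refine (injective_iff_map_eq_zero L).2 fun x hx => ?_
    have h1 : ∑ k, (∑ i : {i // 0 < a i}, M i.1 k * x i) ^ 2 * w k = ∑ i, x i ^ 2 * a i.1 := by
      simp only [sq, sum_mul_sum]
      simp only [sum_mul]
      rw [sum_comm]
      refine sum_congr rfl fun i _ => ?_
      rw [sum_comm, sum_eq_single i]
      · have h2 := h i.1 i.1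
        rw [if_pos rfl] at h2
        rw [← h2, mul_sum]
        exact sum_congr rfl fun k _ => by ring
      · intro j _ hj
        have h2 := h i.1 j.1
        rw [if_neg fun g => hj (Subtype.ext g).symm] at h2
        refine Eq.trans ?_ ((congrArg (x i * x j * ·) h2).trans (mul_zero _))
        rw [mul_sum]
        exact sum_congr rfl fun k _ => by ring
      · simp
    have h3 : ∑ k, (∑ i : {i // 0 < a i}, M i.1 k * x i) ^ 2 * w k ≤ 0 := by
      refine sum_nonpos fun k _ => ?_
      by_cases hk : 0 < w k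
      · have h4 : ∑ i : {i // 0 < a i}, M i.1 k * x i = 0 := congrFun hx ⟨k, hk⟩
        rw [h4, zero_pow two_ne_zero, zero_mul]
      · exact mul_nonpos_of_nonneg_of_nonpos (sq_nonneg _) (not_lt.1 hk)
    have h5 : ∀ i ∈ (univ : Finset {i // 0 < a i}), 0 ≤ x i ^ 2 * a i.1 := fun i _ =>
      mul_nonneg (sq_nonneg _) i.2.le
    rw [h1] at h3
    funext i
    have h6 := (sum_eq_zero_iff_of_nonneg h5).1 (le_antisymm h3 (sum_nonneg h5)) i (mem_univ i)
    exact pow_eq_zero_iff two_ne_zero |>.1 ((mul_eq_zero.1 h6).resolve_right i.2.ne')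
  have h7 := LinearMap.finrank_le_finrank_of_injective hL
  rwa [Module.finrank_fintype_fun_eq_card, Module.finrank_fintype_fun_eq_card,
    Fintype.card_subtype, Fintype.card_subtype] at h7

theorem prod_diag {ι κ : Type} [Fintype ι] [Fintype κ] (hc : Fintype.card ι = Fintype.card κ)
    (M : ι → κ → ℝ) (w : κ → ℝ) (a : ι → ℝ) (ha : ∀ i, a i ≠ 0) (hw : ∀ k, w k ≠ 0)
    (h : ∀ i j, ∑ k, M i k * M j k * w k = if i = j then a i else 0) :
    ∏ i, e8 (a i) = ∏ k, e8 (w k) := by
  have h1 := syl_diag M w a h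
  have h2 := syl_diag M (fun k => -w k) (fun i => -a i) fun i j => by
    simp only [mul_neg, sum_neg_distrib, h]
    split_ifs <;> simp
  have h3 : ∀ t : ℝ, t ≠ 0 → (0 < -t ↔ ¬ 0 < t) := fun t ht => by
    rw [neg_pos, not_lt, ht.le_iff_lt]
  rw [filter_congr fun i _ => h3 _ (ha i), filter_congr fun k _ => h3 _ (hw k)] at h2
  have h5 := card_filter_add_card_filter_not (s := (univ : Finset ι)) fun i => 0 < a i
  have h6 := card_filter_add_card_filter_not (s := (univ : Finset κ)) fun k => 0 < w k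
  rw [card_univ] at h5 h6
  simp only [e8]
  rw [prod_ite, prod_ite, prod_const, prod_const, prod_const, prod_const,
    show #{i | 0 < a i} = #{k | 0 < w k} by omega,
    show #{i | ¬ 0 < a i} = #{k | ¬ 0 < w k} by omega]

theorem tr_diag (x : F) : ((Algebra.trace ℚ F x : ℚ) : ℝ) = ∑ σ : F →+* ℂ, (σ x).re := by
  have h := trace_eq_sum_embeddings ℂ (K := ℚ) (L := F) (x := x)
  rw [← Fintype.sum_equiv (RingHom.equivRatAlgHom F ℂ) (fun σ => σ x) (fun σ => σ x)
    fun _ => by simp [RingHom.equivRatAlgHom_apply]] at h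
  rw [← Complex.re_sum, ← h]
  simp

theorem diag [IsTotallyReal F] {c : F} (hc : c ≠ 0) :
    ∃ (e : Module.Basis (Fin (dg F)) ℚ F) (a : Fin (dg F) → ℤ), (∀ i, a i ≠ 0) ∧
      (∀ i j, Algebra.trace ℚ F (e i * e j / c) = if i = j then (a i : ℚ) else 0) ∧
      ∏ i, e8 (a i) = ph c := by
  let B : LinearMap.BilinForm ℚ F := (Algebra.traceForm ℚ F).compRight (LinearMap.mulRight ℚ c⁻¹)
  have hB : ∀ x y, B x y = Algebra.trace ℚ F (x * y / c) := fun x y => by
    simp [B, div_eq_mul_inv, mul_assoc]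
  obtain ⟨v, hv⟩ := LinearMap.BilinForm.exists_orthogonal_basis (B := B)
    ⟨fun x y => by simp [hB, mul_comm]⟩
  have h0 : ∀ i j, i ≠ j → Algebra.trace ℚ F (v i * v j / c) = 0 := fun i j hij => by
    rw [← hB]
    exact LinearMap.isOrthoᵢ_def.1 hv i j hij
  have h1 : ∀ i, Algebra.trace ℚ F (v i * v i / c) ≠ 0 := fun i g => by
    have h2 : Algebra.traceForm ℚ F (v i / c) = 0 := v.ext fun j => by
      rw [Algebra.traceForm_apply, div_mul_eq_mul_div]
      by_cases hij : i = j
      · exact hij ▸ g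
      · exact h0 i j hij
    have h3 := (traceForm_nondegenerate ℚ F).1 (v i / c) fun y => by rw [h2]; rfl
    exact div_ne_zero (v.ne_zero i) hc h3
  let r : Fin (dg F) → ℚ := fun i => Algebra.trace ℚ F (v i * v i / c)
  have hu : ∀ i, IsUnit ((r i).den : ℚ) := fun i => (Nat.cast_ne_zero.2 (r i).den_nz).isUnit
  have h4 : ∀ i j, Algebra.trace ℚ F (v.isUnitSMul hu i * v.isUnitSMul hu j / c) =
      if i = j then (((r i).den * (r i).num : ℤ) : ℚ) else 0 := fun i j => by
    rw [Module.Basis.isUnitSMul_apply, Module.Basis.isUnitSMul_apply, smul_mul_smul_comm,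
      smul_div_assoc, map_smul, smul_eq_mul]
    split_ifs with hij
    · subst hij
      push_cast
      rw [mul_assoc, Rat.den_mul_eq_num]
    · rw [h0 i j hij, mul_zero]
  have h5 : ∀ i, (((r i).den * (r i).num : ℤ)) ≠ 0 := fun i =>
    mul_ne_zero (Int.natCast_ne_zero.2 (r i).den_nz) (Rat.num_ne_zero.2 (h1 i))
  refine ⟨v.isUnitSMul hu, fun i => (r i).den * (r i).num, h5, h4, ?_⟩
  have him : ∀ (σ : F →+* ℂ) (x : F), σ x = ((σ x).re : ℂ) := fun σ x =>
    (Complex.conj_eq_iff_re.1 (DFunLike.congr_fun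
      (IsTotallyReal.complexEmbedding_isReal σ) x)).symm
  have h6 : ∀ σ : F →+* ℂ, (σ c).re ≠ 0 := fun σ g => by
    have h7 := him σ c
    rw [g, Complex.ofReal_zero] at h7
    exact (map_ne_zero σ).2 hc h7
  rw [prod_diag (by rw [Fintype.card_fin, Embeddings.card F ℂ])
    (fun i (σ : F →+* ℂ) => (σ (v.isUnitSMul hu i)).re) (fun σ => ((σ c).re)⁻¹) _
    (fun i => Int.cast_ne_zero.2 (h5 i)) (fun σ => inv_ne_zero (h6 σ)) fun i j => ?_, ph]
  · exact prod_congr rfl fun σ _ => by simp only [e8, inv_pos]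
  · have h8 := congrArg (Rat.cast : ℚ → ℝ) (h4 i j)
    rw [tr_diag, apply_ite (Rat.cast : ℚ → ℝ), Rat.cast_intCast, Rat.cast_zero] at h8
    refine Eq.trans (sum_congr rfl fun σ _ => ?_) (h8.trans (by congr))
    rw [map_div₀, map_mul, him σ c, him σ (v.isUnitSMul hu i), him σ (v.isUnitSMul hu j)]
    norm_cast

theorem dual_int {x : F} (h : ∀ y : 𝓞 F, et (x * y) = 1) : ∃ z : 𝓞 F, (z : F) = DD F * x := by
  obtain ⟨β, hβ⟩ := exists_dual F
  choose t ht using fun i => ec_eq_one (h (RingOfIntegers.basis F i))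
  refine ⟨β t, sub_eq_zero.1 ((traceForm_nondegenerate ℚ F).1 _ fun y => ?_)⟩
  have h2 : Algebra.traceForm ℚ F ((β t : F) - DD F * x) = 0 := (integralBasis F).ext fun i => by
    have h3 := hβ t (Pi.single i 1)
    have h4 : el F (Pi.single i 1) = RingOfIntegers.basis F i := by
      simp [el, Pi.single_apply]
    have h5 : Algebra.trace ℚ F (x * RingOfIntegers.basis F i) = t i := by exact_mod_cast ht i
    have h6 := Algebra.coe_trace_int (β t * RingOfIntegers.basis F i)
    rw [h4] at h3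
    rw [h3, RingOfIntegers.coe_eq_algebraMap, map_mul] at h6
    rw [Algebra.traceForm_apply, integralBasis_apply, sub_mul, map_sub, ← h6, mul_assoc,
      ← nsmul_eq_mul (DD F) (_ : F), map_nsmul, h5]
    simp [Pi.single_apply]
  rw [h2]
  rfl

end Pool.Agent.MP_48b1c3_nt.H99
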