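import Pool.Agent.MP_48b1c3_nt.H99.Defs

/-! The class number when all units come from the real subfield. -/

namespace Pool.Agent.MP_48b1c3_nt.H99

open Finset NumberField H54 H91 Filter UniqueFactorizationMonoid
open scoped Classical ComplexOrder Topology

theorem cl_sq_su {F K : Type} [Field F] [NumberField F] [Field K] [NumberField K] [Algebra F K]
    (h2 : Module.finrank F K = 2) {D : Ideal (𝓞 K)} (d0 : D ≠ ⊥) {N : ℕ} (hN : N ≠ 0) {γ : 𝓞 F}
    (h : D ^ N = Ideal.span {algebraMap (𝓞 F) (𝓞 K) γ}) : cl D ^ (2 * classNumber F) = 1 := by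
  have e0 : Module.finrank (𝓞 F) (𝓞 K) = 2 := by
    rw [← h2]
    exact (IsFractionRing.finrank_eq (𝓞 F) F (𝓞 K) K).symm
  have e1 : Ideal.relNorm (𝓞 F) D ^ N = Ideal.span {γ} ^ 2 := by
    rw [← map_pow, h, ← Set.image_singleton, ← Ideal.map_span, Ideal.relNorm_algebraMap, e0]
  have e2 : (Ideal.relNorm (𝓞 F) D).map (algebraMap (𝓞 F) (𝓞 K)) = D ^ 2 :=
    pow_left_injective hN (by
      beta_reduce
      rw [← Ideal.map_pow, e1, Ideal.map_pow, Ideal.map_span, Set.image_singleton, ← h, ← pow_mul,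
        ← pow_mul, mul_comm])
  have j0 : Ideal.relNorm (𝓞 F) D ≠ ⊥ := mt Ideal.relNorm_eq_bot_iff.1 d0
  obtain ⟨β, -, hβ⟩ := cl_one (pow_ne_zero (classNumber F) j0)
    (by rw [cl_pow j0]; exact pow_card_eq_one)
  rw [← cl_pow d0, pow_mul, ← e2, ← Ideal.map_pow, hβ, Ideal.map_span, Set.image_singleton, cl_span]

theorem cm_class {K : Type} [Field K] [NumberField K] [IsCMField K] (s : 𝓞 K) (R : Type)
    [CommRing R] [IsDedekindDomain R] [Algebra (𝓞 K) R] [IsLocalization.Away s R]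
    [IsCyclic (ClassGroup (𝓞 K))]
    (h : ∀ u : 𝓞 K, IsUnit (algebraMap (𝓞 K) R u) →
      ∃ k : ℕ, 0 < k ∧ (u : K) ^ k ∈ maximalRealSubfield K) :
    classNumber K ≤ 2 * classNumber (maximalRealSubfield K) * Nat.card (ClassGroup R) := by
  have := cls_finite (R := R) s
  obtain ⟨g, hg⟩ := isCyclic_iff_exists_zpowers_eq_top.1 ‹_›
  have i0 := rep_ne_bot g
  obtain ⟨_, hD⟩ := exists_bdd (R := R) s
  obtain ⟨D, d0, d1, -, d2⟩ := hD (rep g ^ Nat.card (ClassGroup R)) (pow_ne_zero _ i0) (by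
    rw [ex, Ideal.map_pow, cl_pow (ex_ne s i0), pow_card_eq_one'])
  rw [cl_mul (pow_ne_zero _ i0) d0, cl_pow i0, cl_rep] at d2
  obtain ⟨π, -, hπ⟩ := cl_one (pow_ne_zero (classNumber K) d0)
    (by rw [cl_pow d0]; exact pow_card_eq_one)
  obtain ⟨k, k0, hk⟩ := h π (Ideal.span_singleton_eq_top.1 (by
    rw [← ex_span, ← hπ, ex, Ideal.map_pow, show Ideal.map _ D = ⊤ from d1, Ideal.top_pow]))
  have hi : IsIntegral ℤ (⟨(π : K) ^ k, hk⟩ : maximalRealSubfield K) :=
    (isIntegral_algebraMap_iff (B := K) (algebraMap (maximalRealSubfield K) K).injective).1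
      (π.isIntegral_coe.pow k)
  have e := cl_sq_su (F := maximalRealSubfield K)
    (Algebra.IsQuadraticExtension.finrank_eq_two _ K) d0
    (mul_ne_zero (classNumber_ne_zero K) k0.ne') (γ := ⟨_, hi⟩) (by
      rw [pow_mul, hπ, Ideal.span_singleton_pow]
      rfl)
  have e1 : g ^ (2 * classNumber (maximalRealSubfield K) * Nat.card (ClassGroup R)) = 1 := by
    rw [mul_comm, pow_mul, eq_inv_of_mul_eq_one_left d2, inv_pow, e, inv_one]
  rw [classNumber, ← Nat.card_eq_fintype_card, ← orderOf_eq_card_of_zpowers_eq_top hg]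
  exact orderOf_le_of_pow_eq_one
    (mul_pos (mul_pos two_pos (classNumber_pos _)) Nat.card_pos) e1

end Pool.Agent.MP_48b1c3_nt.H99
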