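import Pool.Agent.MP_48b1c3_nt.H99.BS
import Pool.Agent.MP_48b1c3_nt.H99.SU
import Pool.Agent.MP_48b1c3_nt.H69.MainG

/-! The theorem with CM fields of bounded class number included. -/

namespace Pool.Agent.MP_48b1c3_nt.H99

open NumberField H91 H48 H54
open scoped nonZeroDivisors

/-- a unit outside the radical of a finitely generated group -/
theorem exists_unit (Γ : Subgroup (AlgebraicClosure ℚ)ˣ) (hΓ : Γ.FG) (k : ℕ) : ∃ D : ℕ,
    ∀ (K : Type) [Field K] [NumberField K] (s : 𝓞 K) (R : Type) [CommRing R] [IsDedekindDomain R]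
      [Algebra (𝓞 K) R] [IsLocalization.Away s R], D ≤ (discr K).natAbs →
      (IsCMField K → D ≤ (discr (maximalRealSubfield K)).natAbs ∨ Nat.card (ClassGroup R) ≤ k) →
      (IsTotallyComplex K → IsCyclic (ClassGroup (𝓞 K))) →
      ∃ u : 𝓞 K, IsUnit (algebraMap (𝓞 K) R u) ∧ ∀ (τ : K →+* AlgebraicClosure ℚ) (m : ℕ),
        0 < m → ∀ γ ∈ Γ, (γ : AlgebraicClosure ℚ) ≠ τ u ^ m := by
  obtain ⟨D₀, h₀⟩ := H69.exists_unit_fg Γ hΓ
  obtain ⟨D₁, h₁⟩ := cm_unit Γ hΓ D₀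
  obtain ⟨h, h₂⟩ := cls_bdd D₀
  obtain ⟨D₂, h₃⟩ := bs (2 * h * k) D₀
  refine ⟨D₀ + D₁ + D₂ + 1, fun K _ _ s R _ _ _ _ d1 d2 c1 => ?_⟩
  by_cases g : IsCMField K → D₀ ≤ (discr (maximalRealSubfield K)).natAbs
  · obtain ⟨u, hu⟩ := h₀ K (by omega) g
    exact ⟨u, u.isUnit.map _, hu⟩
  obtain ⟨g1, g2⟩ := Classical.not_imp.1 g
  have g3 := (not_le.1 g2).le
  by_contra hn
  have := c1 inferInstance
  have a1 := cm_class s R fun u hu => by_contra fun e =>
    hn ⟨u, hu, h₁ K g1 g3 (by omega) u fun j j0 hj => e ⟨j, j0, hj⟩⟩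
  have a2 := h₃ K g1 (a1.trans (Nat.mul_le_mul (Nat.mul_le_mul_left 2 (h₂ _ g3))
    ((d2 g1).resolve_left (by omega)))) g3
  omega

/-- the form with sign conditions -/
theorem formH (k : ℕ) : ∃ D : ℕ, ∀ (K : Type) [Field K] [NumberField K] (s : 𝓞 K) (R : Type)
    [CommRing R] [IsDedekindDomain R] [Algebra (𝓞 K) R] [IsLocalization.Away s R],
    D ≤ (discr K).natAbs →
    (IsCMField K → D ≤ (discr (maximalRealSubfield K)).natAbs ∨ Nat.card (ClassGroup R) ≤ k) →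
    (IsTotallyComplex K → IsCyclic (ClassGroup (𝓞 K))) →
    (¬ IsTotallyComplex K → Odd (Nat.card (ClassGroup R))) →
      k * {c : ClassGroup R | Subgroup.zpowers c = ⊤ ∧ ∃ C : (Ideal R)⁰, ClassGroup.mk0 C = c ∧
        ¬ EuclideanIdeal ((C : Ideal R) : FractionalIdeal R⁰ (FractionRing R))}.ncard <
        Nat.card (ClassGroup R) := by
  obtain ⟨Γ, hΓ, H⟩ := H69.mainG k
  obtain ⟨D, hD⟩ := exists_unit Γ hΓ k
  refine ⟨D, fun K _ _ s R _ _ _ _ d1 d2 c1 c2 => lt_of_le_of_lt (Nat.mul_le_mul_left k ?_)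
    (H K s R (hD K s R d1 d2 c1))⟩
  have := cls_finite (R := R) s
  refine Set.ncard_le_ncard (fun c ⟨hC, C, e, h⟩ => ⟨hC, C, e, ?_, h⟩) (Set.toFinite _)
  subst e
  by_cases hK : IsTotallyComplex K
  · have := c1 hK
    exact cycLocal_of_signCyclic s signCyclic_of_complex C hC
  · refine cycLocal_of_real s (not_not.1 fun g => hK ⟨fun w => ?_⟩) C ?_
    · exact InfinitePlace.not_isReal_iff_isComplex.1 fun hw => g ⟨w, hw⟩
    · rw [orderOf_eq_card_of_zpowers_eq_top hC]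
      exact c2 hK

/-- bounded class number: every generator is Euclidean, outside finitely many fields -/
theorem ideal_all (h : ℕ) : ∃ D : ℕ, ∀ (K : Type) [Field K] [NumberField K] (s : 𝓞 K) (R : Type)
    [CommRing R] [IsDedekindDomain R] [Algebra (𝓞 K) R] [IsLocalization.Away s R],
    Nat.card (ClassGroup R) ≤ h → D ≤ (discr K).natAbs →
    (IsTotallyComplex K → IsCyclic (ClassGroup (𝓞 K))) →
    (¬ IsTotallyComplex K → Odd (Nat.card (ClassGroup R))) →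
    ∀ C : (Ideal R)⁰, Subgroup.zpowers (ClassGroup.mk0 C) = ⊤ →
      EuclideanIdeal ((C : Ideal R) : FractionalIdeal R⁰ (FractionRing R)) := by
  obtain ⟨D, hD⟩ := formH h
  refine ⟨D, fun K _ _ s R _ _ _ _ g1 g2 g3 g4 C hC => by_contra fun hn => ?_⟩
  have := cls_finite (R := R) s
  refine (hD K s R g2 (fun _ => Or.inr g1) g3 g4).not_ge (g1.trans (Nat.le_mul_of_pos_right h
    ((Set.ncard_pos (Set.toFinite _)).2 ?_)))
  exact ⟨_, hC, C, rfl, hn⟩

/-- principal rings of `S`-integers -/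
theorem pid_all : ∃ D : ℕ, ∀ (K : Type) [Field K] [NumberField K] (s : 𝓞 K) (R : Type)
    [CommRing R] [IsDedekindDomain R] [Algebra (𝓞 K) R] [IsLocalization.Away s R]
    [IsPrincipalIdealRing R], D ≤ (discr K).natAbs →
    (IsTotallyComplex K → IsCyclic (ClassGroup (𝓞 K))) →
    ∃ φ : R → ℕ, ∀ a b : R, b ≠ 0 → ∃ q r : R, a = b * q + r ∧ (r = 0 ∨ φ r < φ b) := by
  obtain ⟨D, h1⟩ := ideal_all 1
  refine ⟨D, fun K _ _ s R _ _ _ _ _ g2 g4 => EuclideanIdeal.ring ?_⟩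
  have e : Nat.card (ClassGroup R) = 1 := by
    rw [Nat.card_eq_fintype_card, card_classGroup_eq_one]
  have := (Nat.card_eq_one_iff_unique.1 e).1
  simpa only [OneMemClass.coe_one, Ideal.one_eq_top, FractionalIdeal.coeIdeal_top] using
    h1 K s R e.le g2 g4 (fun _ => e ▸ odd_one) 1 (Subsingleton.elim (Subgroup.zpowers _) ⊤)

/-- all but finitely many number fields of class number one are Euclidean -/
theorem class_one : ∃ D : ℕ, ∀ (K : Type) [Field K] [NumberField K]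
    [IsPrincipalIdealRing (𝓞 K)], D ≤ (discr K).natAbs →
    ∃ φ : 𝓞 K → ℕ, ∀ a b : 𝓞 K, b ≠ 0 → ∃ q r : 𝓞 K, a = b * q + r ∧ (r = 0 ∨ φ r < φ b) := by
  obtain ⟨D, h1⟩ := pid_all
  refine ⟨D, fun K _ _ _ g2 => ?_⟩
  have : IsLocalization.Away (1 : 𝓞 K) (𝓞 K) :=
    IsLocalization.away_of_isUnit_of_bijective _ isUnit_one Function.bijective_id
  have := Fintype.card_le_one_iff_subsingleton.1 ((classNumber_eq_one_iff (K := K)).2 ‹_›).le
  exact h1 K 1 (𝓞 K) g2 fun _ => inferInstance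

end Pool.Agent.MP_48b1c3_nt.H99
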