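import Mathlib

/-! The quadratic Gauss sum of level `4 a` with its sign, by an exact theta identity. -/

namespace Pool.Agent.H99C.GS30

open Complex Finset
open scoped Real

/-- Theta series on the right half plane. -/
noncomputable def th (t : ℂ) : ℂ := ∑' n : ℤ, cexp (-π * t * (n : ℂ) ^ 2)

theorem sm_quad {t : ℂ} (ht : 0 < t.re) (b : ℂ) :
    Summable fun n : ℤ => cexp (-π * t * (n : ℂ) ^ 2 + 2 * π * I * n * b) := by
  have h := (summable_jacobiTheta₂_term_iff b (I * t)).mpr (by simpa using ht)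
  refine h.congr fun n => ?_
  unfold jacobiTheta₂_term
  congr 1
  linear_combination (π * n ^ 2 * t : ℂ) * I_mul_I

theorem sm_th {t : ℂ} (ht : 0 < t.re) : Summable fun n : ℤ => cexp (-π * t * (n : ℂ) ^ 2) := by
  simpa using sm_quad ht 0

theorem th_inv {t : ℂ} (ht : 0 < t.re) : th t = 1 / t ^ (1 / 2 : ℂ) * th t⁻¹ := by
  unfold th
  rw [Complex.tsum_exp_neg_mul_int_sq ht]
  rfl

theorem th_shift (t : ℂ) (a : ℕ) : th (t + 2 * a * I) = th t := by
  unfold th
  refine tsum_congr fun n => ?_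
  have : (-π * (t + 2 * a * I) * (n : ℂ) ^ 2)
      = -π * t * (n : ℂ) ^ 2 + ((-(a : ℤ) * n ^ 2 : ℤ) : ℂ) * (2 * π * I) := by
    push_cast; ring
  rw [this, Complex.exp_add, Complex.exp_int_mul_two_pi_mul_I, mul_one]

theorem th_ne {t : ℂ} (ht : t.re = 1) : th t ≠ 0 := by
  have h := norm_jacobiTheta_sub_one_le (τ := I * t) (by simp [ht])
  have e : jacobiTheta (I * t) = th t := by
    unfold jacobiTheta th
    refine tsum_congr fun n => ?_
    congr 1
    linear_combination (π * n ^ 2 * t : ℂ) * I_mul_I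
  intro h0
  rw [e, h0] at h
  have him : (I * t).im = 1 := by simp [ht]
  rw [him] at h
  have h3 : rexp (-π * 1) < 1 / 3 := by
    have h1 : (π : ℝ) + 1 ≤ rexp π := Real.add_one_le_exp π
    have h2 := Real.pi_gt_three
    rw [mul_one, Real.exp_neg, one_div]
    exact inv_strictAnti₀ (by norm_num) (by linarith)
  have h4 := Real.exp_pos (-π * 1)
  have h5 : 2 / (1 - rexp (-π * 1)) * rexp (-π * 1) < 1 := by
    rw [div_mul_eq_mul_div, div_lt_one (by linarith)]
    linarith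
  simp at h
  simp at h5
  linarith

theorem sum_shift (N : ℕ) (φ : ℤ → ℂ) (hφ : ∀ x, φ (x + N) = φ x) (k : ℤ) :
    ∑ x ∈ range N, φ (x + k) = ∑ x ∈ range N, φ x := by
  have step : ∀ k : ℤ, ∑ x ∈ range N, φ (x + (k + 1)) = ∑ x ∈ range N, φ (x + k) := by
    intro k
    have h1 := Finset.sum_range_succ (fun x : ℕ => φ (x + k)) N
    have h2 := Finset.sum_range_succ' (fun x : ℕ => φ (x + k)) N
    have h3 : φ ((N : ℤ) + k) = φ (((0 : ℕ) : ℤ) + k) := by
      rw [← hφ (((0 : ℕ) : ℤ) + k)]; congr 1; push_cast; ring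
    have h4 : ∑ x ∈ range N, φ (x + (k + 1)) = ∑ x ∈ range N, φ (((x + 1 : ℕ) : ℤ) + k) :=
      Finset.sum_congr rfl fun x _ => by congr 1; push_cast; ring
    rw [h4]
    rw [h1, h3] at h2
    exact (add_right_cancel h2).symm
  induction k using Int.induction_on with
  | zero => simp
  | succ k ih => rw [step, ih]
  | pred k ih =>
    have := step (-(k : ℤ) - 1)
    rw [show -(k : ℤ) - 1 + 1 = -(k : ℤ) by ring] at this
    rw [← this, ih]

theorem tsum_split (N : ℕ) [NeZero N] (f : ℤ → ℂ) (hf : Summable f) :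
    ∑' n, f n = ∑ x ∈ range N, ∑' m : ℤ, f (m * N + x) := by
  have e := (Int.divModEquiv N).symm.tsum_eq f
  have hs : Summable fun p : ℤ × Fin N => f ((Int.divModEquiv N).symm p) :=
    (Int.divModEquiv N).symm.summable_iff.mpr hf
  rw [← e, ← (Equiv.prodComm (Fin N) ℤ).tsum_eq]
  have hs' : Summable fun p : Fin N × ℤ =>
      f ((Int.divModEquiv N).symm (Equiv.prodComm (Fin N) ℤ p)) :=
    (Equiv.prodComm (Fin N) ℤ).summable_iff.mpr hs
  rw [hs'.tsum_prod, tsum_fintype, Finset.sum_range]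
  rfl

theorem th_gauss (a : ℕ) (ha : 1 ≤ a) :
    th (1 / (4 * (a : ℂ) ^ 2) - I / (2 * a)) =
      (∑ x ∈ range (2 * a), cexp (2 * π * I * (x : ℂ) ^ 2 / (4 * a))) * th (1 + I / (2 * a)) := by
  have ha0 : (a : ℂ) ≠ 0 := by exact_mod_cast (by omega : a ≠ 0)
  have haR : (0 : ℝ) < a := by exact_mod_cast ha
  have : NeZero (2 * a) := ⟨by omega⟩
  have hre : 0 < (1 / (4 * (a : ℂ) ^ 2) - I / (2 * a)).re := by
    have : (1 / (4 * (a : ℂ) ^ 2) - I / (2 * a))
        = ((1 / (4 * (a : ℝ) ^ 2) : ℝ) : ℂ) + ((-1 / (2 * a) : ℝ) : ℂ) * I := by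
      push_cast; ring
    rw [this]
    simp only [add_re, ofReal_re, mul_re, I_re, mul_zero, ofReal_im, I_im, mul_one, sub_self,
      add_zero]
    positivity
  set φ : ℤ → ℂ := fun x => cexp (2 * π * I * (x : ℂ) ^ 2 / (4 * a)) with hφ
  have hper : ∀ x, φ (x + (2 * a : ℕ)) = φ x := by
    intro x
    have : 2 * π * I * ((x + (2 * a : ℕ) : ℤ) : ℂ) ^ 2 / (4 * a)
        = 2 * π * I * (x : ℂ) ^ 2 / (4 * a) + ((x + a : ℤ) : ℂ) * (2 * π * I) := by
      push_cast; field_simp; ring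
    simp only [hφ]
    rw [this, Complex.exp_add, Complex.exp_int_mul_two_pi_mul_I, mul_one]
  have inner : ∀ x : ℕ, ∑' m : ℤ, cexp (-π * (1 / (4 * (a : ℂ) ^ 2) - I / (2 * a)) *
        ((m * (2 * a : ℕ) + x : ℤ) : ℂ) ^ 2)
      = ∑' k : ℤ, cexp (-π * (1 + I / (2 * a)) * (k : ℂ) ^ 2) * φ (x + k) := by
    intro x
    have h1 := Complex.tsum_exp_neg_quadratic (a := 1) (by simp) (-(x : ℂ) / (2 * a))
    have h2 : ∀ m : ℤ, cexp (-π * (1 / (4 * (a : ℂ) ^ 2) - I / (2 * a)) *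
        ((m * (2 * a : ℕ) + x : ℤ) : ℂ) ^ 2)
        = cexp (-π * (x : ℂ) ^ 2 / (4 * a ^ 2) + 2 * π * I * (x : ℂ) ^ 2 / (4 * a)) *
          cexp (-π * 1 * (m : ℂ) ^ 2 + 2 * π * (-(x : ℂ) / (2 * a)) * m) := by
      intro m
      have : -π * (1 / (4 * (a : ℂ) ^ 2) - I / (2 * a)) * ((m * (2 * a : ℕ) + x : ℤ) : ℂ) ^ 2
          = (-π * (x : ℂ) ^ 2 / (4 * a ^ 2) + 2 * π * I * (x : ℂ) ^ 2 / (4 * a)) +
            (-π * 1 * (m : ℂ) ^ 2 + 2 * π * (-(x : ℂ) / (2 * a)) * m) +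
            ((a * m ^ 2 + m * x : ℤ) : ℂ) * (2 * π * I) := by
        push_cast; field_simp; ring
      rw [this, Complex.exp_add, Complex.exp_int_mul_two_pi_mul_I, mul_one, Complex.exp_add]
    rw [tsum_congr h2, tsum_mul_left, h1, Complex.one_cpow, div_one, one_mul, ← tsum_mul_left]
    refine tsum_congr fun k => ?_
    simp only [hφ]
    rw [← Complex.exp_add, ← Complex.exp_add]
    congr 1
    push_cast
    field_simp
    linear_combination (-4 * x ^ 2 : ℂ) * I_mul_I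
  unfold th
  rw [tsum_split (2 * a) _ (sm_th hre), Finset.sum_congr rfl fun x _ => inner x]
  have hre1 : 0 < (1 + I / (2 * a) : ℂ).re := by
    have : (1 + I / (2 * a) : ℂ) = ((1 : ℝ) : ℂ) + ((1 / (2 * a) : ℝ) : ℂ) * I := by
      push_cast; ring
    rw [this]; simp
  have hsm : ∀ x ∈ range (2 * a),
      Summable fun k : ℤ => cexp (-π * (1 + I / (2 * a)) * (k : ℂ) ^ 2) * φ (x + k) := by
    intro x _
    refine Summable.of_norm ?_
    refine (sm_th hre1).norm.congr fun k => ?_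
    have : 2 * π * I * (((x : ℤ) + k : ℤ) : ℂ) ^ 2 / (4 * a)
        = ((2 * π * ((x : ℝ) + k) ^ 2 / (4 * a) : ℝ) : ℂ) * I := by
      push_cast; ring
    simp only [hφ]
    rw [norm_mul, this, Complex.norm_exp_ofReal_mul_I, mul_one]
  rw [← Summable.tsum_finsetSum hsm, ← tsum_mul_left]
  refine tsum_congr fun k => ?_
  rw [← Finset.mul_sum, sum_shift (2 * a) φ hper k, mul_comm]
  simp only [hφ, Int.cast_natCast]

theorem root_facts {t : ℂ} (ht : 0 < t.re) :
    (1 / t ^ (1 / 2 : ℂ)) ^ 2 = t⁻¹ ∧ 0 < (1 / t ^ (1 / 2 : ℂ)).re ∧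
      0 < ((1 / t ^ (1 / 2 : ℂ)) ^ 2).re := by
  have h0 : t ≠ 0 := by rintro rfl; simp at ht
  have h1 : (t ^ (1 / 2 : ℂ)) ^ 2 = t := by
    have := Complex.cpow_nat_inv_pow t (n := 2) (by norm_num)
    rw [one_div]
    exact_mod_cast this
  have h2 : (1 / t ^ (1 / 2 : ℂ)) ^ 2 = t⁻¹ := by rw [div_pow, h1, one_pow, one_div]
  have hinv : ∀ z : ℂ, 0 < z.re → 0 < (z⁻¹).re := by
    intro z hz
    have : z ≠ 0 := by rintro rfl; simp at hz
    rw [Complex.inv_re]
    exact div_pos hz (Complex.normSq_pos.mpr this)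
  refine ⟨h2, ?_, h2 ▸ hinv t ht⟩
  rw [one_div]
  apply hinv
  have h3 : t ^ (1 / 2 : ℂ) = t ^ (2⁻¹ : ℂ) := by norm_num
  rw [h3, Complex.cpow_inv_two_re]
  apply Real.sqrt_pos.mpr
  have := norm_nonneg t
  linarith

theorem re_mul_pos {u v : ℂ} (hu : 0 < u.re) (hv : 0 < v.re) (hu2 : 0 < (u ^ 2).re)
    (hv2 : 0 < (v ^ 2).re) : 0 < (u * v).re := by
  rw [sq, Complex.mul_re] at hu2 hv2
  rw [Complex.mul_re]
  have h1 : |u.im| < u.re := abs_lt_of_sq_lt_sq (by nlinarith) hu.le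
  have h2 : |v.im| < v.re := abs_lt_of_sq_lt_sq (by nlinarith) hv.le
  have h3 : u.im * v.im ≤ |u.im| * |v.im| := by rw [← abs_mul]; exact le_abs_self _
  have h4 : |u.im| * |v.im| < u.re * v.re :=
    mul_lt_mul'' h1 h2 (abs_nonneg _) (abs_nonneg _)
  linarith

/-- The Gauss sum with its sign. -/
theorem gs (a : ℕ) (ha : 1 ≤ a) :
    ∑ x ∈ range (2 * a), cexp (2 * π * I * (x : ℂ) ^ 2 / (4 * a)) =
      (√(2 * a : ℝ) : ℝ) * cexp (2 * π * I / 8) := by
  have ha0 : (a : ℂ) ≠ 0 := by exact_mod_cast (by omega : a ≠ 0)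
  have haR : (0 : ℝ) < a := by exact_mod_cast ha
  set G := ∑ x ∈ range (2 * a), cexp (2 * π * I * (x : ℂ) ^ 2 / (4 * a)) with hG
  set t : ℂ := 1 / (4 * (a : ℂ) ^ 2) - I / (2 * a) with ht
  set u : ℂ := 1 + I / (2 * a) with hu
  have hure : u.re = 1 := by
    have : u = ((1 : ℝ) : ℂ) + ((1 / (2 * a) : ℝ) : ℂ) * I := by
      rw [hu]; push_cast; ring
    rw [this]; simp
  have hu0 : u ≠ 0 := by intro h; rw [h] at hure; simp at hure
  have htre : 0 < t.re := by
    have : t = ((1 / (4 * (a : ℝ) ^ 2) : ℝ) : ℂ) + ((-1 / (2 * a) : ℝ) : ℂ) * I := by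
      rw [ht]; push_cast; ring
    rw [this]
    simp only [add_re, ofReal_re, mul_re, I_re, mul_zero, ofReal_im, I_im, mul_one, sub_self,
      add_zero]
    positivity
  have htu : t = -I / (2 * a) * u := by
    rw [ht, hu]; linear_combination (1 / (4 * (a : ℂ) ^ 2)) * I_mul_I
  have hsre : 0 < (u⁻¹).re := by
    rw [Complex.inv_re, hure]
    exact div_pos one_pos (Complex.normSq_pos.mpr hu0)
  have hti : t⁻¹ = 2 * a * I * u⁻¹ := by
    rw [htu, mul_inv]; congr 1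
    apply inv_eq_of_mul_eq_one_right
    field_simp
    linear_combination (-1 : ℂ) * I_mul_I
  have hts' : t⁻¹ = -u⁻¹ * (-1) + 2 * a * I := by
    rw [hti]
    have : 2 * a * I * u = 2 * a * I - 1 := by
      rw [hu]; field_simp; linear_combination I_mul_I
    field_simp
    linear_combination (-1 : ℂ) * this
  have h1 : th t = G * th u := th_gauss a ha
  have h2 : th t = 1 / t ^ (1 / 2 : ℂ) * (1 / (u⁻¹) ^ (1 / 2 : ℂ) * th u) := by
    rw [th_inv htre, hts', th_shift, show -u⁻¹ * (-1) = u⁻¹ by ring, th_inv hsre, inv_inv]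
  have h3 : G = 1 / t ^ (1 / 2 : ℂ) * (1 / (u⁻¹) ^ (1 / 2 : ℂ)) := by
    apply mul_right_cancel₀ (th_ne hure)
    rw [← h1, h2]; ring
  obtain ⟨a1, a2, a3⟩ := root_facts htre
  obtain ⟨b1, b2, b3⟩ := root_facts hsre
  have hGre : 0 < G.re := h3 ▸ re_mul_pos a2 b2 a3 b3
  have hG2 : G ^ 2 = 2 * a * I := by
    rw [h3, mul_pow, a1, b1, inv_inv, hti]; field_simp
  set w : ℂ := (√(2 * a : ℝ) : ℝ) * cexp (2 * π * I / 8) with hw
  have hw2 : w ^ 2 = 2 * a * I := by
    rw [hw, mul_pow, ← Complex.ofReal_pow, Real.sq_sqrt (by positivity), ← Complex.exp_nat_mul,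
      show ((2 : ℕ) : ℂ) * (2 * π * I / 8) = π / 2 * I by push_cast; ring,
      Complex.exp_pi_div_two_mul_I]
    push_cast; ring
  have hwre : 0 < w.re := by
    rw [hw, Complex.re_ofReal_mul, show (2 * π * I / 8 : ℂ) = ((π / 4 : ℝ) : ℂ) * I by
      push_cast; ring, Complex.exp_ofReal_mul_I_re, Real.cos_pi_div_four]
    positivity
  rcases sq_eq_sq_iff_eq_or_eq_neg.mp (hG2.trans hw2.symm) with h | h
  · exact h
  · rw [h, Complex.neg_re] at hGre; linarith

/-- The conjugate Gauss sum. -/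
theorem gs_neg (a : ℕ) (ha : 1 ≤ a) :
    ∑ x ∈ range (2 * a), cexp (-(2 * π * I * (x : ℂ) ^ 2 / (4 * a))) =
      (√(2 * a : ℝ) : ℝ) * cexp (-(2 * π * I / 8)) := by
  have h := congrArg (starRingEnd ℂ) (gs a ha)
  rw [map_sum, map_mul, Complex.conj_ofReal, ← Complex.exp_conj] at h
  have e1 : (starRingEnd ℂ) (2 * π * I / 8) = -(2 * π * I / 8) := by
    simp only [map_div₀, map_mul, Complex.conj_ofReal, Complex.conj_I, map_ofNat]; ring
  rw [e1] at h
  rw [← h]
  refine Finset.sum_congr rfl fun x _ => ?_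
  rw [← Complex.exp_conj]
  congr 1
  simp only [map_div₀, map_mul, map_pow, Complex.conj_ofReal, Complex.conj_I, map_ofNat,
    map_natCast]
  ring

/-- The Gauss sum for a nonzero integer. -/
theorem gs_int (a : ℤ) (ha : a ≠ 0) :
    ∑ x ∈ range (2 * a.natAbs), cexp (2 * π * I * (x : ℂ) ^ 2 / (4 * a)) =
      (√(2 * a.natAbs : ℝ) : ℝ) * cexp (2 * π * I * (a.sign : ℂ) / 8) := by
  have h1 : 1 ≤ a.natAbs := Int.natAbs_pos.mpr ha
  rcases lt_or_gt_of_ne ha with h | h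
  · have e : (a : ℂ) = -(a.natAbs : ℂ) := by
      have : a = -(a.natAbs : ℤ) := by omega
      exact_mod_cast this
    rw [Int.sign_eq_neg_one_of_neg h]
    have := gs_neg a.natAbs h1
    rw [show (2 * π * I * ((-1 : ℤ) : ℂ) / 8) = -(2 * π * I / 8) by push_cast; ring, ← this]
    refine Finset.sum_congr rfl fun x _ => ?_
    congr 1
    rw [e]; ring
  · have e : (a : ℂ) = (a.natAbs : ℂ) := by
      have : a = (a.natAbs : ℤ) := by omega
      rw [← Int.cast_natCast, ← this]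
    rw [Int.sign_eq_one_of_pos h]
    have := gs a.natAbs h1
    rw [show (2 * π * I * ((1 : ℤ) : ℂ) / 8) = 2 * π * I / 8 by push_cast; ring, ← this]
    refine Finset.sum_congr rfl fun x _ => ?_
    rw [e]

end Pool.Agent.H99C.GS30

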