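import Pool.Agent.MP_48b1c3_nt.H99.Defs
import Pool.Agent.MP_48b1c3_nt.H99.GsA

/-! The classical Gauss sum. -/

namespace Pool.Agent.MP_48b1c3_nt.H99

open Finset NumberField H54 H91 Filter UniqueFactorizationMonoid
open scoped Classical ComplexOrder Topology

theorem gs_one {a : ℤ} (ha : a ≠ 0) : ∃ r : ℝ, 0 < r ∧
    ∑ x ∈ range (2 * a.natAbs), ec ((x : ℝ) ^ 2 / (4 * a)) = r * e8 a := by
  have h0 : (0 : ℝ) < a.natAbs := by exact_mod_cast Int.natAbs_pos.2 ha
  refine ⟨√(2 * a.natAbs : ℝ), by positivity, ?_⟩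
  have h := Pool.Agent.H99C.GS30.gs_int a ha
  refine Eq.trans (sum_congr rfl fun x _ => ?_) (h.trans ?_)
  · rw [ec]
    congr 1
    push_cast
    ring
  · congr 1
    rw [e8]
    rcases lt_or_gt_of_ne ha with g | g
    · rw [if_neg (by exact_mod_cast g.not_gt), Int.sign_eq_neg_one_of_neg g, ec]
      congr 1
      push_cast
      ring
    · rw [if_pos (by exact_mod_cast g), Int.sign_eq_one_of_pos g, ec]
      congr 1
      push_cast
      ring

end Pool.Agent.MP_48b1c3_nt.H99
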