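import Pool.Agent.MP_48b1c3_nt.H99.Defs

/-! Sums over classes. -/

namespace Pool.Agent.MP_48b1c3_nt.H99

open Finset NumberField H54 H91 Filter UniqueFactorizationMonoid
open scoped Classical ComplexOrder Topology

variable {V : Type} [AddCommGroup V]

theorem cls_param {G N : AddSubgroup V} {f : V → ℂ} (hf : ∀ x ∈ G, ∀ l ∈ N, f (x + l) = f x)
    (hN : N ≤ G) {ι : Type} (T : Finset ι) (t : ι → V) (h1 : ∀ i ∈ T, t i ∈ G)
    (h2 : ∀ i ∈ T, ∀ j ∈ T, t i - t j ∈ N → i = j) (h3 : ∀ x ∈ G, ∃ i ∈ T, x - t i ∈ N) :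
    cls G N f = ∑ i ∈ T, f (t i) := by
  have e : (G.map (QuotientAddGroup.mk' N) : Set (V ⧸ N)) =
      (fun i => (QuotientAddGroup.mk (t i) : V ⧸ N)) '' (T : Set ι) := by
    ext c
    constructor
    · rintro ⟨x, hx, rfl⟩
      obtain ⟨i, hi, h⟩ := h3 x hx
      exact ⟨i, hi, (QuotientAddGroup.eq_iff_sub_mem.2 h).symm⟩
    · rintro ⟨i, hi, rfl⟩
      exact ⟨t i, h1 i hi, rfl⟩
  rw [cls, e, finsum_mem_image fun i hi j hj h =>
    h2 i hi j hj (QuotientAddGroup.eq_iff_sub_mem.1 h), finsum_mem_coe_finset]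
  refine sum_congr rfl fun i hi => ?_
  obtain ⟨l, hl⟩ := QuotientAddGroup.mk_out_eq_add N (t i)
  rw [hl, hf _ (h1 i hi) _ l.2]

theorem reps_inv {G N : AddSubgroup V} (h : N.relIndex G ≠ 0) : ∃ T : Finset V,
    (∀ x ∈ T, x ∈ G) ∧ (∀ i ∈ T, ∀ j ∈ T, i - j ∈ N → i = j) ∧ (∀ x ∈ G, ∃ i ∈ T, x - i ∈ N) ∧
      #T = N.relIndex G := by
  have : Finite (G ⧸ N.addSubgroupOf G) := Nat.finite_of_card_ne_zero h
  have := Fintype.ofFinite (G ⧸ N.addSubgroupOf G)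
  have inj : ∀ c d : G ⧸ N.addSubgroupOf G, ((c.out : G) : V) - (d.out : G) ∈ N → c = d := by
    intro c d g
    rw [← c.out_eq, ← d.out_eq]
    exact QuotientAddGroup.eq_iff_sub_mem.2 g
  refine ⟨univ.image fun c : G ⧸ N.addSubgroupOf G => ((c.out : G) : V), fun x hx => ?_,
    fun i hi j hj g => ?_, fun x hx => ?_, ?_⟩
  · obtain ⟨c, -, rfl⟩ := mem_image.1 hx
    exact c.out.2
  · obtain ⟨c, -, rfl⟩ := mem_image.1 hi
    obtain ⟨d, -, rfl⟩ := mem_image.1 hj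
    rw [inj c d g]
  · refine ⟨_, mem_image_of_mem _ (mem_univ (QuotientAddGroup.mk ⟨x, hx⟩)), ?_⟩
    exact (QuotientAddGroup.eq_iff_sub_mem (N := N.addSubgroupOf G) (x := ⟨x, hx⟩)).1
      (Quotient.out_eq (QuotientAddGroup.mk ⟨x, hx⟩ : G ⧸ N.addSubgroupOf G)).symm
  · rw [card_image_of_injective _ fun c d g => inj c d (by
      rw [show ((c.out : G) : V) = (d.out : G) from g, sub_self]
      exact N.zero_mem), card_univ, ← Nat.card_eq_fintype_card]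
    rfl

theorem two_inv {G L N : AddSubgroup V} {f : V → ℂ} (hf : ∀ x ∈ G, ∀ l ∈ N, f (x + l) = f x)
    (h1 : N ≤ L) (h2 : L ≤ G) {A B : Finset V} (a1 : ∀ x ∈ A, x ∈ L)
    (a2 : ∀ i ∈ A, ∀ j ∈ A, i - j ∈ N → i = j) (a3 : ∀ x ∈ L, ∃ i ∈ A, x - i ∈ N)
    (b1 : ∀ x ∈ B, x ∈ G) (b2 : ∀ i ∈ B, ∀ j ∈ B, i - j ∈ L → i = j)
    (b3 : ∀ x ∈ G, ∃ i ∈ B, x - i ∈ L) : cls G N f = ∑ b ∈ B, ∑ a ∈ A, f (b + a) := by
  rw [← sum_product' (f := fun b a => f (b + a))]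
  refine cls_param hf (h1.trans h2) (B ×ˢ A) (fun p => p.1 + p.2) (fun p hp => ?_)
    (fun p hp q hq g => ?_) fun x hx => ?_
  · exact G.add_mem (b1 _ (mem_product.1 hp).1) (h2 (a1 _ (mem_product.1 hp).2))
  · obtain ⟨p1, p2⟩ := mem_product.1 hp
    obtain ⟨q1, q2⟩ := mem_product.1 hq
    have e : p.1 = q.1 := b2 _ p1 _ q1 (by
      have := L.sub_mem (h1 g) (L.sub_mem (a1 _ p2) (a1 _ q2))
      rwa [show p.1 + p.2 - (q.1 + q.2) - (p.2 - q.2) = p.1 - q.1 by abel] at this)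
    refine Prod.ext e (a2 _ p2 _ q2 ?_)
    rwa [e, add_sub_add_left_eq_sub] at g
  · obtain ⟨b, hb, g⟩ := b3 x hx
    obtain ⟨a, ha, g'⟩ := a3 _ g
    exact ⟨(b, a), mem_product.2 ⟨hb, ha⟩, by rwa [← sub_sub]⟩

theorem cls_refine {G N N' : AddSubgroup V} {f : V → ℂ} (hf : ∀ x ∈ G, ∀ l ∈ N, f (x + l) = f x)
    (h1 : N' ≤ N) (h2 : N ≤ G) (h3 : N'.relIndex G ≠ 0) :
    cls G N' f = N'.relIndex N * cls G N f := by
  rw [← AddSubgroup.relIndex_mul_relIndex N' N G h1 h2] at h3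
  obtain ⟨A, a1, a2, a3, a4⟩ := reps_inv (left_ne_zero_of_mul h3)
  obtain ⟨B, b1, b2, b3, -⟩ := reps_inv (right_ne_zero_of_mul h3)
  rw [two_inv (fun x hx l hl => hf x hx l (h1 hl)) h1 h2 a1 a2 a3 b1 b2 b3,
    cls_param hf h2 B (fun x => x) b1 b2 b3, mul_sum, ← a4]
  refine sum_congr rfl fun b hb => ?_
  rw [sum_congr rfl fun a ha => hf b (b1 b hb) a (a1 a ha), sum_const, nsmul_eq_mul]

theorem cls_inv {G H L N : AddSubgroup V} {f : V → ℂ} {ψ : V → V → ℂ} (h1 : N ≤ L) (h2 : L ≤ H)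
    (h3 : H ≤ G) (h4 : N.relIndex G ≠ 0) (hf : ∀ x ∈ G, ∀ l ∈ L, f (x + l) = f x * ψ x l)
    (hN : ∀ x ∈ G, ∀ l ∈ N, ψ x l = 1)
    (hψ : ∀ x ∈ G, ∀ l ∈ L, ∀ l' ∈ L, ψ x (l + l') = ψ x l * ψ x l')
    (hH : ∀ x ∈ G, (∀ l ∈ L, ψ x l = 1) → x ∈ H) : cls G N f = cls H N f := by
  rw [← AddSubgroup.relIndex_mul_relIndex N L G h1 (h2.trans h3)] at h4
  obtain ⟨A, a1, a2, a3, -⟩ := reps_inv (left_ne_zero_of_mul h4)
  obtain ⟨B, b1, b2, b3, -⟩ := reps_inv (right_ne_zero_of_mul h4)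
  have hf' : ∀ x ∈ G, ∀ l ∈ N, f (x + l) = f x := fun x hx l hl => by
    rw [hf x hx l (h1 hl), hN x hx l hl, mul_one]
  rw [two_inv hf' h1 (h2.trans h3) a1 a2 a3 b1 b2 b3,
    two_inv (B := B.filter (· ∈ H)) (fun x hx => hf' x (h3 hx)) h1 h2 a1 a2 a3
      (fun x hx => (mem_filter.1 hx).2)
      (fun i hi j hj => b2 i (mem_filter.1 hi).1 j (mem_filter.1 hj).1) fun x hx => ?_]
  · refine (sum_filter_of_ne fun b hb g => by_contra fun g' => g ?_).symm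
    have hb' := b1 b hb
    obtain ⟨l, hl, g2⟩ : ∃ l ∈ L, ψ b l ≠ 1 := by
      by_contra g3
      push Not at g3
      exact g' (hH b hb' g3)
    have i1 : ∀ x ∈ L, ∀ l ∈ N, ψ b (x + l) = ψ b x := fun x hx l hl => by
      rw [hψ b hb' x hx l (h1 hl), hN b hb' l hl, mul_one]
    have s1 := cls_param i1 h1 A (fun x => x) a1 a2 a3
    have s2 := cls_param i1 h1 A (fun x => l + x) (fun i hi => L.add_mem hl (a1 i hi))
      (fun i hi j hj g => a2 i hi j hj (by rwa [add_sub_add_left_eq_sub] at g)) fun x hx => by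
        obtain ⟨a, ha, g⟩ := a3 _ (L.sub_mem hx hl)
        exact ⟨a, ha, by rwa [← sub_sub]⟩
    rw [s1, sum_congr rfl fun a ha => hψ b hb' l hl a (a1 a ha), ← mul_sum] at s2
    rw [sum_congr rfl fun a ha => hf b hb' a (a1 a ha), ← mul_sum,
      (mul_left_eq_self₀.1 s2.symm).resolve_left g2, mul_zero]
  · obtain ⟨b, hb, g⟩ := b3 x (h3 hx)
    refine ⟨b, mem_filter.2 ⟨hb, ?_⟩, g⟩
    have := H.sub_mem hx (h2 g)
    rwa [sub_sub_cancel] at this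

end Pool.Agent.MP_48b1c3_nt.H99
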