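import Pool.Agent.MP_48b1c3_nt.H99.Inv

/-! Gauss sums of additive characters and the Jacobi symbol. -/

namespace Pool.Agent.MP_48b1c3_nt.H99

open Finset NumberField H54 H91 Filter UniqueFactorizationMonoid
open scoped Classical ComplexOrder Topology

variable {F : Type} [Field F] [NumberField F]

theorem field_ja {K : Type} [Field K] [Fintype K] (h2 : ringChar K ≠ 2) (φ : AddChar K ℂ)
    (hφ : ∀ a : K, a ≠ 0 → φ.mulShift a ≠ 1) {a : K} (ha : a ≠ 0) :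
    ∑ u, φ (a * u ^ 2) = (quadraticChar K a : ℂ) * ∑ t, (quadraticChar K t : ℂ) * φ t := by
  have h1 : ∑ u, φ (a * u ^ 2) = ∑ t, ((quadraticChar K t : ℂ) + 1) * φ (a * t) := by
    rw [← sum_fiberwise_of_maps_to (s := univ) (t := univ) (g := fun u : K => u ^ 2)
      fun _ _ => mem_univ _]
    refine sum_congr rfl fun t _ => ?_
    rw [sum_congr rfl (g := fun _ => φ (a * t)) fun u hu => by rw [(mem_filter.1 hu).2],
      sum_const, nsmul_eq_mul]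
    have := quadraticChar_card_sqrts h2 t
    rw [Set.toFinset_ofPred] at this
    congr 1
    exact_mod_cast this
  have h3 : ∑ t, φ (a * t) = 0 := AddChar.sum_eq_zero_of_ne_one (hφ a ha)
  have h4 : (quadraticChar K a : ℂ) ^ 2 = 1 := by exact_mod_cast quadraticChar_sq_one ha
  simp only [h1, add_mul, one_mul, sum_add_distrib, h3, add_zero]
  rw [← Equiv.sum_comp (Equiv.mulLeft₀ a ha) fun t => (quadraticChar K t : ℂ) * φ t, mul_sum]
  refine sum_congr rfl fun t _ => ?_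
  simp only [Equiv.mulLeft₀_apply, map_mul, Int.cast_mul]
  linear_combination (-(quadraticChar K t : ℂ) * φ (a * t)) * h4

omit [NumberField F] in
theorem per_ja {A : Ideal (𝓞 F)} {ψ : AddChar (𝓞 F) ℂ}
    (hψ : ∀ x, (∀ y, ψ (x * y) = 1) ↔ x ∈ A) {x y : 𝓞 F} (h : x - y ∈ A) : ψ x = ψ y := by
  have := (hψ _).2 h 1
  rw [show x = y + (x - y) * 1 by ring, AddChar.map_add_eq_mul, this, mul_one]

omit [NumberField F] in
theorem out_ja (A : Ideal (𝓞 F)) (x : 𝓞 F) : x - (Ideal.Quotient.mk A x).out ∈ A :=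
  Ideal.Quotient.eq.1 (Ideal.Quotient.mk_out _).symm

omit [NumberField F] in
theorem inj_ja {A : Ideal (𝓞 F)} {u v : 𝓞 F ⧸ A} (h : u.out - v.out ∈ A) : u = v := by
  rw [← Ideal.Quotient.mk_out u, ← Ideal.Quotient.mk_out v]
  exact Ideal.Quotient.eq.2 h

theorem prime_ja {P : Ideal (𝓞 F)} (hP : P.IsMaximal) (h0 : P ≠ ⊥) (ψ : AddChar (𝓞 F) ℂ)
    (hψ : ∀ x, (∀ y, ψ (x * y) = 1) ↔ x ∈ P) (δ : 𝓞 F) (h : 2 * δ ∉ P) :
    ∑ᶠ u : 𝓞 F ⧸ P, ψ (δ * u.out ^ 2) = leg δ P * ∑ᶠ u : 𝓞 F ⧸ P, ψ (u.out ^ 2) := by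
  let _ := Ideal.Quotient.field P
  have := P.finiteQuotientOfFreeOfNeBot h0
  let _ := Fintype.ofFinite (𝓞 F ⧸ P)
  let φ : AddChar (𝓞 F ⧸ P) ℂ :=
    { toFun := fun u => ψ u.out
      map_zero_eq_one' := by
        rw [← ψ.map_zero_eq_one]
        exact per_ja hψ (Ideal.Quotient.eq.1 (by simp))
      map_add_eq_mul' := fun u v => by
        rw [← ψ.map_add_eq_mul]
        exact per_ja hψ (Ideal.Quotient.eq.1 (by simp)) }
  have e : ∀ x, φ (Ideal.Quotient.mk P x) = ψ x := fun x => (per_ja hψ (out_ja P x)).symm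
  have h2 : ringChar (𝓞 F ⧸ P) ≠ 2 := fun g => by
    have := (ringChar.spec (𝓞 F ⧸ P) 2).2 (by rw [g])
    refine h (P.mul_mem_right _ (Ideal.Quotient.eq_zero_iff_mem.1 ?_))
    rw [map_ofNat]
    exact_mod_cast this
  have hφ : ∀ a, a ≠ 0 → φ.mulShift a ≠ 1 := fun a ha g => by
    obtain ⟨a, rfl⟩ := Ideal.Quotient.mk_surjective a
    refine ha (Ideal.Quotient.eq_zero_iff_mem.2 ((hψ a).1 fun y => ?_))
    rw [← e, map_mul, ← AddChar.mulShift_apply, g, AddChar.one_apply]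
  have hd : δ ∉ P := fun g => h (P.mul_mem_left _ g)
  have hd' : Ideal.Quotient.mk P δ ≠ 0 := fun g => hd (Ideal.Quotient.eq_zero_iff_mem.1 g)
  have k1 := field_ja h2 φ hφ hd'
  have k2 := field_ja h2 φ hφ one_ne_zero
  simp only [map_one, Int.cast_one, one_mul] at k2
  have k3 : leg δ P = quadraticChar (𝓞 F ⧸ P) (Ideal.Quotient.mk P δ) := by
    rw [leg, if_neg hd]
    split_ifs with g
    exacts [((quadraticChar_one_iff_isSquare hd').2 g).symm,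
      (quadraticChar_neg_one_iff_not_isSquare.2 g).symm]
  rw [finsum_eq_sum_of_fintype, finsum_eq_sum_of_fintype, k3]
  simp only [← e, map_mul, map_pow, Ideal.Quotient.mk_out]
  rw [k1, k2]

theorem cls_ja {A : Ideal (𝓞 F)} (hA : A ≠ ⊥) {f : 𝓞 F → ℂ}
    (hf : ∀ x, ∀ l ∈ A, f (x + l) = f x) :
    ∑ᶠ u : 𝓞 F ⧸ A, f u.out = cls ⊤ A.toAddSubgroup f := by
  have := A.finiteQuotientOfFreeOfNeBot hA
  let _ := Fintype.ofFinite (𝓞 F ⧸ A)
  rw [finsum_eq_sum_of_fintype]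
  exact (cls_param (fun x _ l hl => hf x l hl) le_top univ (fun u : 𝓞 F ⧸ A => u.out)
    (fun _ _ => trivial) (fun _ _ _ _ g => inj_ja g) fun x _ => ⟨_, mem_univ _, out_ja A x⟩).symm

theorem idx_ja {A : Ideal (𝓞 F)} (hA : A ≠ ⊥) : A.toAddSubgroup.relIndex ⊤ ≠ 0 := by
  have : Finite (𝓞 F ⧸ A.toAddSubgroup) := A.finiteQuotientOfFreeOfNeBot hA
  rw [AddSubgroup.relIndex_top_right]
  exact AddSubgroup.index_ne_zero_of_finite

omit [NumberField F] in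
theorem sq_ja {A : Ideal (𝓞 F)} {ψ : AddChar (𝓞 F) ℂ}
    (hψ : ∀ x, (∀ y, ψ (x * y) = 1) ↔ x ∈ A) (a x : 𝓞 F) :
    ∀ l ∈ A, ψ (a * (x + l) ^ 2) = ψ (a * x ^ 2) := fun l hl =>
  per_ja hψ (by
    rw [show a * (x + l) ^ 2 - a * x ^ 2 = a * (2 * x + l) * l by ring]
    exact A.mul_mem_left _ hl)

theorem crt_ja {P B : Ideal (𝓞 F)} (hP : P ≠ ⊥) (hB : B ≠ ⊥) {ψ : AddChar (𝓞 F) ℂ}
    (hψ : ∀ x, (∀ y, ψ (x * y) = 1) ↔ x ∈ P * B) {p b : 𝓞 F} (hp : p ∈ P) (hb : b ∈ B)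
    (h : p + b = 1) (a : 𝓞 F) :
    ∑ᶠ u : 𝓞 F ⧸ P * B, ψ (a * u.out ^ 2) =
      (∑ᶠ u : 𝓞 F ⧸ P, ψ.mulShift (b ^ 2) (a * u.out ^ 2)) *
        ∑ᶠ u : 𝓞 F ⧸ B, ψ.mulShift (p ^ 2) (a * u.out ^ 2) := by
  have := P.finiteQuotientOfFreeOfNeBot hP
  have := B.finiteQuotientOfFreeOfNeBot hB
  let _ := Fintype.ofFinite (𝓞 F ⧸ P)
  let _ := Fintype.ofFinite (𝓞 F ⧸ B)
  rw [cls_ja (mul_ne_zero hP hB) (f := fun u => ψ (a * u ^ 2)) (sq_ja hψ a),
    cls_param (fun x _ l hl => sq_ja hψ a x l hl) le_top univ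
      (fun u : (𝓞 F ⧸ P) × (𝓞 F ⧸ B) => b * u.1.out + p * u.2.out) (fun _ _ => trivial)
      (fun u _ v _ g => ?_) fun x _ => ⟨(Ideal.Quotient.mk P x, Ideal.Quotient.mk B x),
        mem_univ _, ?_⟩, finsum_eq_sum_of_fintype, finsum_eq_sum_of_fintype, sum_mul_sum,
    Fintype.sum_prod_type]
  · refine sum_congr rfl fun u _ => sum_congr rfl fun v _ => ?_
    rw [AddChar.mulShift_apply, AddChar.mulShift_apply, ← AddChar.map_add_eq_mul]
    refine per_ja hψ ?_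
    rw [show a * (b * u.out + p * v.out) ^ 2 - (b ^ 2 * (a * u.out ^ 2) + p ^ 2 * (a * v.out ^ 2))
      = 2 * a * u.out * v.out * (p * b) by ring]
    exact Ideal.mul_mem_left _ _ (Ideal.mul_mem_mul hp hb)
  · have g' : b * u.1.out + p * u.2.out - (b * v.1.out + p * v.2.out) ∈ P * B := g
    refine Prod.ext (inj_ja ?_) (inj_ja ?_)
    · have := P.add_mem (Ideal.mul_le_left g')
        (P.mul_mem_right (u.1.out - v.1.out - (u.2.out - v.2.out)) hp)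
      convert this using 1
      linear_combination (v.1.out - u.1.out) * h
    · have := B.add_mem (Ideal.mul_le_right g')
        (B.mul_mem_right (u.2.out - v.2.out - (u.1.out - v.1.out)) hb)
      convert this using 1
      linear_combination (v.2.out - u.2.out) * h
  · have := (P * B).add_mem (Ideal.mul_mem_mul (out_ja P x) hb) (Ideal.mul_mem_mul hp (out_ja B x))
    change _ ∈ P * B
    convert this using 1
    linear_combination (-x) * h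

theorem canc_ja {P M B : Ideal (𝓞 F)} (hP : P ≠ ⊥) {π : 𝓞 F} (h : Ideal.span {π} = P * M)
    (hc : IsCoprime B M) (v : 𝓞 F) : π * v ∈ P * B ↔ v ∈ B := by
  rw [← Ideal.span_singleton_le_iff_mem, ← Ideal.span_singleton_le_iff_mem, ← Ideal.dvd_iff_le,
    ← Ideal.dvd_iff_le, ← Ideal.span_singleton_mul_span_singleton, h, mul_assoc,
    mul_dvd_mul_iff_left hP]
  exact ⟨hc.dvd_of_dvd_mul_left, fun g => g.mul_left _⟩

omit [NumberField F] in
theorem unit_ja {A : Ideal (𝓞 F)} {c x : 𝓞 F} (h : A ⊔ Ideal.span {c} = ⊤) (g : c * x ∈ A) :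
    x ∈ A := by
  obtain ⟨a, ha, y, hy, e⟩ := Submodule.mem_sup.1 ((Ideal.eq_top_iff_one _).1 h)
  obtain ⟨z, rfl⟩ := Ideal.mem_span_singleton'.1 hy
  have := A.add_mem (A.mul_mem_right x ha) (A.mul_mem_left z g)
  convert this using 1
  linear_combination (-x) * e

omit [NumberField F] in
theorem shift_ja {A C : Ideal (𝓞 F)} {ψ : AddChar (𝓞 F) ℂ}
    (hψ : ∀ x, (∀ y, ψ (x * y) = 1) ↔ x ∈ A) {c : 𝓞 F} (h : ∀ x, c * x ∈ A ↔ x ∈ C) (x : 𝓞 F) :
    (∀ y, ψ.mulShift c (x * y) = 1) ↔ x ∈ C := by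
  simp only [AddChar.mulShift_apply, ← mul_assoc, hψ, h]

theorem two_ja {P C : Ideal (𝓞 F)} (hP : P ≠ ⊥) (hC : C ≠ ⊥) {ψ : AddChar (𝓞 F) ℂ}
    (hψ : ∀ x, (∀ y, ψ (x * y) = 1) ↔ x ∈ P * (P * C)) {π : 𝓞 F}
    (h1 : P * (P * C) ⊔ Ideal.span {π} = P) (h2 : ∀ v, π * v ∈ P * (P * C) ↔ v ∈ P * C)
    (h3 : ∀ v, π ^ 2 * v ∈ P * (P * C) ↔ v ∈ C) (a : 𝓞 F)
    (ha : P * (P * C) ⊔ Ideal.span {2 * a} = ⊤) :
    ∑ᶠ u : 𝓞 F ⧸ P * (P * C), ψ (a * u.out ^ 2) =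
      (P * C).toAddSubgroup.relIndex C.toAddSubgroup *
        ∑ᶠ u : 𝓞 F ⧸ C, ψ.mulShift (π ^ 2) (a * u.out ^ 2) := by
  have hL : P * C ≠ ⊥ := mul_ne_zero hP hC
  have hA : P * (P * C) ≠ ⊥ := mul_ne_zero hP hL
  have hπ : π ∈ P := h1 ▸ Ideal.mem_sup_right (Ideal.mem_span_singleton_self π)
  have hψ' := shift_ja hψ h3
  have := (P * C).finiteQuotientOfFreeOfNeBot hL
  let _ := Fintype.ofFinite (𝓞 F ⧸ P * C)
  rw [cls_ja hA (f := fun u => ψ (a * u ^ 2)) (sq_ja hψ a),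
    cls_inv (H := P.toAddSubgroup) (L := (P * C).toAddSubgroup)
      (ψ := fun x l => ψ (2 * a * x * l)) (fun x hx => Ideal.mul_le_right hx)
      (fun x hx => Ideal.mul_le_left hx) le_top (idx_ja hA) (fun x _ l hl => ?_)
      (fun x _ l hl => ?_) (fun x _ l _ l' _ => by rw [mul_add, AddChar.map_add_eq_mul])
      fun x _ g => ?_,
    cls_param (fun x _ l hl => sq_ja hψ a x l hl) (fun x hx => Ideal.mul_le_left hx) univ
      (fun u : 𝓞 F ⧸ P * C => π * u.out) (fun _ _ => P.mul_mem_right _ hπ)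
      (fun u _ v _ g => inj_ja ((h2 _).1 (by rw [mul_sub]; exact g))) fun x hx => ?_,
    cls_ja hC (f := fun u => ψ.mulShift (π ^ 2) (a * u ^ 2)) (sq_ja hψ' a),
    ← cls_refine (fun x _ l hl => sq_ja hψ' a x l hl) (fun x hx => Ideal.mul_le_right hx) le_top
      (idx_ja hL), ← cls_ja hL fun x l hl => sq_ja hψ' a x l (Ideal.mul_le_right hl),
    finsum_eq_sum_of_fintype]
  · refine sum_congr rfl fun u _ => ?_
    rw [AddChar.mulShift_apply]
    congr 1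
    ring
  · have hx' : x ∈ P * (P * C) ⊔ Ideal.span {π} := by rw [h1]; exact hx
    obtain ⟨c, hc, y, hy, rfl⟩ := Submodule.mem_sup.1 hx'
    obtain ⟨z, rfl⟩ := Ideal.mem_span_singleton'.1 hy
    refine ⟨Ideal.Quotient.mk _ z, mem_univ _, ?_⟩
    have := Ideal.add_mem _ hc ((h2 _).2 (out_ja _ z))
    change _ ∈ P * (P * C)
    convert this using 1
    ring
  · rw [← AddChar.map_add_eq_mul]
    refine per_ja hψ ?_
    rw [show a * (x + l) ^ 2 - (a * x ^ 2 + 2 * a * x * l) = a * (l * l) by ring]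
    exact Ideal.mul_mem_left _ _ (Ideal.mul_mem_mul (Ideal.mul_le_left hl) hl)
  · rw [mul_comm]
    exact (hψ l).2 hl _
  · have g1 : Ideal.span {x} * (P * C) ≤ P * (P * C) := Ideal.mul_le.2 fun r hr l hl => by
      obtain ⟨z, rfl⟩ := Ideal.mem_span_singleton'.1 hr
      rw [mul_assoc]
      refine Ideal.mul_mem_left _ _ (unit_ja ha ((hψ _).1 fun y => ?_))
      rw [← g (l * y) (Ideal.mul_mem_right _ _ hl)]
      congr 1
      ring
    rw [← Ideal.dvd_iff_le, mul_dvd_mul_iff_right hL, Ideal.dvd_iff_le,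
      Ideal.span_singleton_le_iff_mem] at g1
    exact g1

theorem jac_char (A : Ideal (𝓞 F)) (hA : A ≠ ⊥) (ψ : AddChar (𝓞 F) ℂ)
    (hψ : ∀ x, (∀ y, ψ (x * y) = 1) ↔ x ∈ A) (δ : 𝓞 F) (h : A ⊔ Ideal.span {2 * δ} = ⊤) :
    ∑ᶠ u : 𝓞 F ⧸ A, ψ (δ * u.out ^ 2) = jac δ A * ∑ᶠ u : 𝓞 F ⧸ A, ψ (u.out ^ 2) := by
  induction A using (wellFounded_dvdNotUnit (α := Ideal (𝓞 F))).induction generalizing ψ with
  | _ A ih =>
  by_cases hT : A = ⊤
  · subst hT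
    have e : ∀ x, ψ x = 1 := fun x => by simpa using (hψ x).2 trivial 1
    simp [e, jac_top]
  obtain ⟨P, hP, hAP⟩ := Ideal.exists_le_maximal A hT
  obtain ⟨B, rfl⟩ := Ideal.dvd_iff_le.2 hAP
  have hP0 : P ≠ ⊥ := left_ne_zero_of_mul hA
  have hB0 : B ≠ ⊥ := right_ne_zero_of_mul hA
  have hu : ¬ IsUnit P := fun g => hP.ne_top (Ideal.isUnit_iff.1 g)
  have up : ∀ {I J : Ideal (𝓞 F)} {c d : 𝓞 F}, I ⊔ Ideal.span {c} = ⊤ → I ≤ J → d ∣ c →
      J ⊔ Ideal.span {d} = ⊤ := fun g1 g2 g3 =>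
    top_le_iff.1 (g1 ▸ sup_le_sup g2 (Ideal.span_singleton_le_span_singleton.2 g3))
  by_cases hPB : P ∣ B
  · obtain ⟨C, rfl⟩ := hPB
    have hC0 : C ≠ ⊥ := right_ne_zero_of_mul hB0
    obtain ⟨π, h1⟩ := IsDedekindDomain.exists_sup_span_eq hAP hA
    obtain ⟨M, hM⟩ : P ∣ Ideal.span {π} := Ideal.dvd_iff_le.2 (h1 ▸ le_sup_right)
    have hc : IsCoprime (P * C) M := by
      rw [Ideal.isCoprime_iff_sup_eq]
      refine mul_left_cancel₀ hP0 ?_
      rw [Ideal.mul_sup, ← hM, h1, Ideal.mul_top]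
    have h2 := canc_ja hP0 hM hc
    have h3 : ∀ v, π ^ 2 * v ∈ P * (P * C) ↔ v ∈ C := fun v => by
      rw [sq, mul_assoc, h2, canc_ja hP0 hM hc.of_mul_left_right]
    have k1 := two_ja hP0 hC0 hψ h1 h2 h3 1 (up h le_rfl (by simp))
    simp only [one_mul] at k1
    have k2 : (jac δ P : ℂ) ^ 2 = 1 := by
      rcases jac_sq δ hP0 (up h hAP (dvd_mul_left _ _)) with g | g <;> simp [g]
    rw [two_ja hP0 hC0 hψ h1 h2 h3 δ h, k1, ih C ⟨hC0, P * P, fun g => hu (isUnit_of_mul_isUnit_left g),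
      by ring⟩ hC0 _ (shift_ja hψ h3) (up h (Ideal.mul_le_right.trans Ideal.mul_le_right) dvd_rfl),
      jac_mul δ hP0 hB0, jac_mul δ hP0 hC0]
    push_cast
    linear_combination (-((P * C).toAddSubgroup.relIndex C.toAddSubgroup : ℂ) * jac δ C *
      ∑ᶠ u : 𝓞 F ⧸ C, ψ.mulShift (π ^ 2) (u.out ^ 2)) * k2
  · have hs : P ⊔ B = ⊤ := by
      by_contra g
      exact hPB (Ideal.dvd_iff_le.2 (hP.eq_of_le g le_sup_left ▸ le_sup_right))
    obtain ⟨p, hp, b, hb, e⟩ := Submodule.mem_sup.1 ((Ideal.eq_top_iff_one _).1 hs)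
    have sh : ∀ {I J : Ideal (𝓞 F)} {p b : 𝓞 F}, p ∈ I → b ∈ J → p + b = 1 →
        ∀ x, b ^ 2 * x ∈ I * J ↔ x ∈ I := fun {I J p b} g1 g2 g3 x => by
      refine ⟨fun g => ?_, fun g => ?_⟩
      · have := I.add_mem (Ideal.mul_le_left g) (I.mul_mem_right ((1 + b) * x) g1)
        convert this using 1
        linear_combination (-(1 + b) * x) * g3
      · rw [show b ^ 2 * x = x * (b * b) by ring]
        exact Ideal.mul_mem_mul g (J.mul_mem_left _ g2)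
    have k1 := crt_ja hP0 hB0 hψ hp hb e 1
    simp only [one_mul] at k1
    rw [crt_ja hP0 hB0 hψ hp hb e δ, k1,
      prime_ja hP hP0 _ (shift_ja hψ (sh hp hb e)) δ fun g => hP.ne_top (top_le_iff.1
        (h ▸ sup_le hAP ((Ideal.span_singleton_le_iff_mem _).2 g))),
      ih B ⟨hB0, P, hu, mul_comm _ _⟩ hB0 _
        (shift_ja hψ fun x => by rw [mul_comm P, sh hb hp (by rw [add_comm, e])])
        (up h Ideal.mul_le_right dvd_rfl), jac_mul δ hP0 hB0,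
      jac_prime δ (Ideal.prime_of_isPrime hP0 hP.isPrime)]
    push_cast
    ring

end Pool.Agent.MP_48b1c3_nt.H99
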