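import Pool.Agent.MP_48b1c3_nt.H99.Spl

/-! Comparison of von Mangoldt functions. -/

namespace Pool.Agent.MP_48b1c3_nt.H99

open Finset NumberField H54 H91 Filter UniqueFactorizationMonoid
open scoped Classical ComplexOrder Topology

variable {F : Type} [Field F] [NumberField F] {K : Type} [Field K] [NumberField K] [Algebra F K]
  [Algebra.IsQuadraticExtension F K]

omit [NumberField F] [Algebra F K] [Algebra.IsQuadraticExtension F K] in
theorem prime_of_max_lam {Q : Ideal (𝓞 K)} (hQ : Q.IsMaximal) : Prime Q :=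
  Ideal.prime_of_isPrime (Ring.ne_bot_of_isMaximal_of_not_isField hQ (RingOfIntegers.not_isField K))
    hQ.isPrime

theorem fibre_lam {δ : 𝓞 F} (h : Sq K δ) {P : Ideal (𝓞 F)} (hP : Prime P) (h2 : 2 * δ ∉ P)
    {k : ℕ} (hk : k ≠ 0) :
    lam (P ^ k) * (1 + jac δ (P ^ k)) ≤ ∑ J ∈ idN K (Ideal.absNorm (P ^ k)) with
      J.radical.comap (algebraMap (𝓞 F) (𝓞 K)) = P, lam J := by
  have hm := (Ideal.isPrime_of_prime hP).isMaximal hP.ne_zero
  have hδ : δ ∉ P := fun e => h2 (P.mul_mem_left _ e)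
  rw [arith_lam_pow hP hk, jac_pow δ hP.ne_zero, jac_prime δ hP]
  have hl : leg δ P = 1 ∨ leg δ P = -1 := by
    rw [leg, if_neg hδ]
    split_ifs
    exacts [Or.inl rfl, Or.inr rfl]
  rcases hl with hl | hl
  · obtain ⟨Q, Q', hne, m1, m2, c1, c2, n1, n2⟩ := split_one h hm h2 hl
    have p1 := prime_of_max_lam m1
    have p2 := prime_of_max_lam m2
    have hne' : Q ^ k ≠ Q' ^ k := fun e => hne (by rw [← arith_rad p1 hk, e, arith_rad p2 hk])
    refine le_trans ?_ (sum_le_sum_of_subset_of_nonneg (s := {Q ^ k, Q' ^ k}) ?_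
      fun J _ _ => lam_nonneg J)
    · rw [sum_pair hne', arith_lam_pow p1 hk, arith_lam_pow p2 hk, n1, n2, hl]
      simp only [one_pow, Int.cast_one]
      linarith
    · intro J hJ
      rw [mem_filter, mem_idN]
      rcases mem_insert.1 hJ with rfl | hJ
      · rw [arith_rad p1 hk, map_pow, map_pow, n1]
        exact ⟨rfl, c1⟩
      · rw [mem_singleton.1 hJ, arith_rad p2 hk, map_pow, map_pow, n2]
        exact ⟨rfl, c2⟩
  · rcases Nat.even_or_odd k with ⟨j, rfl⟩ | hodd
    · obtain ⟨Q, m1, c1, n1⟩ := inert_one h hm hl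
      have p1 := prime_of_max_lam m1
      have hj : j ≠ 0 := by omega
      refine le_trans ?_ (single_le_sum (a := Q ^ j) (fun J _ => lam_nonneg J) ?_)
      · rw [arith_lam_pow p1 hj, n1, hl, Even.neg_one_pow ⟨j, rfl⟩, Nat.cast_pow, Real.log_pow]
        simp only [Int.cast_one, Nat.cast_ofNat]
        linarith
      · rw [mem_filter, mem_idN, arith_rad p1 hj, map_pow, map_pow, n1, ← pow_mul, two_mul]
        exact ⟨rfl, c1⟩
    · rw [hl, hodd.neg_one_pow]
      simpa using sum_nonneg fun J _ => lam_nonneg J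

theorem lam_le {δ : 𝓞 F} (h : Sq K δ) {m : ℕ} (h0 : m ≠ 0) (hm : m.Coprime (2 * (nm δ).natAbs)) :
    ∑ I ∈ idN F m, lam I * (1 + jac δ I) ≤ lamK K m := by
  have key : ∀ I ∈ (idN F m).filter IsPrimePow, Prime I.radical ∧ ∃ k : ℕ, k ≠ 0 ∧
      I.radical ^ k = I ∧ Ideal.absNorm I = m := fun I hI => by
    obtain ⟨h1, P, k, hP, hk, rfl⟩ := mem_filter.1 hI
    rw [arith_rad hP hk.ne']
    exact ⟨hP, k, hk.ne', rfl, (mem_idN F).1 h1⟩
  have one_lt : ∀ P : Ideal (𝓞 F), Prime P → 1 < Ideal.absNorm P := fun P hP => by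
    have a : Ideal.absNorm P ≠ 0 := fun e => hP.ne_zero (Ideal.absNorm_eq_zero_iff.1 e)
    have b : Ideal.absNorm P ≠ 1 := fun e =>
      (Ideal.isPrime_of_prime hP).ne_top (Ideal.absNorm_eq_one_iff.1 e)
    omega
  have e1 : ∑ I ∈ idN F m, lam I * (1 + jac δ I) =
      ∑ I ∈ (idN F m).filter IsPrimePow, lam I * (1 + jac δ I) := by
    rw [sum_filter]
    refine sum_congr rfl fun I _ => ?_
    split_ifs with hI
    · rfl
    · rw [lam, if_neg hI, zero_mul]
  rw [e1, lamK, if_neg h0]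
  refine le_trans ?_ (sum_fiberwise_le_sum_of_sum_fiber_nonneg
    (t := ((idN F m).filter IsPrimePow).image Ideal.radical)
    (g := fun J : Ideal (𝓞 K) => J.radical.comap (algebraMap (𝓞 F) (𝓞 K)))
    fun _ _ => sum_nonneg fun J _ => lam_nonneg J)
  rw [sum_image]
  · refine sum_le_sum fun I hI => ?_
    obtain ⟨hP, k, hk, e, n⟩ := key I hI
    have h2 : 2 * δ ∉ I.radical := fun g => by
      have d1 := Ideal.absNorm_dvd_absNorm_of_le ((Ideal.span_singleton_le_iff_mem _).2 g)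
      have d2 : Ideal.absNorm I.radical ∣ m := by
        rw [← n, ← e, map_pow, e]
        exact dvd_pow_self _ hk
      have e2 : (2 : 𝓞 F) = algebraMap ℤ (𝓞 F) 2 := by simp
      rw [Ideal.absNorm_span_singleton, map_mul, e2, Algebra.norm_algebraMap, Int.natAbs_mul,
        Int.natAbs_pow] at d1
      have c1 : m.Coprime ((2 : ℤ).natAbs ^ Module.finrank ℤ (𝓞 F) * (Algebra.norm ℤ δ).natAbs) :=
        (Nat.Coprime.pow_right _ (Nat.Coprime.coprime_mul_right_right hm)).mul_right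
          (Nat.Coprime.coprime_mul_left_right hm)
      exact (one_lt _ hP).ne' (Nat.eq_one_of_dvd_coprimes c1 d2 d1)
    have := fibre_lam h hP h2 hk
    rwa [e, n] at this
  · intro I hI J hJ e
    obtain ⟨hP, a, -, a4, a6⟩ := key I hI
    obtain ⟨-, b, -, b4, b6⟩ := key J hJ
    rw [← b4, ← e, map_pow, ← a6, ← a4, map_pow, a4] at b6
    rw [← a4, ← b4, ← e, Nat.pow_right_injective (one_lt _ hP) b6]

end Pool.Agent.MP_48b1c3_nt.H99
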