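import Pool.Agent.MP_48b1c3_nt.H99.Gs
import Pool.Agent.MP_48b1c3_nt.H99.Inv
import Pool.Agent.MP_48b1c3_nt.H99.Diag

/-! The formula of Milgram for trace forms. -/

namespace Pool.Agent.MP_48b1c3_nt.H99

open Finset NumberField H54 H91 Filter UniqueFactorizationMonoid
open scoped Classical ComplexOrder Topology

variable {F : Type} [Field F] [NumberField F]

/-- the lattice `t 𝓞` -/
def lat_mil (t : F) : AddSubgroup F :=
  ((AddMonoidHom.mulLeft t).comp (algebraMap (𝓞 F) F).toAddMonoidHom).range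

omit [NumberField F] in
theorem mem_lat_mil {t x : F} : x ∈ lat_mil t ↔ ∃ z : 𝓞 F, t * z = x := Iff.rfl

/-- the lattice of the points whose scaled coordinates are integers -/
def co_mil {ι : Type} (e : Module.Basis ι ℚ F) (b : ι → ℚ) : AddSubgroup F where
  carrier := {x | ∀ i, ∃ k : ℤ, b i * e.repr x i = k}
  zero_mem' i := ⟨0, by simp⟩
  add_mem' hx hy i := by
    obtain ⟨k, hk⟩ := hx i
    obtain ⟨l, hl⟩ := hy i
    exact ⟨k + l, by rw [map_add, Finsupp.add_apply, mul_add, hk, hl, Int.cast_add]⟩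
  neg_mem' hx i := by
    obtain ⟨k, hk⟩ := hx i
    exact ⟨-k, by rw [map_neg, Finsupp.neg_apply, mul_neg, hk, Int.cast_neg]⟩

theorem idx_mil {m M : ℕ} (hm : m ≠ 0) (hM : M ≠ 0) :
    (lat_mil (M : F)).relIndex (lat_mil (m : F)⁻¹) ≠ 0 := by
  rw [lat_mil.eq_1 (m : F)⁻¹, ← AddSubgroup.index_comap]
  have m0 : (m : F) ≠ 0 := Nat.cast_ne_zero.2 hm
  have h0 : Ideal.span {((m * M : ℕ) : 𝓞 F)} ≠ ⊥ :=
    mt Ideal.span_singleton_eq_bot.1 (Nat.cast_ne_zero.2 (mul_ne_zero hm hM))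
  refine ne_zero_of_dvd_ne_zero (mt Ideal.absNorm_eq_zero_iff.1 h0)
    (AddSubgroup.index_dvd_of_le (H := (Ideal.span {((m * M : ℕ) : 𝓞 F)}).toAddSubgroup)
      fun x hx => ?_)
  obtain ⟨z, rfl⟩ := Ideal.mem_span_singleton'.1 hx
  refine ⟨z, ?_⟩
  simp only [AddMonoidHom.comp_apply, AddMonoidHom.coe_mulLeft, RingHom.toAddMonoidHom_eq_coe,
    AddMonoidHom.coe_coe, map_mul, map_natCast, Nat.cast_mul]
  field_simp

theorem den_mil (s : Finset F) : ∃ m : ℕ, m ≠ 0 ∧ ∀ x ∈ s, ∃ z : 𝓞 F, (z : F) = m * x := by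
  obtain ⟨y, y0, h⟩ := exists_integral_multiples ℤ ℚ s
  refine ⟨y.natAbs, Int.natAbs_ne_zero.2 y0, fun x hx => ?_⟩
  obtain e | e := Int.natAbs_eq y
  · exact ⟨⟨y • x, h x hx⟩, by rw [← Int.cast_natCast, ← e, ← zsmul_eq_mul]; rfl⟩
  · refine ⟨-⟨y • x, h x hx⟩, ?_⟩
    rw [← Int.cast_natCast, show (y.natAbs : ℤ) = -y by omega, Int.cast_neg, neg_mul,
      ← zsmul_eq_mul]
    rfl

theorem tr_mil {ι : Type} [Fintype ι] [DecidableEq ι] {e : Module.Basis ι ℚ F} {a : ι → ℤ} {c : F}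
    (h : ∀ i j, Algebra.trace ℚ F (e i * e j / c) = if i = j then (a i : ℚ) else 0) (x y : F) :
    Algebra.trace ℚ F (x * y / c) = ∑ i, a i * (e.repr x i * e.repr y i) := by
  conv_lhs => rw [← e.sum_repr x, ← e.sum_repr y, sum_mul_sum]
  simp only [sum_div, map_sum, smul_mul_smul_comm, smul_div_assoc, map_smul, h, smul_eq_mul,
    mul_ite, mul_zero, sum_ite_eq, mem_univ, if_true]
  exact sum_congr rfl fun i _ => mul_comm _ _

theorem et_one_mil {x : F} {k : ℤ} (h : Algebra.trace ℚ F x = k) : et x = 1 := by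
  rw [et, h, Rat.cast_intCast, ec_int]

theorem ec_sum_mil {ι : Type} (T : Finset ι) (t : ι → ℝ) : ec (∑ i ∈ T, t i) = ∏ i ∈ T, ec (t i) := by
  simp only [ec, Complex.ofReal_sum, mul_sum, Complex.exp_sum]

theorem sq_mil (x l c : F) : et ((x + l) ^ 2 / c) = et (x ^ 2 / c) * et (2 * x * l / c) *
    et (l ^ 2 / c) := by
  rw [← et_add, ← et_add]
  congr 1
  ring

theorem bil_mil (x l l' c : F) : et (2 * x * (l + l') / c) = et (2 * x * l / c) *
    et (2 * x * l' / c) := by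
  rw [← et_add]
  congr 1
  ring

theorem gs_mil {c : 𝓞 F} (hc : c ≠ 0) :
    cls (lat_mil 1) (lat_mil (c : F)) (fun y : F => et (y ^ 2 / c)) = gs 1 c ∧
      ∀ x ∈ lat_mil (1 : F), ∀ l ∈ lat_mil (c : F), et ((x + l) ^ 2 / c) = et (x ^ 2 / c) := by
  have c0 : (c : F) ≠ 0 := by exact_mod_cast hc
  have hp : ∀ x ∈ lat_mil (1 : F), ∀ l ∈ lat_mil (c : F),
      et ((x + l) ^ 2 / c) = et (x ^ 2 / c) := by
    rintro _ ⟨x, rfl⟩ _ ⟨z, rfl⟩
    change et ((1 * (x : F) + c * z) ^ 2 / c) = et ((1 * (x : F)) ^ 2 / c)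
    rw [show (1 * (x : F) + c * z) ^ 2 / c = (1 * (x : F)) ^ 2 / c + ((2 * x * z + c * z ^ 2 :
      𝓞 F) : F) by
        simp only [map_add, map_mul, map_pow, map_ofNat]
        field_simp
        ring, et_add, et_int, mul_one]
  refine ⟨?_, hp⟩
  have := Ideal.finiteQuotientOfFreeOfNeBot _ (mt Ideal.span_singleton_eq_bot.1 hc)
  have := Fintype.ofFinite (𝓞 F ⧸ Ideal.span {c})
  rw [cls_param (G := lat_mil 1) (N := lat_mil (c : F)) (f := fun y : F => et (y ^ 2 / c)) hp (by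
    rintro _ ⟨z, rfl⟩
    exact ⟨c * z, by simp⟩) univ (fun u : 𝓞 F ⧸ Ideal.span {c} => ((u.out : 𝓞 F) : F))
    (fun u _ => ⟨u.out, one_mul _⟩) (fun u _ v _ ⟨z, hz⟩ => ?_) ?_, gs, finsum_eq_sum_of_fintype]
  · simp
  · rintro _ ⟨x, rfl⟩
    refine ⟨Ideal.Quotient.mk _ x, mem_univ _, ?_⟩
    obtain ⟨z, hz⟩ := Ideal.mem_span_singleton.1 (Ideal.Quotient.eq.1
      (Ideal.Quotient.mk_out (Ideal.Quotient.mk (Ideal.span {c}) x)).symm)
    refine ⟨z, ?_⟩
    have := congrArg (algebraMap (𝓞 F) F) hz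
    rw [map_sub, map_mul] at this
    simpa using this.symm
  · rw [← Ideal.Quotient.mk_out u, ← Ideal.Quotient.mk_out v, Ideal.Quotient.eq,
      Ideal.mem_span_singleton]
    refine ⟨z, RingOfIntegers.coe_injective ?_⟩
    rw [map_sub, map_mul]
    exact hz.symm

theorem diag_mil {ι : Type} [Fintype ι] [DecidableEq ι] {e : Module.Basis ι ℚ F} {a : ι → ℤ}
    {c : F} (ha : ∀ i, a i ≠ 0)
    (h : ∀ i j, Algebra.trace ℚ F (e i * e j / c) = if i = j then (a i : ℚ) else 0) :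
    co_mil e 1 ≤ co_mil e (fun i => 2 * a i) ∧ (∀ l ∈ co_mil e 1, et (l ^ 2 / c) = 1) ∧
      (∀ x, (∀ l ∈ co_mil e 1, et (2 * x * l / c) = 1) ↔ x ∈ co_mil e fun i => 2 * a i) ∧
      ∃ r : ℝ, 0 < r ∧ cls (co_mil e fun i => 2 * a i) (co_mil e 1) (fun y => et (y ^ 2 / c)) =
        r * ∏ i, e8 (a i) := by
  have h1 : co_mil e 1 ≤ co_mil e (fun i => 2 * a i) := fun x hx i => by
    obtain ⟨k, hk⟩ := hx i
    rw [Pi.one_apply, one_mul] at hk
    exact ⟨2 * a i * k, by rw [hk]; push_cast; rfl⟩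
  have h2 : ∀ l ∈ co_mil e 1, et (l ^ 2 / c) = 1 := fun l hl => by
    choose k hk using hl
    simp only [Pi.one_apply, one_mul] at hk
    exact et_one_mil (k := ∑ i, a i * (k i * k i)) (by rw [sq, tr_mil h]; simp [hk])
  have h3 : ∀ x, (∀ l ∈ co_mil e 1, et (2 * x * l / c) = 1) ↔
      x ∈ co_mil e fun i => 2 * a i := fun x => by
    have e2 : ∀ i, e.repr (2 * x) i = 2 * e.repr x i := fun i => by
      rw [two_mul, map_add, Finsupp.add_apply, two_mul]
    refine ⟨fun hx i => ?_, fun hx l hl => ?_⟩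
    · obtain ⟨k, hk⟩ := ec_eq_one (hx (e i) fun j => ⟨if i = j then 1 else 0, by
        simp [Finsupp.single_apply]⟩)
      refine ⟨k, ?_⟩
      rw [tr_mil h, sum_eq_single i (fun j _ hj => by simp [hj.symm])
        (by simp), e2] at hk
      simp only [Module.Basis.repr_self, Finsupp.single_eq_same, mul_one] at hk
      rw [show (2 : ℚ) * a i * e.repr x i = a i * (2 * e.repr x i) by ring]
      exact_mod_cast hk
    · choose k hk using hl
      choose j hj using hx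
      simp only [Pi.one_apply, one_mul] at hk
      refine et_one_mil (k := ∑ i, j i * k i) ?_
      rw [tr_mil h, Int.cast_sum]
      refine sum_congr rfl fun i _ => ?_
      rw [e2, Int.cast_mul, ← hj, hk]
      ring
  refine ⟨h1, h2, h3, ?_⟩
  choose r r0 hr using fun i => gs_one (ha i)
  have a0 : ∀ i, (a i : ℚ) ≠ 0 := fun i => Int.cast_ne_zero.2 (ha i)
  refine ⟨∏ i, r i, prod_pos fun i _ => r0 i, ?_⟩
  have hrep : ∀ (k : ι → ℕ) (i : ι), e.repr (e.equivFun.symm fun i => (k i : ℚ) / (2 * a i)) i =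
      (k i : ℚ) / (2 * a i) := fun k i => by
    rw [← e.equivFun_apply, LinearEquiv.apply_symm_apply]
  rw [cls_param (fun x hx l hl => by rw [sq_mil, h2 l hl, (h3 x).2 hx l hl, mul_one, mul_one]) h1
    (Fintype.piFinset fun i => range (2 * (a i).natAbs))
    (fun k => e.equivFun.symm fun i => (k i : ℚ) / (2 * a i))
    (fun k _ i => ⟨k i, by
      have := a0 i
      rw [hrep]
      push_cast
      field_simp⟩) (fun k hk l hl g => funext fun i => ?_) fun x hx => ?_]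
  · rw [Complex.ofReal_prod, ← prod_mul_distrib, ← prod_congr rfl fun i _ => hr i,
      prod_univ_sum]
    refine sum_congr rfl fun k _ => ?_
    rw [← ec_sum_mil, et, sq, tr_mil h, Rat.cast_sum]
    refine congrArg _ (sum_congr rfl fun i _ => ?_)
    have : (a i : ℝ) ≠ 0 := Int.cast_ne_zero.2 (ha i)
    rw [hrep]
    push_cast
    field_simp
    norm_num
  · obtain ⟨t, ht⟩ := g i
    have := a0 i
    rw [map_sub, Finsupp.sub_apply, hrep, hrep, Pi.one_apply, one_mul, ← sub_div,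
      div_eq_iff (by positivity)] at ht
    have e1 : (k i : ℤ) - l i = t * (2 * a i) := by exact_mod_cast ht
    have k1 := mem_range.1 (Fintype.mem_piFinset.1 hk i)
    have l1 := mem_range.1 (Fintype.mem_piFinset.1 hl i)
    have e2 : (2 * a i) ∣ (k i : ℤ) - l i := ⟨t, by rw [e1, mul_comm]⟩
    have := Int.eq_zero_of_dvd_of_natAbs_lt_natAbs e2 (by omega)
    omega
  · choose j hj using hx
    have p0 : ∀ i, 2 * a i ≠ 0 := fun i => mul_ne_zero two_ne_zero (ha i)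
    refine ⟨fun i => (j i % (2 * a i)).toNat, Fintype.mem_piFinset.2 fun i => mem_range.2 ?_,
      fun i => ⟨j i / (2 * a i), ?_⟩⟩
    · have := Int.emod_nonneg (j i) (p0 i)
      have := Int.emod_lt (j i) (p0 i)
      omega
    · have := a0 i
      have e1 : (((j i % (2 * a i)).toNat : ℕ) : ℚ) = j i - 2 * a i * (j i / (2 * a i) : ℤ) := by
        rw [← Int.cast_natCast, Int.toNat_of_nonneg (Int.emod_nonneg _ (p0 i)), Int.emod_def]
        push_cast
        rfl
      rw [map_sub, Finsupp.sub_apply, hrep, Pi.one_apply, one_mul, e1, ← hj]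
      field_simp
      ring

theorem milgram [IsTotallyReal F] {c : 𝓞 F} (hc : c ≠ 0) :
    ∃ r : ℝ, 0 < r ∧ gs 1 (4 * (DD F : 𝓞 F) ^ 2 * c) = r * ph (c : F) := by
  have D0 : (DD F : F) ≠ 0 := Nat.cast_ne_zero.2 (DD_pos F).ne'
  have c0 : (c : F) ≠ 0 := by exact_mod_cast hc
  obtain ⟨g1, g2⟩ := gs_mil (c := 4 * (DD F : 𝓞 F) ^ 2 * c) (mul_ne_zero (mul_ne_zero
    (by norm_num) (pow_ne_zero _ (Nat.cast_ne_zero.2 (DD_pos F).ne'))) hc)
  rw [← g1]
  have ec : ((4 * (DD F : 𝓞 F) ^ 2 * c : 𝓞 F) : F) = 4 * (DD F : F) ^ 2 * c := by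
    simp only [map_mul, map_pow, map_ofNat, map_natCast]
  have hph : ph (4 * (DD F : F) ^ 2 * c) = ph (c : F) := prod_congr rfl fun σ _ => by
    have : (0 : ℝ) < 4 * (DD F : ℝ) ^ 2 := by have := DD_pos F; positivity
    rw [show σ (4 * (DD F : F) ^ 2 * c) = ((4 * (DD F : ℝ) ^ 2 : ℝ) : ℂ) * σ c by
      simp [map_ofNat], Complex.re_ofReal_mul, e8, e8]
    simp only [mul_pos_iff_of_pos_left this]
  rw [ec] at g2 ⊢
  rw [← hph]
  generalize hC : 4 * (DD F : F) ^ 2 * c = C at g2 ⊢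
  have C0 : C ≠ 0 := hC ▸ mul_ne_zero (mul_ne_zero (by norm_num) (pow_ne_zero _ D0)) c0
  obtain ⟨e, a, ha, he, hp⟩ := diag C0
  obtain ⟨d1, d2, d3, r, r0, d4⟩ := diag_mil ha he
  have a0 : ∀ i, (a i : F) ≠ 0 := fun i => Int.cast_ne_zero.2 (ha i)
  obtain ⟨m, m0, hm⟩ := den_mil (insert C⁻¹ ((univ.image fun i => e i / (2 * a i)) ∪
    univ.image fun i => e i / (a i * C)))
  have m1 : (m : F) ≠ 0 := Nat.cast_ne_zero.2 m0
  obtain ⟨w, hw⟩ := hm _ (mem_insert_self _ _)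
  choose u hu using fun i => hm _ (mem_insert_of_mem (mem_union_left _
    (mem_image_of_mem _ (mem_univ i))))
  choose v hv using fun i => hm _ (mem_insert_of_mem (mem_union_right _
    (mem_image_of_mem _ (mem_univ i))))
  have hi := idx_mil (F := F) m0 (mul_ne_zero m0 m0)
  have hN : ∀ x ∈ lat_mil (m : F)⁻¹, ∀ l ∈ lat_mil ((m * m : ℕ) : F),
      et (2 * x * l / C) = 1 := by
    rintro _ ⟨x, rfl⟩ _ ⟨z, rfl⟩
    rw [← et_int (2 * x * z * w)]
    congr 1
    change 2 * ((m : F)⁻¹ * x) * (((m * m : ℕ) : F) * z) / C = _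
    simp only [map_mul, map_ofNat, Nat.cast_mul]
    rw [show algebraMap (𝓞 F) F w = _ from hw]
    field_simp
  have n1 : lat_mil ((m * m : ℕ) : F) ≤ lat_mil C := by
    rintro _ ⟨z, rfl⟩
    refine mem_lat_mil.2 ⟨w * m * z, ?_⟩
    change _ = ((m * m : ℕ) : F) * z
    simp only [map_mul, map_natCast, Nat.cast_mul]
    rw [show algebraMap (𝓞 F) F w = _ from hw]
    field_simp
  have n2 : lat_mil C ≤ lat_mil (2 * DD F * c : F) := by
    rintro _ ⟨z, rfl⟩
    refine mem_lat_mil.2 ⟨2 * DD F * z, ?_⟩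
    change _ = C * z
    simp only [map_mul, map_natCast, map_ofNat, ← hC]
    ring
  have n3 : lat_mil (2 * DD F * c : F) ≤ lat_mil 1 := by
    rintro _ ⟨z, rfl⟩
    refine mem_lat_mil.2 ⟨2 * DD F * c * z, ?_⟩
    change _ = (2 * DD F * c : F) * z
    simp only [map_mul, map_natCast, map_ofNat, one_mul]
  have n4 : lat_mil (1 : F) ≤ lat_mil (m : F)⁻¹ := by
    rintro _ ⟨z, rfl⟩
    refine mem_lat_mil.2 ⟨m * z, ?_⟩
    change _ = (1 : F) * z
    simp only [map_mul, map_natCast]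
    field_simp
  have n5 : lat_mil ((m * m : ℕ) : F) ≤ co_mil e 1 := by
    rintro _ ⟨z, rfl⟩ i
    refine ⟨Algebra.trace ℤ (𝓞 F) (m * z * v i), ?_⟩
    have := tr_mil he (((m * m : ℕ) : F) * z) (e i)
    rw [sum_eq_single i (fun j _ hj => by simp [hj.symm]) (by simp)] at this
    simp only [Module.Basis.repr_self, Finsupp.single_eq_same, mul_one] at this
    rw [Pi.one_apply, one_mul, Algebra.coe_trace_int]
    refine mul_left_cancel₀ (Int.cast_ne_zero.2 (ha i) : (a i : ℚ) ≠ 0) (this.symm.trans ?_)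
    rw [← zsmul_eq_mul, ← map_zsmul, zsmul_eq_mul]
    congr 1
    have := a0 i
    simp only [map_mul, map_natCast, Nat.cast_mul]
    rw [show algebraMap (𝓞 F) F (v i) = _ from hv i]
    field_simp
  have n6 : co_mil e (fun i => 2 * a i) ≤ lat_mil (m : F)⁻¹ := fun x hx => by
    choose j hj using hx
    rw [← e.sum_repr x]
    refine sum_mem fun i _ => mem_lat_mil.2 ⟨j i * u i, ?_⟩
    have := a0 i
    have e1 : (j i : F) = 2 * a i * (e.repr x i : F) := by
      rw [← Rat.cast_intCast (α := F) (j i), ← hj]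
      push_cast
      rfl
    simp only [map_mul, map_intCast]
    rw [show algebraMap (𝓞 F) F (u i) = _ from hu i, e1, Rat.smul_def]
    field_simp
  have k1 := cls_inv (f := fun y => et (y ^ 2 / C)) (ψ := fun x l => et (2 * x * l / C))
    (n1.trans n2) n3 n4 hi (fun x _ l hl => by
      obtain ⟨z, rfl⟩ := mem_lat_mil.1 hl
      rw [sq_mil, show (2 * DD F * c * z : F) ^ 2 / C = ((c * z ^ 2 : 𝓞 F) : F) by
        simp only [map_mul, map_pow, ← hC]
        field_simp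
        ring, et_int, mul_one]) hN (fun x _ l _ l' _ => bil_mil x l l' C) fun x _ hx => by
      obtain ⟨z, hz⟩ := dual_int (x := x / DD F) fun y => by
        rw [← hx _ (mem_lat_mil.2 ⟨y, rfl⟩), ← hC]
        congr 1
        field_simp
        norm_num
      exact mem_lat_mil.2 ⟨z, by rw [hz]; field_simp⟩
  have k2 := cls_inv (f := fun y => et (y ^ 2 / C)) (ψ := fun x l => et (2 * x * l / C))
    n5 d1 n6 hi (fun x _ l hl => by rw [sq_mil, d2 l hl, mul_one]) hN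
    (fun x _ l _ l' _ => bil_mil x l l' C) fun x _ hx => (d3 x).1 hx
  have z1 := mt (AddSubgroup.relIndex_eq_zero_of_le_right n4) hi
  have z2 := mt (AddSubgroup.relIndex_eq_zero_of_le_right n6) hi
  rw [k1, cls_refine g2 n1 (n2.trans n3) z1, cls_refine (fun x hx l hl => by
    rw [sq_mil, d2 l hl, (d3 x).2 hx l hl, mul_one, mul_one]) n5 d1 z2, d4, hp] at k2
  have p1 := Nat.pos_of_ne_zero
    (mt (AddSubgroup.relIndex_eq_zero_of_le_right ((n2.trans n3).trans n4)) hi)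
  have p2 := Nat.pos_of_ne_zero
    (mt (AddSubgroup.relIndex_eq_zero_of_le_right (d1.trans n6)) hi)
  generalize (lat_mil ((m * m : ℕ) : F)).relIndex (lat_mil C) = A at k2 p1
  generalize (lat_mil ((m * m : ℕ) : F)).relIndex (co_mil e 1) = B at k2 p2
  refine ⟨B * r / A, by positivity, mul_left_cancel₀ (Nat.cast_ne_zero.2 p1.ne' : (A : ℂ) ≠ 0) ?_⟩
  have : (A : ℂ) ≠ 0 := Nat.cast_ne_zero.2 p1.ne'
  rw [k2]
  push_cast
  field_simp

end Pool.Agent.MP_48b1c3_nt.H99
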