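import Pool.Agent.MP_48b1c3_nt.H99.Mil
import Pool.Agent.MP_48b1c3_nt.H99.Crt
import Pool.Agent.MP_48b1c3_nt.H99.JacA

/-! Quadratic reciprocity. -/

namespace Pool.Agent.MP_48b1c3_nt.H99

open Finset NumberField H54 H91 Filter UniqueFactorizationMonoid
open scoped Classical ComplexOrder Topology

variable {F : Type} [Field F] [NumberField F]

theorem et_zero_qr : et (0 : F) = 1 := by
  simpa using et_int (0 : 𝓞 F)

theorem gs_jac {a α δ : 𝓞 F} (h0 : α ≠ 0) (h : IsCoprime α (2 * DD F * δ * a)) :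
    gs (δ * a) α = jac δ (Ideal.span {α}) * gs a α := by
  have a0 : (α : F) ≠ 0 := RingOfIntegers.coe_ne_zero_iff.2 h0
  let ψ : AddChar (𝓞 F) ℂ :=
    { toFun := fun x => et ((a : F) * x / α)
      map_zero_eq_one' := by simp [et_zero_qr]
      map_add_eq_mul' := fun x y => by
        rw [← et_add]
        congr 1
        push_cast
        ring }
  have e : ∀ x, ψ x = et ((a : F) * x / α) := fun _ => rfl
  have key := jac_char (Ideal.span {α}) (mt Ideal.span_singleton_eq_bot.1 h0) ψ (fun x => ?_) δ ?_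
  · simp only [e] at key
    rw [gs, gs]
    convert key using 4 with u u
    · push_cast
      ring
    · push_cast
      ring
  · rw [Ideal.mem_span_singleton]
    refine ⟨fun g => ?_, ?_⟩
    · obtain ⟨z, hz⟩ := dual_int (x := (a : F) * x / α) fun y => by
        rw [← g y, e]
        congr 1
        push_cast
        ring
      have h1 : IsCoprime α (DD F * a) := h.of_isCoprime_of_dvd_right ⟨2 * δ, by ring⟩
      refine h1.dvd_of_dvd_mul_left ⟨z, RingOfIntegers.coe_injective ?_⟩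
      have h2 : (DD F : F) * a * x = α * z := by
        rw [hz]
        field_simp
      simpa using h2
    · rintro ⟨t, rfl⟩ y
      rw [e, ← et_int (a * t * y)]
      congr 1
      push_cast
      field_simp
  · rw [← Ideal.isCoprime_iff_sup_eq, Ideal.isCoprime_span_singleton_iff]
    exact h.of_isCoprime_of_dvd_right ⟨DD F * a, by ring⟩

theorem rel_qr [IsTotallyReal F] {δ α : 𝓞 F} (hδ : ∀ σ : F →+* ℂ, (σ δ).re < 0) (h0 : α ≠ 0)
    (h1 : IsCoprime α (2 * DD F * δ)) : ∃ r r₁ : ℝ, 0 < r ∧ 0 < r₁ ∧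
      gs α (4 * (DD F : 𝓞 F) ^ 2) ≠ 0 ∧
      jac δ (Ideal.span {α}) * r₁ * (gs α (4 * (DD F : 𝓞 F) ^ 2 * δ) * ph (α : F) ^ 2) =
        r * gs α (4 * (DD F : 𝓞 F) ^ 2) := by
  have d0 : δ ≠ 0 := by
    rintro rfl
    obtain ⟨σ⟩ : Nonempty (F →+* ℂ) := inferInstance
    simpa using hδ σ
  have w0 : 4 * (DD F : 𝓞 F) ^ 2 ≠ 0 :=
    mul_ne_zero (by norm_num) (pow_ne_zero 2 (Nat.cast_ne_zero.2 (DD_pos F).ne'))
  have c3 : IsCoprime α (2 * DD F * δ * (4 * (DD F : 𝓞 F) ^ 2)) :=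
    (h1.pow_right (n := 3)).of_isCoprime_of_dvd_right ⟨δ ^ 2, by ring⟩
  obtain ⟨r, r0, e1⟩ := milgram (mul_ne_zero h0 d0)
  obtain ⟨r₁, r1, e2⟩ := milgram h0
  rw [show 4 * (DD F : 𝓞 F) ^ 2 * (α * δ) = α * (4 * (DD F : 𝓞 F) ^ 2 * δ) by ring,
    gs_crt h0 (mul_ne_zero w0 d0) (c3.of_isCoprime_of_dvd_right ⟨2 * DD F, by ring⟩),
    mul_comm (4 * (DD F : 𝓞 F) ^ 2) δ, gs_jac h0 c3, mul_comm δ] at e1
  rw [mul_comm _ α, gs_crt h0 w0 (c3.of_isCoprime_of_dvd_right (dvd_mul_left _ _))] at e2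
  have e3 := ph_neg (RingOfIntegers.coe_ne_zero_iff.2 h0) hδ
  rw [show ((α * δ : 𝓞 F) : F) = α * δ by push_cast; rfl] at e1
  refine ⟨r, r₁, r0, r1, right_ne_zero_of_mul (e2 ▸ mul_ne_zero (Complex.ofReal_ne_zero.2 r1.ne')
    (right_ne_zero_of_mul_eq_one e3)), ?_⟩
  linear_combination (gs α (4 * (DD F : 𝓞 F) ^ 2) * ph (α : F)) * e1 -
    (jac δ (Ideal.span {α}) * gs α (4 * (DD F : 𝓞 F) ^ 2 * δ) * ph (α : F)) * e2 +
    (r * gs α (4 * (DD F : 𝓞 F) ^ 2)) * e3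

theorem jac_unit_qr {δ α : 𝓞 F} (h0 : α ≠ 0) (h1 : IsCoprime α (2 * DD F * δ)) :
    jac δ (Ideal.span {α}) = 1 ∨ jac δ (Ideal.span {α}) = -1 :=
  jac_sq δ (mt Ideal.span_singleton_eq_bot.1 h0) (by
    rw [← Ideal.isCoprime_iff_sup_eq, Ideal.isCoprime_span_singleton_iff]
    exact h1.of_mul_right_right)

theorem jac_per [IsTotallyReal F] {δ α α' : 𝓞 F} (hδ : ∀ σ : F →+* ℂ, (σ δ).re < 0)
    (h1 : IsCoprime α (2 * DD F * δ)) (h2 : 4 * (DD F : 𝓞 F) ^ 2 * δ ∣ α - α')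
    (h3 : 0 < nm α * nm α') : jac δ (Ideal.span {α}) = jac δ (Ideal.span {α'}) := by
  obtain ⟨a0, a1⟩ := ne_of_nm h3
  have d0 : δ ≠ 0 := by
    rintro rfl
    obtain ⟨σ⟩ : Nonempty (F →+* ℂ) := inferInstance
    simpa using hδ σ
  have w0 : 4 * (DD F : 𝓞 F) ^ 2 ≠ 0 :=
    mul_ne_zero (by norm_num) (pow_ne_zero 2 (Nat.cast_ne_zero.2 (DD_pos F).ne'))
  have h4 : IsCoprime α' (2 * DD F * δ) := by
    obtain ⟨t, ht⟩ := h2
    rw [show α' = α + 2 * DD F * δ * (-(2 * DD F * t)) by linear_combination -ht]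
    exact h1.add_mul_left_left _
  obtain ⟨r, r₁, r0, r1, g0, e1⟩ := rel_qr hδ a0 h1
  obtain ⟨s, s₁, s0, s1, -, e2⟩ := rel_qr hδ a1 h4
  rw [← gs_per (mul_ne_zero w0 d0) h2, ← gs_per w0 ((dvd_mul_right _ _).trans h2), ← ph_sq h3] at e2
  have e3 : (jac δ (Ideal.span {α'}) : ℂ) * s₁ * r = jac δ (Ideal.span {α}) * r₁ * s :=
    mul_right_cancel₀ g0 (by
      linear_combination (jac δ (Ideal.span {α}) * r₁ : ℂ) * e2 -
        (jac δ (Ideal.span {α'}) * s₁ : ℂ) * e1)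
  have e4 : (jac δ (Ideal.span {α'}) : ℝ) * s₁ * r = jac δ (Ideal.span {α}) * r₁ * s := by
    exact_mod_cast e3
  have p1 := mul_pos s1 r0
  have p2 := mul_pos r1 s0
  rcases jac_unit_qr a0 h1 with g | g <;> rcases jac_unit_qr a1 h4 with g' | g' <;>
    rw [g, g'] at e4 ⊢ <;> push_cast at e4 <;> linarith only [e4, p1, p2]

theorem jac_le_qr (δ : 𝓞 F) (I : Ideal (𝓞 F)) : ‖(jac δ I : ℂ)‖ ≤ 1 := by
  rw [jac]
  refine Multiset.prod_induction (fun x : ℤ => ‖(x : ℂ)‖ ≤ 1) _ (fun a b ha hb => ?_) (by simp)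
    fun x hx => ?_
  · rw [Int.cast_mul, norm_mul]
    exact mul_le_one₀ ha (norm_nonneg _) hb
  · obtain ⟨P, -, rfl⟩ := Multiset.mem_map.1 hx
    rw [leg]
    split_ifs <;> simp

theorem chi_hc [IsTotallyReal F] {δ : 𝓞 F} (hδ : ∀ σ : F →+* ℂ, (σ δ).re < 0) {q : ℕ}
    (hq : 0 < q) (h : 4 * DD F ^ 2 * (nm δ).natAbs ∣ q) : HC q (chi q δ) ∧ Rl (chi q δ) := by
  have nb : ∀ {I : Ideal (𝓞 F)}, Cop q I → I ≠ ⊥ := by
    rintro _ g rfl
    have g1 := cop_iff.1 g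
    rw [Ideal.absNorm_bot, Nat.coprime_zero_left] at g1
    have := g1 ▸ ((dvd_mul_right _ _).mul_right _).trans h
    omega
  have hd : 4 * (DD F : 𝓞 F) ^ 2 * δ ∣ (q : 𝓞 F) := by
    refine dvd_trans ?_ (Nat.cast_dvd_cast h)
    push_cast
    refine mul_dvd_mul_left _ (Ideal.mem_span_singleton.1 ?_)
    simpa only [Ideal.absNorm_span_singleton] using Ideal.absNorm_mem (Ideal.span {δ})
  have hr : ∀ {I J : Ideal (𝓞 F)}, Ray q I J → Cop q J → chi q δ I = chi q δ J := fun {I J} g c => by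
    have c' := g.cop c
    obtain ⟨α, β, g1, g2, g3, g4⟩ := g
    obtain ⟨a0, b0⟩ := ne_of_nm g3
    have c1 : IsCoprime α (2 * DD F * δ) := (cop_span.1 (cop_congr g2 g1)).of_isCoprime_of_dvd_right
      (dvd_trans ⟨2 * DD F, by ring⟩ hd)
    have e := congrArg (jac δ) g4
    rw [jac_mul δ (mt Ideal.span_singleton_eq_bot.1 a0) (nb c),
      jac_mul δ (mt Ideal.span_singleton_eq_bot.1 b0) (nb c'), ← jac_per hδ c1 (hd.trans g2) g3] at e
    rw [chi, chi, if_pos c, if_pos c', mul_left_cancel₀ ?_ e]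
    rcases jac_unit_qr a0 c1 with g | g <;> rw [g] <;> norm_num
  refine ⟨⟨⟨hq, fun I => ?_, fun a a' b α α' h1 h2 h3 h4 => ?_⟩, ?_, fun I J => ?_,
    fun I g => not_not.1 fun c => g (if_neg c)⟩, fun I _ => ?_⟩
  · rw [chi]
    split_ifs
    exacts [jac_le_qr δ I, by simp]
  · by_cases c : Cop q a'
    · exact hr (ray_of_per hq h1 h2 h3 h4 c) c
    · rw [chi, chi, if_neg c, if_neg fun c' =>
        c ((ray_of_per hq h2 h1 (dvd_sub_comm.1 h3) (by rwa [mul_comm]) c').cop c')]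
  · rw [chi, if_pos (show Cop q ⊤ from top_sup_eq _), jac_top, Int.cast_one]
  · simp only [chi, cop_mul]
    by_cases c1 : Cop q I <;> by_cases c2 : Cop q J <;> simp only [c1, c2, and_self, and_false,
      false_and, if_true, if_false, mul_zero, zero_mul]
    rw [jac_mul δ (nb c1) (nb c2), Int.cast_mul]
  · rw [chi]
    split_ifs <;> simp

end Pool.Agent.MP_48b1c3_nt.H99
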