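import Pool.Agent.MP_48b1c3_nt.H99.Defs

/-! Decomposition of primes in a quadratic extension. -/

namespace Pool.Agent.MP_48b1c3_nt.H99

open Finset NumberField H54 H91 Filter UniqueFactorizationMonoid
open scoped Classical ComplexOrder Topology

variable {F : Type} [Field F] [NumberField F] {K : Type} [Field K] [NumberField K] [Algebra F K]
  [Algebra.IsQuadraticExtension F K]

theorem map_norm_spl (P : Ideal (𝓞 F)) :
    Ideal.absNorm (P.map (algebraMap (𝓞 F) (𝓞 K))) = Ideal.absNorm P ^ 2 := by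
  rw [Ideal.absNorm_algebraMap, ← IsFractionRing.finrank_eq (𝓞 F) F (𝓞 K) K,
    Algebra.IsQuadraticExtension.finrank_eq_two]

theorem one_lt_spl {P : Ideal (𝓞 F)} (hP : P.IsMaximal) : 1 < Ideal.absNorm P := by
  have h0 : Ideal.absNorm P ≠ 0 := fun h => Ring.ne_bot_of_isMaximal_of_not_isField hP
    (RingOfIntegers.not_isField F) (Ideal.absNorm_eq_zero_iff.1 h)
  have h1 : Ideal.absNorm P ≠ 1 := fun h => hP.ne_top (Ideal.absNorm_eq_one_iff.1 h)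
  omega

omit [Algebra.IsQuadraticExtension F K] in
theorem pow_spl {P : Ideal (𝓞 F)} (hP : P.IsMaximal) {Q : Ideal (𝓞 K)} (hQ : Q.IsMaximal)
    (h : Q.comap (algebraMap (𝓞 F) (𝓞 K)) = P) :
    ∃ f : ℕ, Ideal.absNorm Q = Ideal.absNorm P ^ (f + 1) := by
  have : Q.LiesOver P := ⟨h.symm⟩
  have e := Ideal.absNorm_eq_pow_inertiaDeg'_of_liesOver Q P hP.isPrime
    (Ring.ne_bot_of_isMaximal_of_not_isField hP (RingOfIntegers.not_isField F))
  rcases e' : P.inertiaDeg' Q with _ | f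
  · rw [e', pow_zero] at e
    exact absurd (Ideal.absNorm_eq_one_iff.1 e) hQ.ne_top
  · exact ⟨f, e' ▸ e⟩

omit [Algebra.IsQuadraticExtension F K] in
theorem over_spl {P : Ideal (𝓞 F)} (hP : P.IsMaximal) :
    ∃ Q : Ideal (𝓞 K), Q.IsMaximal ∧ Q.comap (algebraMap (𝓞 F) (𝓞 K)) = P := by
  obtain ⟨Q, h1, h2⟩ := Ideal.exists_maximal_ideal_liesOver_of_isIntegral (S := 𝓞 K) P
  exact ⟨Q, h1, h2.over.symm⟩

theorem split_one {δ : 𝓞 F} (h : Sq K δ) {P : Ideal (𝓞 F)} (hP : P.IsMaximal) (h2 : 2 * δ ∉ P)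
    (hl : leg δ P = 1) : ∃ Q Q' : Ideal (𝓞 K), Q ≠ Q' ∧ Q.IsMaximal ∧ Q'.IsMaximal ∧
      Q.comap (algebraMap (𝓞 F) (𝓞 K)) = P ∧ Q'.comap (algebraMap (𝓞 F) (𝓞 K)) = P ∧
      Ideal.absNorm Q = Ideal.absNorm P ∧ Ideal.absNorm Q' = Ideal.absNorm P := by
  obtain ⟨w, τ, h3, h4⟩ := h
  obtain ⟨Q, q1, q2⟩ := over_spl (K := K) hP
  obtain ⟨a, ha⟩ : ∃ a : 𝓞 F, w - algebraMap _ _ a ∈ Q := by
    have h5 : IsSquare (Ideal.Quotient.mk P δ) := by
      unfold leg at hl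
      by_contra g
      rw [if_neg g] at hl
      split_ifs at hl <;> omega
    obtain ⟨a, h6⟩ := h5
    obtain ⟨a, rfl⟩ := Ideal.Quotient.mk_surjective a
    rw [← map_mul, Ideal.Quotient.eq, ← q2, Ideal.mem_comap, map_sub, map_mul, ← h3,
      show ∀ x : 𝓞 K, w ^ 2 - x * x = (w - x) * (w + x) from fun x => by ring] at h6
    rcases q1.isPrime.mem_or_mem h6 with g | g
    exacts [⟨a, g⟩, ⟨-a, by rwa [map_neg, sub_neg_eq_add]⟩]
  obtain ⟨σ, s1, s2⟩ : ∃ σ : 𝓞 K →+* 𝓞 K, σ w = -w ∧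
      ∀ x : 𝓞 F, σ (algebraMap _ _ x) = algebraMap _ _ x :=
    ⟨RingOfIntegers.mapRingHom (τ : K →+* K), RingOfIntegers.ext h4,
      fun x => RingOfIntegers.ext (τ.commutes x)⟩
  have q3 : (Q.comap σ).comap (algebraMap (𝓞 F) (𝓞 K)) = P := by
    ext x
    rw [Ideal.mem_comap, Ideal.mem_comap, s2, ← q2, Ideal.mem_comap]
  have := q1.isPrime
  have q4 : (Q.comap σ).IsMaximal :=
    Ideal.isMaximal_of_isIntegral_of_isMaximal_comap (R := 𝓞 F) _ (q3 ▸ hP)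
  have q5 : Q ≠ Q.comap σ := fun e => h2 (by
    have g : σ (w - algebraMap _ _ a) ∈ Q := by rw [← Ideal.mem_comap, ← e]; exact ha
    rw [map_sub, s1, s2] at g
    rw [← q2, Ideal.mem_comap, map_mul, ← h3, map_ofNat,
      show 2 * w ^ 2 = (w - algebraMap _ _ a - (-w - algebraMap _ _ a)) * w by ring]
    exact Q.mul_mem_right _ (Q.sub_mem ha g))
  obtain ⟨f, hf⟩ := pow_spl hP q1 q2
  obtain ⟨g, hg⟩ := pow_spl hP q4 q3
  have h7 := Ideal.absNorm_dvd_absNorm_of_le (show P.map (algebraMap (𝓞 F) (𝓞 K)) ≤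
      Q * Q.comap σ by
    rw [Ideal.mul_eq_inf_of_isCoprime (Ideal.isCoprime_iff_sup_eq.2 (q1.coprime_of_ne q4 q5))]
    exact le_inf (Ideal.map_le_iff_le_comap.2 q2.ge) (Ideal.map_le_iff_le_comap.2 q3.ge))
  rw [map_mul, map_norm_spl, hf, hg, ← pow_add, Nat.pow_dvd_pow_iff_le_right (one_lt_spl hP)] at h7
  obtain rfl : f = 0 := by omega
  obtain rfl : g = 0 := by omega
  exact ⟨Q, _, q5, q1, q4, q2, q3, hf.trans (pow_one _), hg.trans (pow_one _)⟩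

theorem inert_one {δ : 𝓞 F} (h : Sq K δ) {P : Ideal (𝓞 F)} (hP : P.IsMaximal)
    (hl : leg δ P = -1) : ∃ Q : Ideal (𝓞 K), Q.IsMaximal ∧
      Q.comap (algebraMap (𝓞 F) (𝓞 K)) = P ∧ Ideal.absNorm Q = Ideal.absNorm P ^ 2 := by
  obtain ⟨w, -, h3, -⟩ := h
  obtain ⟨Q, q1, q2⟩ := over_spl (K := K) hP
  obtain ⟨f, hf⟩ := pow_spl hP q1 q2
  have h7 := Ideal.absNorm_dvd_absNorm_of_le (Ideal.map_le_iff_le_comap.2 q2.ge)
  rw [map_norm_spl, hf, Nat.pow_dvd_pow_iff_le_right (one_lt_spl hP)] at h7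
  refine ⟨Q, q1, q2, hf.trans (congrArg _ (le_antisymm h7 (Nat.succ_le_succ
    (Nat.pos_of_ne_zero ?_))))⟩
  rintro rfl
  rw [zero_add, pow_one] at hf
  have : Finite (𝓞 K ⧸ Q) := (Ideal.absNorm_ne_zero_iff Q).1 (by
    have := one_lt_spl hP
    omega)
  have h8 := (Ideal.quotientMap_injective' (I := Q) (J := P) (f := algebraMap (𝓞 F) (𝓞 K))
    (H := q2.ge) q2.le).bijective_of_nat_card_le (by
      simpa only [Ideal.absNorm_apply, Submodule.cardQuot_apply] using hf.le)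
  obtain ⟨a, ha⟩ := h8.2 (Ideal.Quotient.mk Q w)
  have h9 : IsSquare (Ideal.Quotient.mk P δ) := ⟨a, h8.1 (by
    rw [map_mul, ha, Ideal.quotientMap_mk, ← h3, sq, map_mul])⟩
  unfold leg at hl
  rw [if_pos h9] at hl
  split_ifs at hl

end Pool.Agent.MP_48b1c3_nt.H99
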